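import Pool.Agent.LKB.KEm
import Pool.Agent.ACB.ExS

/-!
# LKB/BunX: the sphere bundle with clutching function `L`

PROOF.  `F` := the surgery of `S⁴` along `frm kS L` (radius `1`; `Thick (frm kS L) 1`: composition of `kS` with `(l, v) ↦ (l, L l v)`, inverse `(l, v) ↦ (l, (L l)⁻¹ v)`, smooth: `L l` is an isometry of `ℝ³`, so bijective;
`(L l)⁻¹` = adjoint; `ACB.exists_surg`), `S` the data.  `f q = S.A (plS q)`, `g (z, v) = S.Q () (z / √(1 + |z|²), v)`.  Glue: `f (r ex l, w) = S.A (kS (l, w / √(1 + r²)))`, `w = L l v`;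
`g (r⁻¹ ex l, v) = S.Q () (r'' ex l, v)` with `r'' = r⁻¹ / √(1 + r⁻²) = 1 / √(1 + r²) < 1`, `= S.A (kS (l, r'' L l v))`.  The other fields: `plS_loc`, `plS_inj`, `plS_range`, `S.*`; `z ↦ z / √(1 + |z|²)` is a diffeomorphism of `ℂ` onto
the open unit disc.

-/

open scoped ContDiff Manifold Topology unitInterval
open Set Filter

namespace Pool.Agent.LKB

open Pool.Agent.ACB

universe u

theorem BunX_f5 : Fact (Module.finrank ℝ E5 = 4 + 1) := ⟨finrank_euclideanSpace_fin⟩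

theorem BunX_f3 : Fact (Module.finrank ℝ E3 = 2 + 1) := ⟨finrank_euclideanSpace_fin⟩

/-! ### loops of isometries -/

theorem BunX_eqv {L : ℝ → E3 →L[ℝ] E3} (hL : OLoop L) (l : ℝ) : ∃ e : E3 ≃L[ℝ] E3, (e : E3 →L[ℝ] E3) = L l := by
  let li : E3 →ₗᵢ[ℝ] E3 := ⟨(L l : E3 →ₗ[ℝ] E3), hL.isom l⟩
  refine ⟨(li.toLinearIsometryEquiv rfl).toContinuousLinearEquiv, ?_⟩
  ext v
  rfl

/-- the inverse loop -/
noncomputable def BunX_inv (L : ℝ → E3 →L[ℝ] E3) (l : ℝ) : E3 →L[ℝ] E3 := ContinuousLinearMap.inverse (L l)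

theorem BunX_left {L : ℝ → E3 →L[ℝ] E3} (hL : OLoop L) (l : ℝ) (v : E3) : BunX_inv L l (L l v) = v := by
  obtain ⟨e, he⟩ := BunX_eqv hL l
  unfold BunX_inv
  rw [← he, ContinuousLinearMap.inverse_equiv]
  exact e.symm_apply_apply v

theorem BunX_right {L : ℝ → E3 →L[ℝ] E3} (hL : OLoop L) (l : ℝ) (v : E3) : L l (BunX_inv L l v) = v := by
  obtain ⟨e, he⟩ := BunX_eqv hL l
  unfold BunX_inv
  rw [← he, ContinuousLinearMap.inverse_equiv]
  exact e.apply_symm_apply v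

theorem BunX_inv_smooth {L : ℝ → E3 →L[ℝ] E3} (hL : OLoop L) : ContDiff ℝ ∞ (BunX_inv L) := by
  rw [contDiff_iff_contDiffAt]
  intro l
  obtain ⟨e, he⟩ := BunX_eqv hL l
  have h1 : ContDiffAt ℝ ∞ (ContinuousLinearMap.inverse : (E3 →L[ℝ] E3) → (E3 →L[ℝ] E3)) (L l) := by
    rw [← he]
    exact contDiffAt_map_inverse e
  exact ContDiffAt.comp l h1 hL.smooth.contDiffAt

/-- the diffeomorphism `(l, v) ↦ (l, L l v)` -/
noncomputable def BunX_D {L : ℝ → E3 →L[ℝ] E3} (hL : OLoop L) :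
    PartialDiffeomorph 𝓘(ℝ, ℝ × E3) 𝓘(ℝ, ℝ × E3) (ℝ × E3) (ℝ × E3) ∞ where
  toFun := fun x => (x.1, L x.1 x.2)
  invFun := fun x => (x.1, BunX_inv L x.1 x.2)
  source := univ
  target := univ
  map_source' := fun _ _ => mem_univ _
  map_target' := fun _ _ => mem_univ _
  left_inv' := fun x _ => Prod.ext rfl (BunX_left hL x.1 x.2)
  right_inv' := fun x _ => Prod.ext rfl (BunX_right hL x.1 x.2)
  open_source := isOpen_univ
  open_target := isOpen_univ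
  contMDiffOn_toFun := by
    have h1 : ContDiff ℝ ∞ (fun x : ℝ × E3 => (x.1, L x.1 x.2)) :=
      contDiff_fst.prodMk ((hL.smooth.comp contDiff_fst).clm_apply contDiff_snd)
    exact h1.contMDiff.contMDiffOn
  contMDiffOn_invFun := by
    have h1 : ContDiff ℝ ∞ (fun x : ℝ × E3 => (x.1, BunX_inv L x.1 x.2)) :=
      contDiff_fst.prodMk (((BunX_inv_smooth hL).comp contDiff_fst).clm_apply contDiff_snd)
    exact h1.contMDiff.contMDiffOn

theorem frm_thick {N : Type u} [TopologicalSpace N] [ChartedSpace E4 N] {κ : ℝ × E3 → N} {ε : ℝ} (h : Thick κ ε)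
    {L : ℝ → E3 →L[ℝ] E3} (hL : OLoop L) : Thick (frm κ L) ε where
  pos := h.pos
  per := fun l v hv => by
    show κ (l + 1, L (l + 1) v) = κ (l, L l v)
    rw [hL.per]
    exact h.per l _ (by rw [hL.isom]; exact hv)
  loc := fun l v hv => by
    have h1 : IsLocalDiffeomorphAt 𝓘(ℝ, ℝ × E3) 𝓘(ℝ, ℝ × E3) ∞ (fun x : ℝ × E3 => (x.1, L x.1 x.2)) (l, v) :=
      ⟨BunX_D hL, mem_univ _, fun _ _ => rfl⟩
    have h2 : IsLocalDiffeomorphAt 𝓘(ℝ, ℝ × E3) (𝓡 4) ∞ κ ((fun x : ℝ × E3 => (x.1, L x.1 x.2)) (l, v)) :=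
      h.loc l (L l v) (by rw [hL.isom]; exact hv)
    exact IsLocalDiffeomorphAt.comp (hf := h1) (g := κ) (hg := h2)
  inj := fun l v l' v' hv hv' he => by
    have h1 := h.inj l (L l v) l' (L l' v') (by rw [hL.isom]; exact hv) (by rw [hL.isom]; exact hv') he
    obtain ⟨h2, m, h3⟩ := h1
    refine ⟨?_, m, h3⟩
    have h4 : ∀ (n : ℕ) (l : ℝ), L (l + n) = L l := by
      intro n
      induction n with
      | zero => intro l; simp
      | succ n ih =>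
        intro l
        rw [Nat.cast_succ, ← add_assoc, hL.per, ih]
    have h5 : L l' = L l := by
      rw [h3]
      obtain ⟨n, rfl | rfl⟩ := m.eq_nat_or_neg
      · exact h4 n l
      · have h6 := h4 n (l + ((-(n : ℤ) : ℤ) : ℝ))
        rw [← h6]
        congr 1
        push_cast
        ring
    rw [h5] at h2
    rw [← BunX_left hL l v, h2, BunX_left hL]

/-! ### surgery -/

section
variable {N : Type u} [TopologicalSpace N] [ChartedSpace E4 N]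

theorem BunX_vn (v : S2) : ‖(v : E3)‖ = 1 := norm_eq_of_mem_sphere v

theorem BunX_exn (x : ℝ) : ‖ex x‖ = 1 := by
  unfold ex
  exact Complex.norm_exp_ofReal_mul_I _

theorem BunX_off {κ : ℝ × E3 → N} {ε : ℝ} (h : Thick κ ε) {l r : ℝ} {v : S2} (hr : 0 < r) (hr1 : r < ε) :
    Off (fun _ : Unit => κ) (κ (l, r • v.1)) := by
  intro _ l' he
  have h1 : ‖r • v.1‖ = r := by
    rw [norm_smul, BunX_vn, mul_one, Real.norm_of_nonneg hr.le]
  have h2 := (h.inj l (r • v.1) l' 0 (by rw [h1]; exact hr1) (by rw [norm_zero]; exact h.pos) he).1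
  rw [h2, norm_zero] at h1
  exact hr.ne h1

theorem BunX_Q {κ : ℝ × E3 → N} {ε : ℝ} (h : Thick κ ε) {X : Type*} [TopologicalSpace X] [ChartedSpace E4 X]
    (S : Surg (fun _ : Unit => κ) ε X) {z z' : ℂ} {v v' : S2} (hz : ‖z‖ < ε) (hz' : ‖z'‖ < ε)
    (he : S.Q () (z, v) = S.Q () (z', v')) : z = z' ∧ v = v' := by
  have key : ∀ {z : ℂ} (v : S2), z ≠ 0 → ‖z‖ < ε → ∃ l : ℝ, z = ‖z‖ * ex l ∧
      S.Q () (z, v) = S.A (κ (l, ‖z‖ • v.1)) ∧ Off (fun _ : Unit => κ) (κ (l, ‖z‖ • v.1)) := by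
    intro z v h0 h1
    obtain ⟨l, hl⟩ := ex_polar z
    have h2 : 0 < ‖z‖ := norm_pos_iff.2 h0
    refine ⟨l, hl, ?_, BunX_off h h2 h1⟩
    have h3 := S.glue () l ‖z‖ v h2 h1
    rw [← hl] at h3
    exact h3
  by_cases h0 : z = 0
  · by_cases h0' : z' = 0
    · subst h0 h0'
      exact ⟨rfl, (S.Q_inj () () v v' he).2⟩
    · obtain ⟨l, -, h2, h3⟩ := key v' h0' hz'
      rw [h0, h2] at he
      exact absurd he (S.disj () v _ h3)
  · by_cases h0' : z' = 0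
    · obtain ⟨l, -, h2, h3⟩ := key v h0 hz
      rw [h0', h2] at he
      exact absurd he.symm (S.disj () v' _ h3)
    · obtain ⟨l, h1, h2, h3⟩ := key v h0 hz
      obtain ⟨l', h1', h2', h3'⟩ := key v' h0' hz'
      rw [h2, h2'] at he
      have h4 := S.A_inj _ _ h3 h3' he
      have h5 : 0 < ‖z‖ := norm_pos_iff.2 h0
      have h5' : 0 < ‖z'‖ := norm_pos_iff.2 h0'
      have n1 : ‖‖z‖ • v.1‖ = ‖z‖ := by rw [norm_smul, BunX_vn, mul_one, norm_norm]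
      have n2 : ‖‖z'‖ • v'.1‖ = ‖z'‖ := by rw [norm_smul, BunX_vn, mul_one, norm_norm]
      obtain ⟨h6, m, h7⟩ := h.inj l (‖z‖ • v.1) l' (‖z'‖ • v'.1) (by rw [n1]; exact hz) (by rw [n2]; exact hz') h4
      have h8 : ‖z‖ = ‖z'‖ := by rw [← n1, h6, n2]
      have h9 : ex l' = ex l := by
        rw [h7]
        unfold ex
        rw [Complex.exp_eq_exp_iff_exists_int]
        refine ⟨m, ?_⟩
        push_cast
        ring
      constructor
      · rw [h1, h1', h8, h9]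
      · apply Subtype.ext
        rw [h8] at h6
        exact smul_right_injective E3 h5'.ne' h6

end

/-- `z / √(1 + |z|²)` -/
noncomputable def BunX_m (z : ℂ) : ℂ := (((√(1 + ‖z‖ ^ 2))⁻¹ : ℝ) : ℂ) * z

/-- `z / √(1 - |z|²)` -/
noncomputable def BunX_n (z : ℂ) : ℂ := (((√(1 - ‖z‖ ^ 2))⁻¹ : ℝ) : ℂ) * z

theorem BunX_spos (z : ℂ) : 0 < √(1 + ‖z‖ ^ 2) := Real.sqrt_pos.2 (by positivity)

theorem BunX_m_norm (z : ℂ) : ‖BunX_m z‖ = (√(1 + ‖z‖ ^ 2))⁻¹ * ‖z‖ := by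
  unfold BunX_m
  rw [norm_mul, Complex.norm_real, Real.norm_of_nonneg (inv_pos.2 (BunX_spos z)).le]

theorem BunX_m_sq (z : ℂ) : 1 - ‖BunX_m z‖ ^ 2 = (1 + ‖z‖ ^ 2)⁻¹ := by
  rw [BunX_m_norm, mul_pow, inv_pow, Real.sq_sqrt (by positivity)]
  have : (1 : ℝ) + ‖z‖ ^ 2 ≠ 0 := by positivity
  field_simp
  ring

theorem BunX_m_lt (z : ℂ) : ‖BunX_m z‖ < 1 := by
  have h1 := BunX_m_sq z
  have h2 : 0 < (1 + ‖z‖ ^ 2)⁻¹ := by positivity
  nlinarith [norm_nonneg (BunX_m z)]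

theorem BunX_n_m (z : ℂ) : BunX_n (BunX_m z) = z := by
  unfold BunX_n
  rw [BunX_m_sq, Real.sqrt_inv, inv_inv]
  unfold BunX_m
  rw [← mul_assoc, ← Complex.ofReal_mul, mul_inv_cancel₀ (BunX_spos z).ne', Complex.ofReal_one, one_mul]

theorem BunX_npos {z : ℂ} (hz : ‖z‖ < 1) : 0 < 1 - ‖z‖ ^ 2 := by
  nlinarith [norm_nonneg z]

theorem BunX_m_n {z : ℂ} (hz : ‖z‖ < 1) : BunX_m (BunX_n z) = z := by
  have h1 := BunX_npos hz
  have h2 : 0 < √(1 - ‖z‖ ^ 2) := Real.sqrt_pos.2 h1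
  have h3 : 1 + ‖BunX_n z‖ ^ 2 = (1 - ‖z‖ ^ 2)⁻¹ := by
    unfold BunX_n
    rw [norm_mul, Complex.norm_real, Real.norm_of_nonneg (inv_pos.2 h2).le, mul_pow, inv_pow, Real.sq_sqrt h1.le]
    field_simp
    ring
  unfold BunX_m
  rw [h3, Real.sqrt_inv, inv_inv]
  unfold BunX_n
  rw [← mul_assoc, ← Complex.ofReal_mul, mul_inv_cancel₀ h2.ne', Complex.ofReal_one, one_mul]

theorem BunX_m_smooth : ContDiff ℝ ∞ BunX_m := by
  have k00 : ContDiff ℝ ∞ (fun z : ℂ => (√(1 + ‖z‖ ^ 2))⁻¹) := by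
    refine ContDiff.inv ?_ (fun z => (BunX_spos z).ne')
    refine ContDiff.sqrt ?_ (fun z => by positivity)
    exact contDiff_const.add (contDiff_norm_sq ℝ)
  exact (Complex.ofRealCLM.contDiff.comp k00).mul contDiff_id

theorem BunX_n_smooth {z : ℂ} (hz : ‖z‖ < 1) : ContDiffAt ℝ ∞ BunX_n z := by
  have h1 := BunX_npos hz
  have k00 : ContDiffAt ℝ ∞ (fun z : ℂ => (√(1 - ‖z‖ ^ 2))⁻¹) z := by
    refine ContDiffAt.inv ?_ (Real.sqrt_pos.2 h1).ne'
    refine ContDiffAt.sqrt ?_ h1.ne'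
    exact (contDiff_const.sub (contDiff_norm_sq ℝ)).contDiffAt
  exact (Complex.ofRealCLM.contDiff.contDiffAt.comp z k00).mul contDiffAt_id

/-- the shrinking of the first factor -/
noncomputable def BunX_PD : PartialDiffeomorph (𝓘(ℝ, ℂ).prod (𝓡 2)) (𝓘(ℝ, ℂ).prod (𝓡 2)) (ℂ × S2) (ℂ × S2) ∞ where
  toFun := fun p => (BunX_m p.1, p.2)
  invFun := fun p => (BunX_n p.1, p.2)
  source := univ
  target := {p | ‖p.1‖ < 1}
  map_source' := fun p _ => BunX_m_lt p.1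
  map_target' := fun _ _ => mem_univ _
  left_inv' := fun p _ => Prod.ext (BunX_n_m p.1) rfl
  right_inv' := fun _ hp => Prod.ext (BunX_m_n hp) rfl
  open_source := isOpen_univ
  open_target := isOpen_lt (continuous_norm.comp continuous_fst) continuous_const
  contMDiffOn_toFun := fun p _ => ((BunX_m_smooth.contMDiff.contMDiffAt.comp p contMDiffAt_fst).prodMk
    contMDiffAt_snd).contMDiffWithinAt
  contMDiffOn_invFun := fun p hp => (((BunX_n_smooth hp).contMDiffAt.comp p contMDiffAt_fst).prodMk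
    contMDiffAt_snd).contMDiffWithinAt

theorem bun_exists {L : ℝ → E3 →L[ℝ] E3} (hL : OLoop L) :
    ∃ F : Mf, Nonempty (BunD L F.X) ∧ Nonempty (Surg (fun _ : Unit => frm kS L) 1 F.X) := by
  have hT : Thick (frm kS L) 1 := frm_thick kS_thick hL
  obtain ⟨V, i1, i2, i3, i4, ⟨S⟩⟩ := exists_surg hT
  refine ⟨⟨V⟩, ⟨?_⟩, ⟨S⟩⟩
  have hcore : ∀ l, frm kS L (l, 0) = core kS l := by
    intro l
    show kS (l, L l 0) = kS (l, 0)
    rw [map_zero]
  have hoff : ∀ q, Off (fun _ : Unit => frm kS L) (plS q) := by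
    intro q _ l he
    exact (plS_range (plS q)).2 ⟨q, rfl⟩ ⟨l, (he.trans (hcore l)).symm⟩
  refine ⟨fun q => S.A (plS q), fun q => S.Q () (BunX_m q.1, q.2), ?_, ?_, ?_, ?_, ?_, ?_, ?_⟩
  · intro q
    exact IsLocalDiffeomorphAt.comp (hf := plS_loc q) (g := S.A) (hg := S.A_loc _ (hoff q))
  · intro q
    have h1 : IsLocalDiffeomorphAt (𝓘(ℝ, ℂ).prod (𝓡 2)) (𝓘(ℝ, ℂ).prod (𝓡 2)) ∞
        (fun p : ℂ × S2 => (BunX_m p.1, p.2)) q := ⟨BunX_PD, mem_univ _, fun _ _ => rfl⟩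
    have h2 : IsLocalDiffeomorphAt (𝓘(ℝ, ℂ).prod (𝓡 2)) (𝓡 4) ∞ (S.Q ()) ((fun p : ℂ × S2 => (BunX_m p.1, p.2)) q) :=
      S.Q_loc () (BunX_m q.1) q.2 (BunX_m_lt q.1)
    exact IsLocalDiffeomorphAt.comp (hf := h1) (g := S.Q ()) (hg := h2)
  · intro q q' h
    exact plS_inj (S.A_inj _ _ (hoff q) (hoff q') h)
  · intro q q' h
    obtain ⟨h1, h2⟩ := BunX_Q hT S (BunX_m_lt q.1) (BunX_m_lt q'.1) h
    refine Prod.ext ?_ h2
    rw [← BunX_n_m q.1, h1, BunX_n_m]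
  · intro l r v w hr hw
    have hs : 0 < √(1 + r ^ 2) := Real.sqrt_pos.2 (by positivity)
    have hs1 : 1 < √(1 + r ^ 2) := by
      rw [Real.lt_sqrt zero_le_one]
      nlinarith
    have h1 : BunX_m ((r⁻¹ : ℝ) * ex l) = (((√(1 + r ^ 2))⁻¹ : ℝ) : ℂ) * ex l := by
      unfold BunX_m
      have h2 : ‖((r⁻¹ : ℝ) : ℂ) * ex l‖ = r⁻¹ := by
        rw [norm_mul, BunX_exn, mul_one, Complex.norm_real, Real.norm_of_nonneg (inv_pos.2 hr).le]
      rw [h2, ← mul_assoc, ← Complex.ofReal_mul]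
      congr 2
      have h3 : √(1 + r⁻¹ ^ 2) = √(1 + r ^ 2) * r⁻¹ := by
        have h4 : 1 + r⁻¹ ^ 2 = (1 + r ^ 2) * (r⁻¹) ^ 2 := by
          field_simp
          ring
        rw [h4, Real.sqrt_mul (by positivity), Real.sqrt_sq (inv_pos.2 hr).le]
      rw [h3, mul_inv, inv_inv, mul_assoc, mul_inv_cancel₀ hr.ne', mul_one]
    show S.Q () (BunX_m ((r⁻¹ : ℝ) * ex l), v) = S.A (plS (r * ex l, w))
    rw [h1, S.glue () l _ v (inv_pos.2 hs) (inv_lt_one_of_one_lt₀ hs1), plS_kS l r w hr]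
    show S.A (kS (l, L l ((√(1 + r ^ 2))⁻¹ • v.1))) = _
    rw [map_smul, ← hw]
  · intro q v h
    have h1 : BunX_m 0 = 0 := by
      unfold BunX_m
      rw [mul_zero]
    have h2 : S.A (plS q) = S.Q () (BunX_m 0, v) := h
    rw [h1] at h2
    exact S.disj () v _ (hoff q) h2.symm
  · intro x
    rcases S.cover x with ⟨p, hp, rfl⟩ | ⟨i, v, rfl⟩
    · left
      have h1 : p ∉ range (core kS) := by
        rintro ⟨l, hl⟩
        exact hp () l (hl.symm.trans (hcore l).symm)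
      obtain ⟨q, rfl⟩ := (plS_range p).1 h1
      exact ⟨q, rfl⟩
    · right
      refine ⟨v, ?_⟩
      show S.Q () (0, v) = S.Q () (BunX_m 0, v)
      unfold BunX_m
      rw [mul_zero]

end Pool.Agent.LKB
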