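import Pool.Agent.LKB.Defs

/-!
# LKB/Rad2: radial functions

PROOF.  With a smooth step `s` (`Real.smoothTransition`): `h ρ = (1 - s) (3 + ρ/8) + s ρ` with `s = 0` for `ρ ≤ 3.5`, `s = 1` for `ρ ≥ 3.9`: derivative `(1-s)/8 + s + s' (7ρ/8 - 3) > 0` (`7ρ/8 ≥ 3` for `ρ ≥ 3.43`); range `(3, 4)` of `(0, 4)`.
`h' ρ = (1 - s) ρ + s (4 - 1/ρ)` with `s = 0` for `ρ ≤ 3`, `s = 1` for `ρ ≥ 3.5`: derivative `(1-s) + s/ρ² + s' (4 - 1/ρ - ρ) > 0` (`ρ (4 - ρ) ≥ 1` on `[3, 3.5]`).  The maps: `HA x = h(‖x‖) x/‖x‖` on `0 < ‖x‖ < 4` (identity near `‖x‖ = 4` and beyond),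
`HB x = h'(‖x‖) x/‖x‖` (identity for `‖x‖ ≤ 3`, so smooth at `0`), image of `ℝ⁴` = the open ball of radius `4`.  `k : ℝ → ℝ`: `k s = h'⁻¹ (h (4 (1 - s)))` for `0 < s < 1`: a smooth decreasing bijection of `(0, 1)` onto `(3, ∞)`, `k s = 1/(4 s)` for small `s`
(`h (4 - 4s) = 4 - 4 s`, `h' (1/(4s)) = 4 - 4 s`).  `kb v = k(‖v‖) v / ‖v‖`, `0 < ‖v‖ < 1`.  A smooth bijection of intervals with positive derivative has a smooth inverse.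

-/

open scoped ContDiff Manifold Topology unitInterval
open Set Filter

namespace Pool.Agent.LKB

open Pool.Agent.ACB

/-! ### local diffeomorphisms -/

section
variable {𝕜 : Type*} [NontriviallyNormedField 𝕜]
  {E : Type*} [NormedAddCommGroup E] [NormedSpace 𝕜 E]
  {F : Type*} [NormedAddCommGroup F] [NormedSpace 𝕜 F]
  {F' : Type*} [NormedAddCommGroup F'] [NormedSpace 𝕜 F']
  {H₁ : Type*} [TopologicalSpace H₁] {H₂ : Type*} [TopologicalSpace H₂]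
  {H₃ : Type*} [TopologicalSpace H₃]
  {I₁ : ModelWithCorners 𝕜 E H₁} {J : ModelWithCorners 𝕜 F H₂} {K : ModelWithCorners 𝕜 F' H₃}
  {M : Type*} [TopologicalSpace M] [ChartedSpace H₁ M]
  {N : Type*} [TopologicalSpace N] [ChartedSpace H₂ N]
  {P : Type*} [TopologicalSpace P] [ChartedSpace H₃ P] {n : WithTop ℕ∞}

def Rad2_restr (Φ : PartialDiffeomorph I₁ J M N n) (U : Set M) (hU : IsOpen U) :
    PartialDiffeomorph I₁ J M N n where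
  toPartialEquiv := (Φ.toOpenPartialHomeomorph.restrOpen U hU).toPartialEquiv
  open_source := (Φ.toOpenPartialHomeomorph.restrOpen U hU).open_source
  open_target := (Φ.toOpenPartialHomeomorph.restrOpen U hU).open_target
  contMDiffOn_toFun := Φ.contMDiffOn_toFun.mono inter_subset_left
  contMDiffOn_invFun := Φ.contMDiffOn_invFun.mono inter_subset_left

theorem Rad2_ld_congr {f g : M → N} {x : M} (hf : IsLocalDiffeomorphAt I₁ J n f x)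
    (h : g =ᶠ[𝓝 x] f) : IsLocalDiffeomorphAt I₁ J n g x := by
  obtain ⟨Φ, hx, heq⟩ := hf
  obtain ⟨U, hUsub, hU, hxU⟩ := mem_nhds_iff.1 h
  refine ⟨Rad2_restr Φ U hU, ⟨hx, hxU⟩, ?_⟩
  rintro y ⟨hy1, hy2⟩
  have h1 : g y = f y := hUsub hy2
  rw [h1]
  exact heq hy1

theorem Rad2_ld_id (x : M) : IsLocalDiffeomorphAt I₁ I₁ n (id : M → M) x :=
  (Diffeomorph.refl I₁ M n).isLocalDiffeomorph x

theorem Rad2_ld_left {f : M → N} {g : N → P} {x : M}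
    (hgf : IsLocalDiffeomorphAt I₁ K n (g ∘ f) x) (hf : IsLocalDiffeomorphAt I₁ J n f x) :
    IsLocalDiffeomorphAt J K n g (f x) := by
  have h1 := hf.localInverse_isLocalDiffeomorphAt
  have h2 : hf.localInverse (f x) = x := hf.localInverse_left_inv hf.localInverse_mem_target
  have h3 : IsLocalDiffeomorphAt J K n ((g ∘ f) ∘ hf.localInverse) (f x) := by
    refine IsLocalDiffeomorphAt.comp (hf := h1) (hg := ?_) ..
    rw [h2]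
    exact hgf
  refine Rad2_ld_congr h3 ?_
  filter_upwards [hf.localInverse_eventuallyEq_right] with y hy
  have hy' : f (hf.localInverse y) = y := hy
  show g y = g (f (hf.localInverse y))
  rw [hy']

end

/-! ### radial maps -/

/-- the radial map -/
noncomputable def Rad2_F (f : ℝ → ℝ) (x : E4) : E4 := (f ‖x‖ * ‖x‖⁻¹) • x

theorem Rad2_norm {f : ℝ → ℝ} {x : E4} (hx : x ≠ 0) (h : 0 < f ‖x‖) : ‖Rad2_F f x‖ = f ‖x‖ := by
  unfold Rad2_F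
  rw [norm_smul, norm_mul, norm_inv, norm_norm, mul_assoc, inv_mul_cancel₀ (norm_ne_zero_iff.2 hx), mul_one,
    Real.norm_of_nonneg h.le]

theorem Rad2_comp {f g : ℝ → ℝ} {x : E4} (hx : x ≠ 0) (h : 0 < f ‖x‖) (hg : g (f ‖x‖) = ‖x‖) :
    Rad2_F g (Rad2_F f x) = x := by
  have h1 := Rad2_norm hx h
  have hx' : ‖x‖ ≠ 0 := norm_ne_zero_iff.2 hx
  have e : Rad2_F g (Rad2_F f x) = (g ‖Rad2_F f x‖ * ‖Rad2_F f x‖⁻¹) • ((f ‖x‖ * ‖x‖⁻¹) • x) := rfl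
  rw [e, h1, hg, smul_smul]
  have : ‖x‖ * (f ‖x‖)⁻¹ * (f ‖x‖ * ‖x‖⁻¹) = 1 := by
    field_simp
  rw [this, one_smul]

theorem Rad2_inj {f : ℝ → ℝ} {x y : E4} (hx : x ≠ 0) (hy : y ≠ 0) (h : 0 < f ‖x‖) (h' : 0 < f ‖y‖)
    (hf : f ‖x‖ = f ‖y‖ → ‖x‖ = ‖y‖) (he : Rad2_F f x = Rad2_F f y) : x = y := by
  have h1 : f ‖x‖ = f ‖y‖ := by
    rw [← Rad2_norm hx h, ← Rad2_norm hy h', he]
  have h2 := hf h1
  unfold Rad2_F at he
  rw [← h1, ← h2] at he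
  have h3 : f ‖x‖ * ‖x‖⁻¹ ≠ 0 := mul_ne_zero h.ne' (inv_ne_zero (norm_ne_zero_iff.2 hx))
  exact smul_right_injective E4 h3 he

theorem Rad2_smooth {f : ℝ → ℝ} {x : E4} (hx : x ≠ 0) (hf : ContDiffAt ℝ ∞ f ‖x‖) :
    ContDiffAt ℝ ∞ (Rad2_F f) x := by
  have h1 : ContDiffAt ℝ ∞ (fun x : E4 => ‖x‖) x := contDiffAt_norm ℝ hx
  have h2 : ContDiffAt ℝ ∞ (fun x : E4 => f ‖x‖) x := ContDiffAt.comp x hf h1
  exact (h2.mul (h1.inv (norm_ne_zero_iff.2 hx))).smul contDiffAt_id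

theorem Rad2_ld {f : ℝ → ℝ} {U : Set ℝ} (hU : IsOpen U) (hU0 : ∀ r ∈ U, 0 < r) (hf : ∀ r ∈ U, ContDiffAt ℝ ∞ f r)
    (hd : ∀ r ∈ U, deriv f r ≠ 0) (hp : ∀ r ∈ U, 0 < f r) {x : E4} (hx : ‖x‖ ∈ U) :
    IsLocalDiffeomorphAt (𝓡 4) (𝓡 4) ∞ (Rad2_F f) x := by
  have hder : ∀ r ∈ U, HasDerivAt f (deriv f r) r := fun r hr => ((hf r hr).differentiableAt (by simp)).hasDerivAt
  let φ := (hf _ hx).toOpenPartialHomeomorph f ((hder _ hx).hasFDerivAt_equiv (hd _ hx)) (by simp)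
  have hφ : ∀ r, φ r = f r := fun r => rfl
  have hφx : ‖x‖ ∈ φ.source := (hf _ hx).mem_toOpenPartialHomeomorph_source ((hder _ hx).hasFDerivAt_equiv (hd _ hx)) (by simp)
  let ψ := φ.restrOpen U hU
  have hψs : ∀ r ∈ ψ.source, r ∈ U := fun r hr => hr.2
  have hψ : ∀ r, ψ r = f r := fun r => rfl
  have hψt : ∀ t ∈ ψ.target, ψ.symm t ∈ U ∧ f (ψ.symm t) = t ∧ 0 < t := by
    intro t ht
    have h1 := hψs _ (ψ.map_target ht)
    have h2 : f (ψ.symm t) = t := ψ.right_inv ht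
    refine ⟨h1, h2, ?_⟩
    rw [← h2]
    exact hp _ h1
  have hψsm : ∀ t ∈ ψ.target, ContDiffAt ℝ ∞ ψ.symm t := by
    intro t ht
    obtain ⟨h1, h2, h3⟩ := hψt t ht
    exact ψ.contDiffAt_symm_deriv (hd _ h1) ht (hder _ h1) (hf _ h1)
  have ne_s : ∀ y : E4, ‖y‖ ∈ ψ.source → y ≠ 0 := by
    intro y hy h0
    have := hU0 _ (hψs _ hy)
    rw [h0, norm_zero] at this
    exact lt_irrefl _ this
  have ne_t : ∀ y : E4, ‖y‖ ∈ ψ.target → y ≠ 0 := by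
    intro y hy h0
    have := (hψt _ hy).2.2
    rw [h0, norm_zero] at this
    exact lt_irrefl _ this
  refine ⟨⟨⟨Rad2_F f, Rad2_F ψ.symm, {y | ‖y‖ ∈ ψ.source}, {y | ‖y‖ ∈ ψ.target}, ?_, ?_, ?_, ?_⟩, ?_, ?_, ?_, ?_⟩,
    ⟨hφx, hx⟩, fun _ _ => rfl⟩
  · intro y hy
    show ‖Rad2_F f y‖ ∈ ψ.target
    rw [Rad2_norm (ne_s y hy) (hp _ (hψs _ hy))]
    exact ψ.map_source hy
  · intro y hy
    show ‖Rad2_F ψ.symm y‖ ∈ ψ.source
    have h1 := hψt _ hy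
    rw [Rad2_norm (ne_t y hy) (hU0 _ h1.1)]
    exact ψ.map_target hy
  · intro y hy
    exact Rad2_comp (ne_s y hy) (hp _ (hψs _ hy)) (ψ.left_inv hy)
  · intro y hy
    exact Rad2_comp (ne_t y hy) (hU0 _ (hψt _ hy).1) (hψt _ hy).2.1
  · exact ψ.open_source.preimage continuous_norm
  · exact ψ.open_target.preimage continuous_norm
  · intro y hy
    exact (Rad2_smooth (ne_s y hy) (hf _ (hψs _ hy))).contMDiffAt.contMDiffWithinAt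
  · intro y hy
    exact (Rad2_smooth (ne_t y hy) (hψsm _ hy)).contMDiffAt.contMDiffWithinAt

/-! ### the steps -/

/-- a smooth step -/
noncomputable def Rad2_s (p q : ℝ) (r : ℝ) : ℝ := Real.smoothTransition ((r - p) / (q - p))

theorem Rad2_s_smooth (p q : ℝ) : ContDiff ℝ ∞ (Rad2_s p q) :=
  (Real.smoothTransition.contDiff (n := ⊤)).comp ((contDiff_id.sub contDiff_const).div_const _)

theorem Rad2_s_mono {p q : ℝ} (h : p < q) : Monotone (Rad2_s p q) := by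
  intro x y hxy
  refine Real.smoothTransition.monotone ?_
  exact div_le_div_of_nonneg_right (by linarith) (by linarith)

theorem Rad2_s_zero {p q : ℝ} (h : p < q) {r : ℝ} (hr : r ≤ p) : Rad2_s p q r = 0 :=
  Real.smoothTransition.zero_of_nonpos (div_nonpos_of_nonpos_of_nonneg (by linarith) (by linarith))

theorem Rad2_s_one {p q : ℝ} (h : p < q) {r : ℝ} (hr : q ≤ r) : Rad2_s p q r = 1 :=
  Real.smoothTransition.one_of_one_le (by rw [le_div_iff₀ (by linarith)]; linarith)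

theorem Rad2_s_nonneg (p q r : ℝ) : 0 ≤ Rad2_s p q r := Real.smoothTransition.nonneg _

theorem Rad2_s_le (p q r : ℝ) : Rad2_s p q r ≤ 1 := Real.smoothTransition.le_one _

theorem Rad2_s_der {p q : ℝ} (h : p < q) (r : ℝ) : ∃ d : ℝ, HasDerivAt (Rad2_s p q) d r ∧ 0 ≤ d ∧
    (r < p → d = 0) ∧ (q < r → d = 0) := by
  refine ⟨deriv (Rad2_s p q) r, ((Rad2_s_smooth p q).differentiable (by simp) r).hasDerivAt,
    (Rad2_s_mono h).deriv_nonneg, fun hr => ?_, fun hr => ?_⟩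
  · have h1 : Rad2_s p q =ᶠ[𝓝 r] fun _ => (0 : ℝ) := by
      filter_upwards [isOpen_Iio.mem_nhds hr] with y hy
      exact Rad2_s_zero h (le_of_lt hy)
    rw [h1.deriv_eq]
    simp
  · have h1 : Rad2_s p q =ᶠ[𝓝 r] fun _ => (1 : ℝ) := by
      filter_upwards [isOpen_Ioi.mem_nhds hr] with y hy
      exact Rad2_s_one h (le_of_lt hy)
    rw [h1.deriv_eq]
    simp

/-- the function of `HA` -/
noncomputable def Rad2_a (r : ℝ) : ℝ := 3 + r / 8 + Rad2_s (7 / 2) (39 / 10) r * (7 * r / 8 - 3)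

theorem Rad2_a_smooth : ContDiff ℝ ∞ Rad2_a := by
  have h := Rad2_s_smooth (7 / 2) (39 / 10)
  unfold Rad2_a
  exact (contDiff_const.add (contDiff_id.div_const _)).add
    (h.mul (((contDiff_const.mul contDiff_id).div_const _).sub contDiff_const))

theorem Rad2_a_der (r : ℝ) : 0 < deriv Rad2_a r := by
  obtain ⟨d, hd, h0, hlt, hgt⟩ := Rad2_s_der (p := 7 / 2) (q := 39 / 10) (by norm_num) r
  have h1 : HasDerivAt Rad2_a (1 / 8 + (d * (7 * r / 8 - 3) + Rad2_s (7 / 2) (39 / 10) r * (7 / 8))) r := by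
    have e1 : HasDerivAt (fun r : ℝ => 3 + r / 8) (1 / 8) r := by
      simpa using ((hasDerivAt_id r).div_const 8).const_add 3
    have e2 : HasDerivAt (fun r : ℝ => 7 * r / 8 - 3) (7 / 8) r := by
      simpa using (((hasDerivAt_id r).const_mul 7).div_const 8).sub_const 3
    exact e1.add (hd.mul e2)
  rw [h1.deriv]
  have h2 := Rad2_s_nonneg (7 / 2) (39 / 10) r
  by_cases hr : r < 7 / 2
  · rw [hlt hr]
    linarith
  · have h3 : 0 ≤ d * (7 * r / 8 - 3) := mul_nonneg h0 (by linarith)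
    linarith

theorem Rad2_a_mono : StrictMono Rad2_a := strictMono_of_deriv_pos Rad2_a_der

theorem Rad2_a_gt {r : ℝ} (hr : 0 < r) : 3 < Rad2_a r := by
  have h1 := Rad2_a_mono hr
  have h2 : Rad2_a 0 = 3 := by
    unfold Rad2_a
    rw [Rad2_s_zero (by norm_num) (by norm_num)]
    norm_num
  linarith

theorem Rad2_a_id {r : ℝ} (hr : 39 / 10 ≤ r) : Rad2_a r = r := by
  unfold Rad2_a
  rw [Rad2_s_one (by norm_num) hr]
  ring

theorem Rad2_a_surj {t : ℝ} (ht : 3 < t) : ∃ r, 0 < r ∧ Rad2_a r = t := by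
  have h1 : Continuous Rad2_a := Rad2_a_smooth.continuous
  have h0 : Rad2_a 0 = 3 := by
    unfold Rad2_a
    rw [Rad2_s_zero (by norm_num) (by norm_num)]
    norm_num
  have h2 : Rad2_a (max t 4) = max t 4 := Rad2_a_id (by
    have := le_max_right t 4
    linarith)
  have h3 := intermediate_value_Icc (f := Rad2_a) (a := 0) (b := max t 4) (by positivity) h1.continuousOn
  have hm : t ∈ Icc (Rad2_a 0) (Rad2_a (max t 4)) := ⟨by rw [h0]; exact ht.le, by rw [h2]; exact le_max_left _ _⟩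
  obtain ⟨r, hr, he⟩ := h3 hm
  refine ⟨r, ?_, he⟩
  rcases eq_or_lt_of_le hr.1 with h | h
  · rw [← h, h0] at he
    linarith
  · exact h

/-- the function of `HB` -/
noncomputable def Rad2_b (r : ℝ) : ℝ := r + Rad2_s 3 (7 / 2) r * (4 - r⁻¹ - r)

theorem Rad2_b_smooth {r : ℝ} (hr : 0 < r) : ContDiffAt ℝ ∞ Rad2_b r := by
  have h := (Rad2_s_smooth 3 (7 / 2)).contDiffAt (x := r)
  unfold Rad2_b
  exact contDiffAt_id.add (h.mul ((contDiffAt_const.sub (contDiffAt_id.inv hr.ne')).sub contDiffAt_id))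

theorem Rad2_b_der {r : ℝ} (hr : 0 < r) : 0 < deriv Rad2_b r := by
  obtain ⟨d, hd, h0, hlt, hgt⟩ := Rad2_s_der (p := 3) (q := 7 / 2) (by norm_num) r
  have h1 : HasDerivAt Rad2_b (1 + (d * (4 - r⁻¹ - r) + Rad2_s 3 (7 / 2) r * ((r ^ 2)⁻¹ - 1))) r := by
    have e1 : HasDerivAt (fun r : ℝ => r) 1 r := hasDerivAt_id r
    have e2 : HasDerivAt (fun r : ℝ => 4 - r⁻¹ - r) ((r ^ 2)⁻¹ - 1) r := by
      have h6 := ((hasDerivAt_inv hr.ne').const_sub 4).sub (hasDerivAt_id r)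
      exact h6.congr_deriv (by simp)
    exact e1.add (hd.mul e2)
  rw [h1.deriv]
  have h2 := Rad2_s_nonneg 3 (7 / 2) r
  have h3 := Rad2_s_le 3 (7 / 2) r
  have h4 : 0 < (r ^ 2)⁻¹ := by positivity
  have h5 : 0 ≤ d * (4 - r⁻¹ - r) := by
    by_cases h6 : r < 3
    · rw [hlt h6, zero_mul]
    · by_cases h7 : 7 / 2 < r
      · rw [hgt h7, zero_mul]
      · refine mul_nonneg h0 ?_
        push Not at h6 h7
        have h8 : r⁻¹ ≤ 1 / 3 := by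
          rw [inv_eq_one_div]
          exact one_div_le_one_div_of_le (by norm_num) h6
        linarith
  rcases eq_or_lt_of_le h3 with h6 | h6
  · rw [h6]
    nlinarith
  · nlinarith [mul_nonneg h2 h4.le]

theorem Rad2_b_mono : StrictMonoOn Rad2_b (Ioi 0) := by
  refine strictMonoOn_of_deriv_pos (convex_Ioi 0) (fun r hr => (Rad2_b_smooth hr).continuousAt.continuousWithinAt) ?_
  rw [interior_Ioi]
  exact fun r hr => Rad2_b_der hr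

theorem Rad2_b_id {r : ℝ} (hr : r ≤ 3) : Rad2_b r = r := by
  unfold Rad2_b
  rw [Rad2_s_zero (by norm_num) hr]
  ring

theorem Rad2_b_out {r : ℝ} (hr : 7 / 2 ≤ r) : Rad2_b r = 4 - r⁻¹ := by
  unfold Rad2_b
  rw [Rad2_s_one (by norm_num) hr]
  ring

theorem Rad2_b_pos {r : ℝ} (hr : 0 < r) : 0 < Rad2_b r := by
  by_cases h : r ≤ 3
  · rw [Rad2_b_id h]
    exact hr
  · push Not at h
    have h1 := Rad2_b_mono (show (3 : ℝ) ∈ Ioi 0 by norm_num) (show r ∈ Ioi 0 from hr) h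
    rw [Rad2_b_id le_rfl] at h1
    linarith

theorem Rad2_b_lt {r : ℝ} (hr : 0 < r) : Rad2_b r < 4 := by
  by_cases h : 7 / 2 ≤ r
  · rw [Rad2_b_out h]
    have : 0 < r⁻¹ := inv_pos.2 hr
    linarith
  · push Not at h
    have h1 := Rad2_b_mono (show r ∈ Ioi 0 from hr) (show (7 / 2 : ℝ) ∈ Ioi 0 by norm_num) h
    rw [Rad2_b_out le_rfl] at h1
    norm_num at h1 ⊢
    linarith

theorem Rad2_b_surj {t : ℝ} (h0 : 0 < t) (ht : t < 4) : ∃ r, 0 < r ∧ Rad2_b r = t := by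
  by_cases h1 : t ≤ 3
  · exact ⟨t, h0, Rad2_b_id h1⟩
  push Not at h1
  set R := max (7 / 2) ((4 - t)⁻¹) with hR
  have hR1 : 7 / 2 ≤ R := le_max_left _ _
  have hR2 : (4 - t)⁻¹ ≤ R := le_max_right _ _
  have hRp : 0 < R := by linarith
  have h2 : t ≤ Rad2_b R := by
    rw [Rad2_b_out hR1]
    have h3 : R⁻¹ ≤ 4 - t := by
      rw [inv_le_comm₀ hRp (by linarith)]
      exact hR2
    linarith
  have hc : ContinuousOn Rad2_b (Icc 3 R) := fun r hr =>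
    (Rad2_b_smooth (show 0 < r by linarith [hr.1])).continuousAt.continuousWithinAt
  obtain ⟨r, hr, he⟩ := intermediate_value_Icc (show (3 : ℝ) ≤ R by linarith) hc
    ⟨by rw [Rad2_b_id le_rfl]; exact h1.le, h2⟩
  exact ⟨r, by linarith [hr.1], he⟩

/-! ### the maps -/

noncomputable def Rad2_HA (x : E4) : E4 := Rad2_F Rad2_a x
noncomputable def Rad2_HB (x : E4) : E4 := Rad2_F Rad2_b x
noncomputable def Rad2_R (x : E4) : E4 := Rad2_F (fun r => 4 * (1 - r)) x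
noncomputable def Rad2_HBi : E4 → E4 := Function.invFun Rad2_HB
noncomputable def Rad2_kb (x : E4) : E4 := Rad2_HBi (Rad2_HA (Rad2_R x))

theorem Rad2_np {x : E4} (hx : x ≠ 0) : 0 < ‖x‖ := norm_pos_iff.2 hx

theorem Rad2_HA_ld {x : E4} (hx : x ≠ 0) : IsLocalDiffeomorphAt (𝓡 4) (𝓡 4) ∞ Rad2_HA x :=
  Rad2_ld (U := Ioi 0) isOpen_Ioi (fun _ h => h) (fun _ _ => Rad2_a_smooth.contDiffAt)
    (fun r _ => (Rad2_a_der r).ne') (fun r hr => by linarith [Rad2_a_gt (show 0 < r from hr)]) (Rad2_np hx)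

theorem Rad2_HA_norm {x : E4} (hx : x ≠ 0) : ‖Rad2_HA x‖ = Rad2_a ‖x‖ :=
  Rad2_norm hx (by linarith [Rad2_a_gt (Rad2_np hx)])

theorem Rad2_HA_inj {x y : E4} (hx : x ≠ 0) (hy : y ≠ 0) (he : Rad2_HA x = Rad2_HA y) : x = y :=
  Rad2_inj hx hy (by linarith [Rad2_a_gt (Rad2_np hx)]) (by linarith [Rad2_a_gt (Rad2_np hy)])
    (fun h => Rad2_a_mono.injective h) he

theorem Rad2_surj {f : ℝ → ℝ} {y : E4} (hy : y ≠ 0) {r : ℝ} (hr : 0 < r) (he : f r = ‖y‖) :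
    ∃ x, x ≠ 0 ∧ ‖x‖ = r ∧ Rad2_F f x = y := by
  have hn := Rad2_np hy
  have h1 : ‖(r * ‖y‖⁻¹) • y‖ = r := by
    rw [norm_smul, norm_mul, norm_inv, norm_norm, mul_assoc, inv_mul_cancel₀ hn.ne', mul_one,
      Real.norm_of_nonneg hr.le]
  refine ⟨(r * ‖y‖⁻¹) • y, ?_, h1, ?_⟩
  · rw [← norm_pos_iff, h1]
    exact hr
  · unfold Rad2_F
    rw [h1, he, smul_smul]
    have : ‖y‖ * r⁻¹ * (r * ‖y‖⁻¹) = 1 := by field_simp
    rw [this, one_smul]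

theorem Rad2_F_id {f : ℝ → ℝ} {x : E4} (h : f ‖x‖ = ‖x‖) : Rad2_F f x = x := by
  by_cases hx : x = 0
  · subst hx
    unfold Rad2_F
    rw [smul_zero]
  · unfold Rad2_F
    rw [h, mul_inv_cancel₀ (norm_ne_zero_iff.2 hx), one_smul]

theorem Rad2_HB_id {x : E4} (h : ‖x‖ ≤ 3) : Rad2_HB x = x := Rad2_F_id (Rad2_b_id h)

theorem Rad2_HB_ld (x : E4) : IsLocalDiffeomorphAt (𝓡 4) (𝓡 4) ∞ Rad2_HB x := by
  by_cases hx : x = 0
  · refine Rad2_ld_congr (Rad2_ld_id x) ?_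
    have h1 : {y : E4 | ‖y‖ < 3} ∈ 𝓝 x := by
      refine (isOpen_lt continuous_norm continuous_const).mem_nhds ?_
      show ‖x‖ < 3
      rw [hx, norm_zero]
      norm_num
    filter_upwards [h1] with y hy
    exact Rad2_HB_id (le_of_lt hy)
  · exact Rad2_ld (U := Ioi 0) isOpen_Ioi (fun _ h => h) (fun _ h => Rad2_b_smooth h)
      (fun r h => (Rad2_b_der h).ne') (fun r hr => Rad2_b_pos hr) (Rad2_np hx)

theorem Rad2_HB_norm {x : E4} (hx : x ≠ 0) : ‖Rad2_HB x‖ = Rad2_b ‖x‖ :=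
  Rad2_norm hx (Rad2_b_pos (Rad2_np hx))

theorem Rad2_HB_zero : Rad2_HB 0 = 0 := Rad2_HB_id (by rw [norm_zero]; norm_num)

theorem Rad2_HB_inj : Function.Injective Rad2_HB := by
  intro x y he
  by_cases hx : x = 0
  · by_cases hy : y = 0
    · rw [hx, hy]
    · exfalso
      have h1 := Rad2_HB_norm hy
      have h2 := Rad2_b_pos (Rad2_np hy)
      rw [← he, hx, Rad2_HB_zero, norm_zero] at h1
      linarith
  · by_cases hy : y = 0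
    · exfalso
      have h1 := Rad2_HB_norm hx
      have h2 := Rad2_b_pos (Rad2_np hx)
      rw [he, hy, Rad2_HB_zero, norm_zero] at h1
      linarith
    · exact Rad2_inj hx hy (Rad2_b_pos (Rad2_np hx)) (Rad2_b_pos (Rad2_np hy))
        (fun h => Rad2_b_mono.injOn (Rad2_np hx) (Rad2_np hy) h) he

theorem Rad2_HB_lt (x : E4) : ‖Rad2_HB x‖ < 4 := by
  by_cases hx : x = 0
  · rw [hx, Rad2_HB_zero, norm_zero]
    norm_num
  · rw [Rad2_HB_norm hx]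
    exact Rad2_b_lt (Rad2_np hx)

theorem Rad2_HB_surj {y : E4} (hy : ‖y‖ < 4) : ∃ x, Rad2_HB x = y := by
  by_cases h0 : y = 0
  · exact ⟨0, by rw [h0, Rad2_HB_zero]⟩
  · obtain ⟨r, hr, he⟩ := Rad2_b_surj (Rad2_np h0) hy
    obtain ⟨x, _, _, hx⟩ := Rad2_surj h0 hr he
    exact ⟨x, hx⟩

theorem Rad2_HA_lt {x : E4} (hx : x ≠ 0) (h : ‖x‖ < 4) : ‖Rad2_HA x‖ < 4 := by
  rw [Rad2_HA_norm hx]
  have h1 := Rad2_a_mono h
  rw [Rad2_a_id (show (39 / 10 : ℝ) ≤ 4 by norm_num)] at h1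
  exact h1

theorem Rad2_HA_gt {x : E4} (hx : x ≠ 0) : 3 < ‖Rad2_HA x‖ := by
  rw [Rad2_HA_norm hx]
  exact Rad2_a_gt (Rad2_np hx)

theorem Rad2_HA_surj {y : E4} (hy : 3 < ‖y‖) : ∃ x, x ≠ 0 ∧ Rad2_HA x = y := by
  obtain ⟨r, hr, he⟩ := Rad2_a_surj hy
  have h0 : y ≠ 0 := by
    rw [← norm_pos_iff]
    linarith
  obtain ⟨x, h1, _, hx⟩ := Rad2_surj h0 hr he
  exact ⟨x, h1, hx⟩

theorem Rad2_HA_id {x : E4} (h : 39 / 10 ≤ ‖x‖) : Rad2_HA x = x := Rad2_F_id (Rad2_a_id h)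

theorem Rad2_HBi_HB (x : E4) : Rad2_HBi (Rad2_HB x) = x := Function.leftInverse_invFun Rad2_HB_inj x

theorem Rad2_HB_HBi {y : E4} (hy : ‖y‖ < 4) : Rad2_HB (Rad2_HBi y) = y := by
  obtain ⟨x, rfl⟩ := Rad2_HB_surj hy
  rw [Rad2_HBi_HB]

theorem Rad2_HBi_ld {y : E4} (hy : ‖y‖ < 4) : IsLocalDiffeomorphAt (𝓡 4) (𝓡 4) ∞ Rad2_HBi y := by
  obtain ⟨x, rfl⟩ := Rad2_HB_surj hy
  refine Rad2_ld_left (f := Rad2_HB) ?_ (Rad2_HB_ld x)
  have e : Rad2_HBi ∘ Rad2_HB = id := by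
    funext z
    exact Rad2_HBi_HB z
  rw [e]
  exact Rad2_ld_id x

theorem Rad2_R_fact {v : E4} (h0 : 0 < ‖v‖) (h1 : ‖v‖ < 1) :
    v ≠ 0 ∧ ‖Rad2_R v‖ = 4 * (1 - ‖v‖) ∧ Rad2_R v ≠ 0 ∧ ‖Rad2_R v‖ < 4 := by
  have hv : v ≠ 0 := norm_pos_iff.1 h0
  have h2 : ‖Rad2_R v‖ = 4 * (1 - ‖v‖) := Rad2_norm (f := fun r => 4 * (1 - r)) hv (by
    show 0 < 4 * (1 - ‖v‖)
    linarith)
  refine ⟨hv, h2, ?_, ?_⟩
  · rw [← norm_pos_iff, h2]
    linarith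
  · rw [h2]
    linarith

theorem Rad2_R_ld {v : E4} (h0 : 0 < ‖v‖) (h1 : ‖v‖ < 1) : IsLocalDiffeomorphAt (𝓡 4) (𝓡 4) ∞ Rad2_R v := by
  have hd : ∀ r : ℝ, HasDerivAt (fun r : ℝ => 4 * (1 - r)) (-4) r := by
    intro r
    have := ((hasDerivAt_id r).const_sub 1).const_mul 4
    simpa using this
  refine Rad2_ld (U := Ioo 0 1) isOpen_Ioo (fun _ h => h.1) (fun r _ => ?_) (fun r _ => ?_) (fun r hr => ?_) ⟨h0, h1⟩
  · exact (contDiff_const.mul (contDiff_const.sub contDiff_id)).contDiffAt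
  · rw [(hd r).deriv]
    norm_num
  · show 0 < 4 * (1 - r)
    linarith [hr.2]

theorem Rad2_HB_kb {v : E4} (h0 : 0 < ‖v‖) (h1 : ‖v‖ < 1) : Rad2_HB (Rad2_kb v) = Rad2_HA (Rad2_R v) := by
  obtain ⟨_, _, h4, h5⟩ := Rad2_R_fact h0 h1
  exact Rad2_HB_HBi (Rad2_HA_lt h4 h5)

theorem Rad2_main : ∃ (HA HB kb : E4 → E4) (δ : ℝ), 0 < δ ∧ δ < 1 ∧
    (∀ x, x ≠ 0 → IsLocalDiffeomorphAt (𝓡 4) (𝓡 4) ∞ HA x) ∧ (∀ x y, x ≠ 0 → y ≠ 0 → HA x = HA y → x = y) ∧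
    (∀ x, x ≠ 0 → 3 < ‖HA x‖) ∧ (∀ y, 3 < ‖y‖ → ∃ x, x ≠ 0 ∧ HA x = y) ∧ (∀ x, 4 - δ ≤ ‖x‖ → HA x = x) ∧
    (∀ x, x ≠ 0 → ‖x‖ < 4 → ‖HA x‖ < 4) ∧
    (∀ x, IsLocalDiffeomorphAt (𝓡 4) (𝓡 4) ∞ HB x) ∧ Function.Injective HB ∧ (∀ x, ‖HB x‖ < 4) ∧
    (∀ y, ‖y‖ < 4 → ∃ x, HB x = y) ∧ (∀ x, ‖x‖ ≤ 3 → HB x = x) ∧
    (∀ v, 0 < ‖v‖ → ‖v‖ < 1 → IsLocalDiffeomorphAt (𝓡 4) (𝓡 4) ∞ kb v ∧ 3 < ‖kb v‖) ∧
    (∀ v w, 0 < ‖v‖ → ‖v‖ < 1 → 0 < ‖w‖ → ‖w‖ < 1 → kb v = kb w → v = w) ∧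
    (∀ y, 3 < ‖y‖ → ∃ v, 0 < ‖v‖ ∧ ‖v‖ < 1 ∧ kb v = y) ∧
    (∀ v, 0 < ‖v‖ → ‖v‖ < δ → kb v = (4 * ‖v‖ ^ 2)⁻¹ • v) ∧
    ∀ (r : ℝ) (e : E4), 0 < r → r < 1 → ‖e‖ = 1 → HA ((4 * r) • e) = HB (kb ((1 - r) • e)) := by
  refine ⟨Rad2_HA, Rad2_HB, Rad2_kb, 1 / 40, by norm_num, by norm_num, fun x hx => Rad2_HA_ld hx,
    fun x y hx hy he => Rad2_HA_inj hx hy he, fun x hx => Rad2_HA_gt hx, fun y hy => Rad2_HA_surj hy,
    fun x hx => Rad2_HA_id (by linarith), fun x hx h => Rad2_HA_lt hx h, Rad2_HB_ld, Rad2_HB_inj, Rad2_HB_lt,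
    fun y hy => Rad2_HB_surj hy, fun x hx => Rad2_HB_id hx, ?_, ?_, ?_, ?_, ?_⟩
  · intro v h0 h1
    obtain ⟨hv, h3, h4, h5⟩ := Rad2_R_fact h0 h1
    constructor
    · have e1 : IsLocalDiffeomorphAt (𝓡 4) (𝓡 4) ∞ (Rad2_HA ∘ Rad2_R) v :=
        IsLocalDiffeomorphAt.comp (hf := Rad2_R_ld h0 h1) (hg := Rad2_HA_ld h4) ..
      exact IsLocalDiffeomorphAt.comp (f := Rad2_HA ∘ Rad2_R) (g := Rad2_HBi) (hf := e1) (hg := Rad2_HBi_ld (Rad2_HA_lt h4 h5)) ..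
    · by_contra hcon
      push Not at hcon
      have e1 := Rad2_HB_kb h0 h1
      rw [Rad2_HB_id hcon] at e1
      have e2 := Rad2_HA_gt h4
      rw [← e1] at e2
      linarith
  · intro v w h0 h1 h0' h1' he
    obtain ⟨hv, h3, h4, h5⟩ := Rad2_R_fact h0 h1
    obtain ⟨hw, h3', h4', h5'⟩ := Rad2_R_fact h0' h1'
    have e1 : Rad2_HA (Rad2_R v) = Rad2_HA (Rad2_R w) := by
      rw [← Rad2_HB_kb h0 h1, ← Rad2_HB_kb h0' h1', he]
    have e2 := Rad2_HA_inj h4 h4' e1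
    refine Rad2_inj (f := fun r => 4 * (1 - r)) hv hw ?_ ?_ ?_ e2
    · show 0 < 4 * (1 - ‖v‖)
      linarith
    · show 0 < 4 * (1 - ‖w‖)
      linarith
    · intro h
      have h' : 4 * (1 - ‖v‖) = 4 * (1 - ‖w‖) := h
      linarith
  · intro y hy
    have hlt := Rad2_HB_lt y
    have h1 : 3 < ‖Rad2_HB y‖ := by
      by_contra hcon
      push Not at hcon
      have e1 := Rad2_HB_id hcon
      have e2 := Rad2_HB_inj e1
      rw [e2] at hcon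
      linarith
    obtain ⟨x, hx, he⟩ := Rad2_HA_surj h1
    have hx4 : ‖x‖ < 4 := by
      by_contra hcon
      push Not at hcon
      rw [Rad2_HA_id (by linarith)] at he
      rw [he] at hcon
      linarith
    have hxp := Rad2_np hx
    obtain ⟨v, hv, hvn, hvx⟩ := Rad2_surj (f := fun r => 4 * (1 - r)) hx (r := 1 - ‖x‖ / 4) (by linarith) (by
      show 4 * (1 - (1 - ‖x‖ / 4)) = ‖x‖
      ring)
    refine ⟨v, Rad2_np hv, by rw [hvn]; linarith, ?_⟩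
    have e3 : Rad2_R v = x := hvx
    unfold Rad2_kb
    rw [e3, he, Rad2_HBi_HB]
  · intro v h0 h1
    obtain ⟨hv, h3, h4, h5⟩ := Rad2_R_fact h0 (by linarith)
    have e1 : Rad2_HA (Rad2_R v) = Rad2_R v := Rad2_HA_id (by rw [h3]; linarith)
    have e2 : Rad2_HB ((4 * ‖v‖ ^ 2)⁻¹ • v) = Rad2_R v := by
      have e3 : ‖(4 * ‖v‖ ^ 2)⁻¹ • v‖ = (4 * ‖v‖)⁻¹ := by
        rw [norm_smul, norm_inv, Real.norm_of_nonneg (by positivity)]
        field_simp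
      have e4 : Rad2_b (4 * ‖v‖)⁻¹ = 4 * (1 - ‖v‖) := by
        rw [Rad2_b_out, inv_inv]
        · ring
        · rw [le_inv_comm₀ (by norm_num) (by positivity)]
          norm_num
          linarith
      unfold Rad2_HB Rad2_R Rad2_F
      rw [e3, e4, inv_inv, smul_smul]
      congr 1
      field_simp
    unfold Rad2_kb
    rw [e1, ← e2, Rad2_HBi_HB]
  · intro r e h0 h1 he
    have hn : ‖(1 - r) • e‖ = 1 - r := by
      rw [norm_smul, he, mul_one, Real.norm_of_nonneg (by linarith)]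
    rw [Rad2_HB_kb (by rw [hn]; linarith) (by rw [hn]; linarith)]
    congr 1
    unfold Rad2_R Rad2_F
    rw [hn, smul_smul]
    congr 1
    have : (1 - r) ≠ 0 := by linarith
    field_simp
    ring

universe u

/-- `HA` maps `ℝ⁴ - 0` diffeomorphically onto `{‖x‖ > 3}`, identity for `‖x‖ ≥ 4`; `HB` maps `ℝ⁴` onto `{‖x‖ < 4}`, identity for `‖x‖ ≤ 3`;
`kb` maps `0 < ‖v‖ < 1` onto `{‖x‖ > 3}`; they are radial. -/
theorem radial : ∃ (HA HB kb : E4 → E4) (δ : ℝ), 0 < δ ∧ δ < 1 ∧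
    (∀ x, x ≠ 0 → IsLocalDiffeomorphAt (𝓡 4) (𝓡 4) ∞ HA x) ∧ (∀ x y, x ≠ 0 → y ≠ 0 → HA x = HA y → x = y) ∧
    (∀ x, x ≠ 0 → 3 < ‖HA x‖) ∧ (∀ y, 3 < ‖y‖ → ∃ x, x ≠ 0 ∧ HA x = y) ∧ (∀ x, 4 - δ ≤ ‖x‖ → HA x = x) ∧
    (∀ x, x ≠ 0 → ‖x‖ < 4 → ‖HA x‖ < 4) ∧
    (∀ x, IsLocalDiffeomorphAt (𝓡 4) (𝓡 4) ∞ HB x) ∧ Function.Injective HB ∧ (∀ x, ‖HB x‖ < 4) ∧
    (∀ y, ‖y‖ < 4 → ∃ x, HB x = y) ∧ (∀ x, ‖x‖ ≤ 3 → HB x = x) ∧
    (∀ v, 0 < ‖v‖ → ‖v‖ < 1 → IsLocalDiffeomorphAt (𝓡 4) (𝓡 4) ∞ kb v ∧ 3 < ‖kb v‖) ∧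
    (∀ v w, 0 < ‖v‖ → ‖v‖ < 1 → 0 < ‖w‖ → ‖w‖ < 1 → kb v = kb w → v = w) ∧
    (∀ y, 3 < ‖y‖ → ∃ v, 0 < ‖v‖ ∧ ‖v‖ < 1 ∧ kb v = y) ∧
    (∀ v, 0 < ‖v‖ → ‖v‖ < δ → kb v = (4 * ‖v‖ ^ 2)⁻¹ • v) ∧
    ∀ (r : ℝ) (e : E4), 0 < r → r < 1 → ‖e‖ = 1 → HA ((4 * r) • e) = HB (kb ((1 - r) • e)) := by
  exact Rad2_main

end Pool.Agent.LKB
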