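import Pool.Agent.LKB.KEm
import Pool.Agent.LKB.BunX
import Pool.Agent.LKB.Rad2
import Pool.Agent.ACB.SrU

/-!
# LKB/CsX: the surgery along a small circle is a connected sum with a sphere bundle

PROOF.  Data: `⟨ε, hT, ⟨S⟩⟩` (we may take `ε ≤ 1/2`: `Surg.mono`, `Tubes.mono`), `SF : Surg (frm kS L) 1 F`.  `HA, HB, kb, δ` from `radial`, `np, τ` from `σ4_pole`.
`a v = b (4 v)`.  `bF v = SF.A (σ4 (kb v))` for `0 < ‖v‖ < 1`, `SF.A np` for `v = 0` (near `0`: `σ4 (kb v) = σ4 ((4‖v‖²)⁻¹ v) = τ (4 v)`, as `‖4 v‖⁻² (4 v) = (4 ‖v‖²)⁻¹ v`: smooth, local diffeomorphism; `np` is off the core of `kS`).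
`A p = S.A (b (HA x))` if `p = b x`, `S.A p` if `p ∉ range b` (for `p ≠ b 0`; equal to `S.A p` outside `b '' ball 0 (4 - δ)`).  The point `b (HA x)` has norm `> 3 > 2`, so it is off the core of `b ∘ kE`.
`B q = S.A (b (HB x))` if `q = SF.A (σ4 x)`, `σ4 x` off the core (then `x` is off the core of `kE`, and `HB x` too: if `‖x‖ ≤ 3` `HB x = x`, else `‖HB x‖ > 3` since `HB` is injective, identity on the ball of radius 3),
`B (SF.Q () (0, v)) = S.Q () (0, v)`.  Every point of `F` except `SF.A np` is of this form.  Near the sphere `B (SF.Q () (z, v)) = S.Q () (z, v)` for `‖z‖ < ε`: `SF.Q () (r ex l, v) = SF.A (kS (l, r L l v)) = SF.A (σ4 (kE (l, r L l v)))`, `‖kE ..‖ ≤ 2`.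
Glue: `A (a (r e)) = S.A (b (HA (4 r e))) = S.A (b (HB (kb ((1-r) e)))) = B (SF.A (σ4 (kb ((1-r) e)))) = B (bF ((1-r) e))`.
disj: `A p = B q`: `B q` is in `S.A (b '' {‖x‖ < 4})` or on the sphere; so `p = b x`, `3 < ‖HA x‖ < 4`, hence `0 < ‖x‖ < 4`, `r = ‖x‖/4`; then `HB x' = HA x = HB (kb ((1-r) e))`.  cover: `S.A p`: `p = b y`, `‖y‖ ≤ 3`: `B`; else `A`.

-/

open scoped ContDiff Manifold Topology unitInterval
open Set Filter

namespace Pool.Agent.LKB

open Pool.Agent.ACB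

universe u

variable {N : Type u} [TopologicalSpace N] [ChartedSpace E4 N]

/-- being a local diffeomorphism at a point is a local property -/
theorem CsX_congr {E H : Type*} [NormedAddCommGroup E] [NormedSpace ℝ E] [TopologicalSpace H]
    {J : ModelWithCorners ℝ E H} {M M' : Type*} [TopologicalSpace M] [ChartedSpace H M] [TopologicalSpace M']
    [ChartedSpace E4 M'] {f g : M → M'} {x : M} (hf : IsLocalDiffeomorphAt J (𝓡 4) ∞ f x)
    (h : g =ᶠ[𝓝 x] f) : IsLocalDiffeomorphAt J (𝓡 4) ∞ g x := by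
  obtain ⟨Φ, hx, he⟩ := hf
  obtain ⟨U, hU, hUo, hxU⟩ := mem_nhds_iff.mp h
  have hc : ContinuousOn Φ.toPartialEquiv.symm Φ.target := Φ.contMDiffOn_invFun.continuousOn
  refine ⟨⟨⟨Φ.toFun, Φ.invFun, Φ.source ∩ U, Φ.target ∩ Φ.toPartialEquiv.symm ⁻¹' U, ?_, ?_, ?_, ?_⟩,
    Φ.open_source.inter hUo, hc.isOpen_inter_preimage Φ.open_target hUo,
    Φ.contMDiffOn_toFun.mono inter_subset_left, Φ.contMDiffOn_invFun.mono inter_subset_left⟩, ⟨hx, hxU⟩, ?_⟩
  · rintro y ⟨hy, hyU⟩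
    refine ⟨Φ.map_source hy, ?_⟩
    show Φ.toPartialEquiv.symm (Φ.toPartialEquiv y) ∈ U
    rw [Φ.left_inv hy]
    exact hyU
  · rintro y ⟨hy, hyU⟩
    exact ⟨Φ.map_target hy, hyU⟩
  · rintro y ⟨hy, hyU⟩
    exact Φ.left_inv hy
  · rintro y ⟨hy, hyU⟩
    exact Φ.right_inv hy
  · rintro y ⟨hy, hyU⟩
    show g y = Φ.toPartialEquiv y
    have h1 : g y = f y := hU hyU
    rw [h1]
    exact he hy

/-- descent along a local diffeomorphism -/
theorem CsX_desc {E H : Type*} [NormedAddCommGroup E] [NormedSpace ℝ E] [TopologicalSpace H]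
    {J : ModelWithCorners ℝ E H} {M M' M'' : Type*} [TopologicalSpace M] [ChartedSpace H M] [TopologicalSpace M']
    [ChartedSpace E4 M'] [TopologicalSpace M''] [ChartedSpace E4 M''] {f : M → M'} {C : Set M} (hC : IsOpen C)
    {x : M} (hx : x ∈ C) (hf : IsLocalDiffeomorphAt J (𝓡 4) ∞ f x) {B : M' → M''} {G : M → M''}
    (hB : ∀ x' ∈ C, B (f x') = G x') (hG : IsLocalDiffeomorphAt J (𝓡 4) ∞ G x) :
    IsLocalDiffeomorphAt (𝓡 4) (𝓡 4) ∞ B (f x) := by
  obtain ⟨Φ, hxΦ, he⟩ := hf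
  have h0 : f x = Φ.toPartialEquiv x := he hxΦ
  have h2 : IsLocalDiffeomorphAt (𝓡 4) J ∞ Φ.symm (f x) := by
    refine ⟨Φ.symm, ?_, fun y _ => rfl⟩
    show f x ∈ Φ.target
    rw [h0]
    exact Φ.map_source hxΦ
  have h5 : Φ.symm (f x) = x := by
    rw [h0]
    exact Φ.left_inv hxΦ
  have h6 : IsLocalDiffeomorphAt (𝓡 4) (𝓡 4) ∞ (G ∘ Φ.symm) (f x) := by
    refine h2.comp (𝓡 4) M'' ?_
    rw [h5]
    exact hG
  refine CsX_congr h6 ?_
  have h1 : IsOpen (Φ.toOpenPartialHomeomorph '' (Φ.toOpenPartialHomeomorph.source ∩ C)) :=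
    Φ.toOpenPartialHomeomorph.isOpen_image_source_inter hC
  refine mem_of_superset (h1.mem_nhds ⟨x, ⟨hxΦ, hx⟩, h0.symm⟩) ?_
  rintro _ ⟨y, ⟨hy, hyC⟩, rfl⟩
  show B (Φ.toPartialEquiv y) = G (Φ.toPartialEquiv.symm (Φ.toPartialEquiv y))
  have h3 : Φ.toPartialEquiv.symm (Φ.toPartialEquiv y) = y := Φ.left_inv hy
  have h4 : Φ.toPartialEquiv y = f y := (he hy).symm
  rw [h3, h4, hB y hyC]

/-- multiplication by `4` -/
theorem CsX_four (v : E4) : IsLocalDiffeomorphAt (𝓡 4) (𝓡 4) ∞ (fun v : E4 => (4 : ℝ) • v) v := by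
  let e : E4 ≃L[ℝ] E4 := ContinuousLinearEquiv.smulLeft (Units.mk0 (4 : ℝ) (by norm_num))
  exact (e.toDiffeomorph).isLocalDiffeomorph v

theorem CsX_norm_smul {r : ℝ} (hr : 0 ≤ r) (v : S2) : ‖r • v.1‖ = r := by
  have h : ‖v.1‖ = 1 := by simp
  rw [norm_smul, h, mul_one, Real.norm_eq_abs, abs_of_nonneg hr]

theorem csm_small [T2Space N] [IsManifold (𝓡 4) ∞ N] {b : E4 → N} {b' : N → E4} (hb : IsBall b b')
    {L : ℝ → E3 →L[ℝ] E3} (hL : OLoop L) {X : Type*} [TopologicalSpace X] [ChartedSpace E4 X]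
    (h : IsSurg (fun _ : Unit => frm (fun x => b (kE x)) L) X) {F : Type*} [TopologicalSpace F] [ChartedSpace E4 F]
    (SF : Surg (fun _ : Unit => frm kS L) 1 F) : Nonempty (CSm N F X) := by
  classical
  obtain ⟨ε, hT, ⟨S⟩⟩ := h
  obtain ⟨HA, HB, kb, δ, hδ0, hδ1, hA1, hA2, hA3, hA4, hA5, hA6, hB1, hB2, hB3, hB4, hB5, hk1, hk2, hk3, hk4, hk5⟩ :=
    radial
  obtain ⟨np, τ, hn1, hn2, hn3, hn4, hn5, hn6⟩ := σ4_pole
  have hεp : 0 < ε := (hT.thick ()).pos
  let κ : Unit → ℝ × E3 → N := fun _ => frm (fun x => b (kE x)) L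
  let κS : Unit → ℝ × E3 → S4 := fun _ => frm kS L
  let OE : Set E4 := {x | ∀ l, x ≠ kE (l, 0)}
  have hOE : IsOpen OE := by
    have h1 : OE = (range (core kE))ᶜ := by
      ext p
      constructor
      · rintro hp ⟨l, hl⟩
        exact hp l hl.symm
      · intro hp l he
        exact hp ⟨l, he.symm⟩
    rw [h1]
    exact (core_compact kE_thick).isClosed.isOpen_compl
  have hk0 : ∀ l, ‖kE (l, 0)‖ ≤ 2 := fun l => kE_bdd (by show ‖(0 : E3)‖ ≤ 1 / 2; rw [norm_zero]; norm_num)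
  have hOEn : ∀ x : E4, 2 < ‖x‖ → x ∈ OE := by
    intro x hx l he
    have := hk0 l
    rw [← he] at this
    linarith
  have hκ : ∀ l, κ () (l, 0) = b (kE (l, 0)) := by
    intro l
    show b (kE (l, L l 0)) = b (kE (l, 0))
    rw [map_zero]
  have hκS : ∀ l, κS () (l, 0) = σ4 (kE (l, 0)) := by
    intro l
    show kS (l, L l 0) = σ4 (kE (l, 0))
    rw [map_zero, σ4_kE (x := (l, (0 : E3))) (by show ‖(0 : E3)‖ < 1; rw [norm_zero]; norm_num)]
  have hoff : ∀ y, y ∈ OE → Off κ (b y) := by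
    intro y hy _ l he
    have h1 : b y = b (kE (l, 0)) := by rw [he]; exact hκ l
    exact hy l (hb.inj h1)
  have hoff' : ∀ y, Off κ (b y) → y ∈ OE := by
    intro y hy l he
    refine hy () l ?_
    rw [he]
    exact (hκ l).symm
  have hoffr : ∀ p, p ∉ range b → Off κ p := by
    intro p hp _ l he
    exact hp ⟨kE (l, 0), by rw [he]; exact (hκ l).symm⟩
  have hoffS : ∀ x, x ∈ OE → Off κS (σ4 x) := by
    intro x hx _ l he
    have h1 : σ4 x = σ4 (kE (l, 0)) := by rw [he]; exact hκS l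
    exact hx l (σ4_inj h1)
  have hoffS' : ∀ x, Off κS (σ4 x) → x ∈ OE := by
    intro x hx l he
    refine hx () l ?_
    rw [he]
    exact (hκS l).symm
  have hoffn : Off κS np := by
    intro _ l he
    refine hn1 (kE (l, 0)) ?_
    rw [he]
    exact (hκS l).symm
  have hHA : ∀ x, x ≠ 0 → HA x ∈ OE := fun x hx => hOEn _ (by have := hA3 x hx; linarith)
  have hHB : ∀ x, x ∈ OE → HB x ∈ OE := by
    intro x hx l he
    have h1 : HB (kE (l, 0)) = kE (l, 0) := hB5 _ (by have := hk0 l; linarith)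
    rw [← h1] at he
    exact hx l (hB2 he)
  -- the maps
  let f : E4 → F := fun x => SF.A (σ4 x)
  have hf : ∀ x ∈ OE, IsLocalDiffeomorphAt (𝓡 4) (𝓡 4) ∞ f x := fun x hx =>
    (σ4_loc x).comp (𝓡 4) F (SF.A_loc _ (hoffS x hx))
  have hfi : ∀ x ∈ OE, ∀ x' ∈ OE, f x = f x' → x = x' := fun x hx x' hx' he =>
    σ4_inj (SF.A_inj _ _ (hoffS x hx) (hoffS x' hx') he)
  have hfn : ∀ x ∈ OE, f x ≠ SF.A np := fun x hx he => hn1 x (SF.A_inj _ _ (hoffS x hx) hoffn he)
  let G : E4 → X := fun x => S.A (b (HB x))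
  have hG : ∀ x ∈ OE, IsLocalDiffeomorphAt (𝓡 4) (𝓡 4) ∞ G x := fun x hx =>
    ((hB1 x).comp (𝓡 4) N (hb.loc _)).comp (𝓡 4) X (S.A_loc _ (hoff _ (hHB x hx)))
  let a : E4 → N := fun v => b ((4 : ℝ) • v)
  let bF : E4 → F := fun v => if v = 0 then SF.A np else SF.A (σ4 (kb v))
  have hbF0 : bF 0 = SF.A np := if_pos rfl
  have hbF : ∀ v, v ≠ 0 → bF v = f (kb v) := fun v hv => if_neg hv
  have ha0 : a 0 = b 0 := by
    show b ((4 : ℝ) • (0 : E4)) = b 0
    rw [smul_zero]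
  let A : N → X := fun p => if p ∈ range b then S.A (b (HA (b' p))) else S.A p
  have hAb : ∀ x, A (b x) = S.A (b (HA x)) := by
    intro x
    show (if b x ∈ range b then S.A (b (HA (b' (b x)))) else S.A (b x)) = _
    rw [if_pos ⟨x, rfl⟩, hb.left_inv]
  have hAn : ∀ p, p ∉ range b → A p = S.A p := fun p hp => if_neg hp
  let B : F → X := fun q =>
    if h : ∃ x, x ∈ OE ∧ q = f x then G h.choose
    else if h' : ∃ v : S2, q = SF.Q () (0, v) then S.Q () (0, h'.choose) else S.A (b 0)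
  have hBf : ∀ x ∈ OE, B (f x) = G x := by
    intro x hx
    have hex : ∃ x', x' ∈ OE ∧ f x = f x' := ⟨x, hx, rfl⟩
    have h1 : B (f x) = G hex.choose := dif_pos hex
    obtain ⟨h2, h3⟩ := hex.choose_spec
    rw [h1, ← hfi x hx _ h2 h3]
  have hBQ : ∀ v : S2, B (SF.Q () (0, v)) = S.Q () (0, v) := by
    intro v
    have hn : ¬ ∃ x, x ∈ OE ∧ SF.Q () (0, v) = f x := by
      rintro ⟨x, hx, he⟩
      exact SF.disj () v _ (hoffS x hx) he
    have hex : ∃ v' : S2, SF.Q () (0, v) = SF.Q () (0, v') := ⟨v, rfl⟩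
    have h1 : B (SF.Q () (0, v)) = S.Q () (0, hex.choose) := by
      show (if h : ∃ x, x ∈ OE ∧ SF.Q () (0, v) = f x then G h.choose
        else if h' : ∃ v' : S2, SF.Q () (0, v) = SF.Q () (0, v') then S.Q () (0, h'.choose) else S.A (b 0)) = _
      rw [dif_neg hn, dif_pos hex]
    have h2 := hex.choose_spec
    rw [h1, ← (SF.Q_inj () () _ _ h2).2]
  have hBQ' : ∀ (z : ℂ) (v : S2), ‖z‖ < min ε (1 / 2) → B (SF.Q () (z, v)) = S.Q () (z, v) := by
    intro z v hz
    by_cases hz0 : z = 0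
    · rw [hz0]
      exact hBQ v
    · obtain ⟨l, hl⟩ := ex_polar z
      have h0 : 0 < ‖z‖ := norm_pos_iff.mpr hz0
      have h1 : ‖z‖ < ε := lt_of_lt_of_le hz (min_le_left _ _)
      have h2 : ‖z‖ < 1 / 2 := lt_of_lt_of_le hz (min_le_right _ _)
      obtain ⟨w, hw⟩ : ∃ w : E3, w = L l (‖z‖ • v.1) := ⟨_, rfl⟩
      have hwn : ‖w‖ = ‖z‖ := by
        rw [hw, hL.isom, CsX_norm_smul h0.le]
      have h3 : SF.Q () (z, v) = f (kE (l, w)) := by
        conv_lhs => rw [hl]
        rw [SF.glue () l ‖z‖ v h0 (by linarith)]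
        show SF.A (kS (l, L l (‖z‖ • v.1))) = SF.A (σ4 (kE (l, w)))
        rw [σ4_kE (x := (l, w)) (by show ‖w‖ < 1; rw [hwn]; linarith), hw]
      have h4 : S.Q () (z, v) = S.A (b (kE (l, w))) := by
        conv_lhs => rw [hl]
        rw [S.glue () l ‖z‖ v h0 h1, hw]
        rfl
      have h5 : kE (l, w) ∈ OE := by
        intro l' he
        have h6 := (kE_thick.inj l w l' 0 (by rw [hwn]; linarith) (by rw [norm_zero]; norm_num) he).1
        rw [h6, norm_zero] at hwn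
        linarith
      have h6 : HB (kE (l, w)) = kE (l, w) :=
        hB5 _ (by have := kE_bdd (x := (l, w)) (by show ‖w‖ ≤ 1 / 2; rw [hwn]; linarith); linarith)
      rw [h3, hBf _ h5, h4]
      show S.A (b (HB (kE (l, w)))) = _
      rw [h6]
  have hcase : ∀ q, q ≠ SF.A np → (∃ x, x ∈ OE ∧ q = f x) ∨ ∃ v : S2, q = SF.Q () (0, v) := by
    intro q hq
    rcases SF.cover q with ⟨s, hs, he⟩ | ⟨_, v, he⟩
    · left
      have hs' : s ≠ np := by
        rintro rfl
        exact hq he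
      obtain ⟨x, rfl⟩ := hn2 s hs'
      exact ⟨x, hoffS' x hs, he⟩
    · exact Or.inr ⟨v, he⟩
  refine ⟨
    { a := a
      b := bF
      A := A
      B := B
      a_loc := ?_
      b_loc := ?_
      a_inj := ?_
      b_inj := ?_
      A_loc := ?_
      B_loc := ?_
      A_inj := ?_
      B_inj := ?_
      glue := ?_
      disj := ?_
      cover := ?_ }⟩
  · intro v _
    exact (CsX_four v).comp (𝓡 4) N (hb.loc _)
  · intro v hv
    by_cases hv0 : v = 0
    · subst hv0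
      have h1 : IsLocalDiffeomorphAt (𝓡 4) (𝓡 4) ∞ (fun v : E4 => SF.A (τ ((4 : ℝ) • v))) 0 := by
        have h2 : IsLocalDiffeomorphAt (𝓡 4) (𝓡 4) ∞ (τ ∘ fun v : E4 => (4 : ℝ) • v) 0 :=
          (CsX_four 0).comp (𝓡 4) S4 (hn5 _)
        refine h2.comp (𝓡 4) F (SF.A_loc _ ?_)
        show Off κS (τ ((4 : ℝ) • (0 : E4)))
        rw [smul_zero, hn3]
        exact hoffn
      refine CsX_congr h1 ?_
      filter_upwards [Metric.ball_mem_nhds (0 : E4) hδ0] with v hv
      have hv' : ‖v‖ < δ := by simpa using hv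
      by_cases hv0 : v = 0
      · subst hv0
        rw [hbF0, smul_zero, hn3]
      · rw [hbF v hv0, hn4 _ (smul_ne_zero (by norm_num) hv0)]
        show SF.A (σ4 (kb v)) = _
        rw [hk4 v (norm_pos_iff.mpr hv0) hv', norm_smul, smul_smul]
        congr 3
        have h5 : ‖v‖ ≠ 0 := norm_ne_zero_iff.mpr hv0
        rw [Real.norm_eq_abs, abs_of_pos (by norm_num : (0 : ℝ) < 4)]
        field_simp
    · obtain ⟨h1, h2⟩ := hk1 v (norm_pos_iff.mpr hv0) hv
      have h3 : IsLocalDiffeomorphAt (𝓡 4) (𝓡 4) ∞ (f ∘ kb) v := h1.comp (𝓡 4) F (hf _ (hOEn _ (by linarith)))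
      refine CsX_congr h3 ?_
      filter_upwards [isOpen_ne.mem_nhds hv0] with v' hv'
      exact hbF v' hv'
  · intro v v' _ _ he
    exact smul_right_injective E4 (by norm_num : (4 : ℝ) ≠ 0) (hb.inj he)
  · intro v v' hv hv' he
    by_cases hv0 : v = 0
    · by_cases hv0' : v' = 0
      · rw [hv0, hv0']
      · rw [hv0, hbF0, hbF v' hv0'] at he
        exact absurd he.symm (hfn _ (hOEn _ (by have := (hk1 v' (norm_pos_iff.mpr hv0') hv').2; linarith)))
    · by_cases hv0' : v' = 0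
      · rw [hv0', hbF0, hbF v hv0] at he
        exact absurd he (hfn _ (hOEn _ (by have := (hk1 v (norm_pos_iff.mpr hv0) hv).2; linarith)))
      · rw [hbF v hv0, hbF v' hv0'] at he
        exact hk2 v v' (norm_pos_iff.mpr hv0) hv (norm_pos_iff.mpr hv0') hv'
          (hfi _ (hOEn _ (by have := (hk1 v (norm_pos_iff.mpr hv0) hv).2; linarith)) _
            (hOEn _ (by have := (hk1 v' (norm_pos_iff.mpr hv0') hv').2; linarith)) he)
  · intro p hp
    rw [ha0] at hp
    by_cases hpr : p ∈ range b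
    · obtain ⟨x, rfl⟩ := hpr
      have hx : x ≠ 0 := by
        rintro rfl
        exact hp rfl
      refine CsX_desc (f := b) (G := fun x => S.A (b (HA x))) isOpen_ne hx (hb.loc x) (fun x' _ => hAb x') ?_
      exact ((hA1 x hx).comp (𝓡 4) N (hb.loc _)).comp (𝓡 4) X (S.A_loc _ (hoff _ (hHA x hx)))
    · refine CsX_congr (S.A_loc p (hoffr p hpr)) ?_
      have hK : IsCompact (b '' Metric.closedBall 0 (4 - δ)) := (isCompact_closedBall _ _).image hb.cont
      have hpK : p ∉ b '' Metric.closedBall 0 (4 - δ) := by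
        rintro ⟨x, -, rfl⟩
        exact hpr ⟨x, rfl⟩
      filter_upwards [hK.isClosed.isOpen_compl.mem_nhds hpK] with q hq
      by_cases hqr : q ∈ range b
      · obtain ⟨x, rfl⟩ := hqr
        have hx : 4 - δ ≤ ‖x‖ := by
          by_contra hcon
          push Not at hcon
          exact hq ⟨x, by simpa using hcon.le, rfl⟩
        rw [hAb, hA5 x hx]
      · exact hAn q hqr
  · intro q hq
    rw [hbF0] at hq
    rcases hcase q hq with ⟨x, hx, rfl⟩ | ⟨v, rfl⟩
    · exact CsX_desc hOE hx (hf x hx) hBf (hG x hx)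
    · have hm : 0 < min ε (1 / 2) := lt_min hεp (by norm_num)
      refine CsX_desc (J := 𝓘(ℝ, ℂ).prod (𝓡 2)) (f := SF.Q ()) (G := S.Q ()) (C := {q : ℂ × S2 | ‖q.1‖ < min ε (1 / 2)})
        (isOpen_lt (continuous_norm.comp continuous_fst) continuous_const) ?_ ?_ ?_ ?_
      · show ‖(0 : ℂ)‖ < min ε (1 / 2)
        rw [norm_zero]
        exact hm
      · exact SF.Q_loc () 0 v (by rw [norm_zero]; norm_num)
      · rintro ⟨z, v'⟩ hz
        exact hBQ' z v' hz
      · exact S.Q_loc () 0 v (by rw [norm_zero]; exact hεp)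
  · intro p p' hp hp' he
    rw [ha0] at hp hp'
    by_cases hpr : p ∈ range b
    · obtain ⟨x, rfl⟩ := hpr
      have hx : x ≠ 0 := by
        rintro rfl
        exact hp rfl
      by_cases hpr' : p' ∈ range b
      · obtain ⟨x', rfl⟩ := hpr'
        have hx' : x' ≠ 0 := by
          rintro rfl
          exact hp' rfl
        rw [hAb, hAb] at he
        have h1 := S.A_inj _ _ (hoff _ (hHA x hx)) (hoff _ (hHA x' hx')) he
        rw [hA2 x x' hx hx' (hb.inj h1)]
      · rw [hAb, hAn p' hpr'] at he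
        have h1 := S.A_inj _ _ (hoff _ (hHA x hx)) (hoffr p' hpr') he
        exact absurd ⟨_, h1⟩ hpr'
    · by_cases hpr' : p' ∈ range b
      · obtain ⟨x', rfl⟩ := hpr'
        have hx' : x' ≠ 0 := by
          rintro rfl
          exact hp' rfl
        rw [hAb, hAn p hpr] at he
        have h1 := S.A_inj _ _ (hoffr p hpr) (hoff _ (hHA x' hx')) he
        exact absurd ⟨_, h1.symm⟩ hpr
      · rw [hAn p hpr, hAn p' hpr'] at he
        exact S.A_inj _ _ (hoffr p hpr) (hoffr p' hpr') he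
  · intro q q' hq hq' he
    rw [hbF0] at hq hq'
    rcases hcase q hq with ⟨x, hx, rfl⟩ | ⟨v, rfl⟩
    · rcases hcase q' hq' with ⟨x', hx', rfl⟩ | ⟨v', rfl⟩
      · rw [hBf x hx, hBf x' hx'] at he
        have h1 := S.A_inj _ _ (hoff _ (hHB x hx)) (hoff _ (hHB x' hx')) he
        rw [hB2 (hb.inj h1)]
      · rw [hBf x hx, hBQ v'] at he
        exact absurd he.symm (S.disj () v' _ (hoff _ (hHB x hx)))
    · rcases hcase q' hq' with ⟨x', hx', rfl⟩ | ⟨v', rfl⟩
      · rw [hBf x' hx', hBQ v] at he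
        exact absurd he (S.disj () v _ (hoff _ (hHB x' hx')))
      · rw [hBQ v, hBQ v'] at he
        rw [(S.Q_inj () () _ _ he).2]
  · intro r v h0 h1 hv
    have h2 : (4 : ℝ) • r • v = (4 * r) • v := smul_smul _ _ _
    have h3 : ‖(1 - r) • v‖ = 1 - r := by
      rw [norm_smul, hv, mul_one, Real.norm_eq_abs, abs_of_pos (by linarith)]
    have h4 : (1 - r) • v ≠ 0 := by
      rw [← norm_pos_iff, h3]
      linarith
    have h5 := (hk1 ((1 - r) • v) (by rw [h3]; linarith) (by rw [h3]; linarith)).2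
    show A (b ((4 : ℝ) • r • v)) = B (bF ((1 - r) • v))
    rw [hAb, h2, hbF _ h4, hBf _ (hOEn _ (by linarith)), hk5 r v h0 h1 hv]
  · intro p q hp hq he
    rw [ha0] at hp
    rw [hbF0] at hq
    rcases hcase q hq with ⟨x', hx', rfl⟩ | ⟨v, rfl⟩
    · by_cases hpr : p ∈ range b
      · obtain ⟨x, rfl⟩ := hpr
        have hx : x ≠ 0 := by
          rintro rfl
          exact hp rfl
        rw [hAb, hBf x' hx'] at he
        have h1 := hb.inj (S.A_inj _ _ (hoff _ (hHA x hx)) (hoff _ (hHB x' hx')) he)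
        have h2 : ‖x‖ < 4 := by
          by_contra hcon
          push Not at hcon
          have h3 := hA5 x (by linarith)
          have h4 := hB3 x'
          rw [← h1, h3] at h4
          linarith
        have h3 : 0 < ‖x‖ := norm_pos_iff.mpr hx
        obtain ⟨r, hr⟩ : ∃ r : ℝ, r = ‖x‖ / 4 := ⟨_, rfl⟩
        obtain ⟨e, hee⟩ : ∃ e : E4, e = ‖x‖⁻¹ • x := ⟨_, rfl⟩
        have hr0 : 0 < r := by rw [hr]; linarith
        have hr1 : r < 1 := by rw [hr]; linarith
        have he1 : ‖e‖ = 1 := by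
          rw [hee, norm_smul, norm_inv, norm_norm, inv_mul_cancel₀ h3.ne']
        have hxe : (4 * r) • e = x := by
          rw [hr, hee, smul_smul]
          have : 4 * (‖x‖ / 4) * ‖x‖⁻¹ = 1 := by field_simp
          rw [this, one_smul]
        have h5 := hk5 r e hr0 hr1 he1
        rw [hxe, h1] at h5
        have h6 := hB2 h5
        have h7 : ‖(1 - r) • e‖ = 1 - r := by
          rw [norm_smul, he1, mul_one, Real.norm_eq_abs, abs_of_pos (by linarith)]
        have h8 : (1 - r) • e ≠ 0 := by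
          rw [← norm_pos_iff, h7]
          linarith
        refine ⟨r, e, hr0, hr1, he1, ?_, ?_⟩
        · show b x = b ((4 : ℝ) • r • e)
          rw [smul_smul, hxe]
        · rw [hbF _ h8, ← h6]
      · rw [hAn p hpr, hBf x' hx'] at he
        have h1 := S.A_inj _ _ (hoffr p hpr) (hoff _ (hHB x' hx')) he
        exact absurd ⟨_, h1.symm⟩ hpr
    · exfalso
      rw [hBQ v] at he
      by_cases hpr : p ∈ range b
      · obtain ⟨x, rfl⟩ := hpr
        have hx : x ≠ 0 := by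
          rintro rfl
          exact hp rfl
        rw [hAb] at he
        exact S.disj () v _ (hoff _ (hHA x hx)) he.symm
      · rw [hAn p hpr] at he
        exact S.disj () v _ (hoffr p hpr) he.symm
  · intro x
    rw [ha0, hbF0]
    rcases S.cover x with ⟨p, hp, rfl⟩ | ⟨_, v, rfl⟩
    · by_cases hpr : p ∈ range b
      · obtain ⟨y, rfl⟩ := hpr
        by_cases hy : 3 < ‖y‖
        · obtain ⟨x0, hx0, rfl⟩ := hA4 y hy
          left
          exact ⟨b x0, fun he => hx0 (hb.inj he), (hAb x0).symm⟩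
        · push Not at hy
          right
          refine ⟨f y, hfn y (hoff' y hp), ?_⟩
          rw [hBf y (hoff' y hp)]
          show S.A (b y) = S.A (b (HB y))
          rw [hB5 y hy]
      · left
        refine ⟨p, fun he => hpr ⟨0, he.symm⟩, (hAn p hpr).symm⟩
    · right
      exact ⟨SF.Q () (0, v), SF.disj () v _ hoffn, (hBQ v).symm⟩

end Pool.Agent.LKB
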