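import Pool.Agent.ACB.Defs
import Pool.Agent.ACB.Bal
import Pool.Agent.ACB.Srg

/-!
# LKB/Defs: surgeries of the 4-sphere and connected sums of sphere bundles (helper44)

* `Mf`: Hausdorff smooth 4-manifolds (bundled).
* `Std r M`: `M` is obtained from `S⁴` by `r` successive surgeries on circles.
* `BunD L F`: `F` is the `S²`-bundle over `S² = ℂ ∪ ℂ` (glued by `z ↦ 1 / conj z`) with the clutching function `L : ℝ/ℤ → O(3)`.
* `CSm M N X`: `X` is a connected sum of `M` and `N`.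
* `BSum r M`: `M` is an iterated connected sum of `r` sphere bundles over the sphere.
* `Nul M`: every closed curve of `M` is null-homotopic.
-/

open scoped ContDiff Manifold Topology unitInterval
open Set Filter

namespace Pool.Agent.LKB

open Pool.Agent.ACB

/-- Hausdorff smooth 4-manifolds -/
structure Mf where
  X : Type
  [top : TopologicalSpace X]
  [cs : ChartedSpace E4 X]
  [t2 : T2Space X]
  [mf : IsManifold (𝓡 4) ∞ X]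

attribute [instance] Mf.top Mf.cs Mf.t2 Mf.mf

/-- `M` is obtained from `S⁴` by `r` successive surgeries on circles -/
def Std : ℕ → Mf → Prop
  | 0, M => Nonempty (M.X ≃ₘ⟮𝓡 4, 𝓡 4⟯ S4)
  | r + 1, M => ∃ N : Mf, Std r N ∧ ∃ γ : ℝ × E3 → N.X, IsSurg (fun _ : Unit => γ) M.X

/-- smooth loops of isometries of `ℝ³` -/
structure OLoop (L : ℝ → E3 →L[ℝ] E3) : Prop where
  smooth : ContDiff ℝ ∞ L
  per : ∀ l, L (l + 1) = L l
  isom : ∀ l v, ‖L l v‖ = ‖v‖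

/-- `F` is the `S²`-bundle over `S²` with the clutching function `L`: two charts `ℂ × S² → F` (both defined everywhere), glued over
`ℂ - 0` by `g (r⁻¹ e, v) = f (r e, L v)`. -/
structure BunD (L : ℝ → E3 →L[ℝ] E3) (F : Type*) [TopologicalSpace F] [ChartedSpace E4 F] where
  f : ℂ × S2 → F
  g : ℂ × S2 → F
  f_loc : ∀ q, IsLocalDiffeomorphAt (𝓘(ℝ, ℂ).prod (𝓡 2)) (𝓡 4) ∞ f q
  g_loc : ∀ q, IsLocalDiffeomorphAt (𝓘(ℝ, ℂ).prod (𝓡 2)) (𝓡 4) ∞ g q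
  f_inj : Function.Injective f
  g_inj : Function.Injective g
  glue : ∀ (l r : ℝ) (v w : S2), 0 < r → w.1 = L l v.1 → g ((r⁻¹ : ℝ) * ex l, v) = f (r * ex l, w)
  disj : ∀ q v, f q ≠ g (0, v)
  cover : ∀ x, (∃ q, x = f q) ∨ ∃ v, x = g (0, v)

section
variable {M N : Type*} [TopologicalSpace M] [ChartedSpace E4 M] [TopologicalSpace N] [ChartedSpace E4 N]

/-- `X` is the connected sum of `M` and `N` at the balls `a`, `b` (of radius `1`): the annuli `0 < ‖v‖ < 1` are glued by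
`r v ↔ (1 - r) v`, `‖v‖ = 1`. -/
structure CSm (M N : Type*) [TopologicalSpace M] [ChartedSpace E4 M] [TopologicalSpace N] [ChartedSpace E4 N] (X : Type*)
    [TopologicalSpace X] [ChartedSpace E4 X] where
  a : E4 → M
  b : E4 → N
  a_loc : ∀ v, ‖v‖ < 1 → IsLocalDiffeomorphAt (𝓡 4) (𝓡 4) ∞ a v
  b_loc : ∀ v, ‖v‖ < 1 → IsLocalDiffeomorphAt (𝓡 4) (𝓡 4) ∞ b v
  a_inj : ∀ v v', ‖v‖ < 1 → ‖v'‖ < 1 → a v = a v' → v = v'
  b_inj : ∀ v v', ‖v‖ < 1 → ‖v'‖ < 1 → b v = b v' → v = v'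
  A : M → X
  B : N → X
  A_loc : ∀ p, p ≠ a 0 → IsLocalDiffeomorphAt (𝓡 4) (𝓡 4) ∞ A p
  B_loc : ∀ p, p ≠ b 0 → IsLocalDiffeomorphAt (𝓡 4) (𝓡 4) ∞ B p
  A_inj : ∀ p p', p ≠ a 0 → p' ≠ a 0 → A p = A p' → p = p'
  B_inj : ∀ p p', p ≠ b 0 → p' ≠ b 0 → B p = B p' → p = p'
  glue : ∀ (r : ℝ) (v : E4), 0 < r → r < 1 → ‖v‖ = 1 → A (a (r • v)) = B (b ((1 - r) • v))
  disj : ∀ p q, p ≠ a 0 → q ≠ b 0 → A p = B q → ∃ (r : ℝ) (v : E4), 0 < r ∧ r < 1 ∧ ‖v‖ = 1 ∧ p = a (r • v) ∧ q = b ((1 - r) • v)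
  cover : ∀ x, (∃ p, p ≠ a 0 ∧ x = A p) ∨ ∃ q, q ≠ b 0 ∧ x = B q

end

/-- `M` is an iterated connected sum of `r` sphere bundles over the sphere (`S⁴` for `r = 0`) -/
def BSum : ℕ → Mf → Prop
  | 0, M => Nonempty (M.X ≃ₘ⟮𝓡 4, 𝓡 4⟯ S4)
  | r + 1, M => ∃ N F : Mf, BSum r N ∧ (∃ L, OLoop L ∧ Nonempty (BunD L F.X)) ∧ Nonempty (CSm N.X F.X M.X)

/-- every closed curve is null-homotopic -/
def Nul (X : Type*) [TopologicalSpace X] [ChartedSpace E4 X] : Prop :=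
  ∀ c : ℝ → X, Continuous c → (∀ t, c (t + 1) = c t) → ∃ p : X, FHom univ c fun _ => p

/-- inverse of the stereographic projection of `S⁴` from `(0, 0, 0, 0, 1)` -/
noncomputable def σ4 (x : E4) : S4 :=
  ⟨!₂[2 * x 0 / (1 + ‖x‖ ^ 2), 2 * x 1 / (1 + ‖x‖ ^ 2), 2 * x 2 / (1 + ‖x‖ ^ 2), 2 * x 3 / (1 + ‖x‖ ^ 2),
    (‖x‖ ^ 2 - 1) / (1 + ‖x‖ ^ 2)], by
    rw [mem_sphere_zero_iff_norm, ← sq_eq_sq₀ (norm_nonneg _) zero_le_one, EuclideanSpace.norm_sq_eq]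
    have h : ‖x‖ ^ 2 = x 0 ^ 2 + x 1 ^ 2 + x 2 ^ 2 + x 3 ^ 2 := by
      rw [EuclideanSpace.norm_sq_eq]; simp [Fin.sum_univ_four]
    have hp : 1 + ‖x‖ ^ 2 ≠ 0 := by positivity
    simp only [Fin.sum_univ_five, Real.norm_eq_abs, sq_abs]
    simp
    field_simp
    rw [h]
    ring⟩

/-- the standard thick circle of `S⁴ ⊆ ℂ × ℝ³` (of radius `1`): `(√(1 - |v|²) ex l, v)` -/
noncomputable def kS (x : ℝ × E3) : S4 :=
  if h : ‖x.2‖ ≤ 1 then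
    ⟨!₂[√(1 - ‖x.2‖ ^ 2) * (ex x.1).re, √(1 - ‖x.2‖ ^ 2) * (ex x.1).im, x.2 0, x.2 1, x.2 2], by
      rw [mem_sphere_zero_iff_norm, ← sq_eq_sq₀ (norm_nonneg _) zero_le_one, EuclideanSpace.norm_sq_eq]
      have h3 : ‖x.2‖ ^ 2 = x.2 0 ^ 2 + x.2 1 ^ 2 + x.2 2 ^ 2 := by
        rw [EuclideanSpace.norm_sq_eq]; simp [Fin.sum_univ_three]
      have h4 : (ex x.1).re ^ 2 + (ex x.1).im ^ 2 = 1 := by
        have : ‖ex x.1‖ = 1 := by unfold ex; exact Complex.norm_exp_ofReal_mul_I _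
        rw [← Complex.normSq_add_mul_I, Complex.re_add_im, Complex.normSq_eq_norm_sq, this, one_pow]
      have h5 : 0 ≤ 1 - ‖x.2‖ ^ 2 := by nlinarith [norm_nonneg x.2]
      simp only [Fin.sum_univ_five, Real.norm_eq_abs, sq_abs]
      simp
      rw [mul_pow, mul_pow, Real.sq_sqrt h5]
      nlinarith⟩
  else σ4 0

/-- the same in `ℝ⁴`: `σ4 (kE x) = kS x` for `‖x.2‖ < 1` -/
noncomputable def kE (x : ℝ × E3) : E4 :=
  (1 - x.2 2)⁻¹ • !₂[√(1 - ‖x.2‖ ^ 2) * (ex x.1).re, √(1 - ‖x.2‖ ^ 2) * (ex x.1).im, x.2 0, x.2 1]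

/-- reframing of a thick circle -/
def frm {N : Type*} (κ : ℝ × E3 → N) (M : ℝ → E3 →L[ℝ] E3) (x : ℝ × E3) : N := κ (x.1, M x.1 x.2)

end Pool.Agent.LKB
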