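import Pool.Agent.LKB.Defs
import Pool.Agent.ACB.Tbe

/-!
# LKB/KEm: the standard thick circle

PROOF.  `σ4 x = (2 x, |x|² - 1) / (1 + |x|²)`: with `x = kE (l, v)`, `|x|² = (1 - v₂²) / (1 - v₂)² = (1 + v₂) / (1 - v₂)`, `1 + |x|² = 2 / (1 - v₂)`: `σ4 x = (√(1-|v|²) ex l, v₀, v₁, v₂)`.
`σ4` is a smooth injective local diffeomorphism onto `S⁴ - north pole` (stereographic projection; inverse `(y, h) ↦ y / (1 - h)`).  `kE` is smooth for `‖v‖ < 1`, a local diffeomorphism with inverse: `e = x₀ + i x₁ ≠ 0`, `l` = argument of `e`,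
`v = ((1 - v₂) x₂, (1 - v₂) x₃, (|x|² - 1) / (|x|² + 1))`, `1 - v₂ = 2 / (1 + |x|²)`.  `kE_bdd`: `‖v‖ ≤ 1/2`: `|x|² = (1 + v₂) / (1 - v₂) ≤ 3`.
`cS_off`: `x ∉ range (core kS)` iff `x = (z, w) / √(1 + |z|²)` (`plS`).

-/

open scoped ContDiff Manifold Topology unitInterval
open Set Filter

namespace Pool.Agent.LKB

open Pool.Agent.ACB

section
variable {E : Type*} [NormedAddCommGroup E] [InnerProductSpace ℝ E]

open scoped Classical in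
/-- radial projection to the sphere (`e` at the origin) -/
noncomputable def KEm_sph (e : Metric.sphere (0 : E) 1) (v : E) : Metric.sphere (0 : E) 1 :=
  if h : v = 0 then e else ⟨‖v‖⁻¹ • v, by
    rw [mem_sphere_zero_iff_norm, norm_smul, norm_inv, norm_norm, inv_mul_cancel₀ (norm_ne_zero_iff.2 h)]⟩

theorem KEm_sph_coe (e : Metric.sphere (0 : E) 1) {v : E} (hv : v ≠ 0) : (KEm_sph e v : E) = ‖v‖⁻¹ • v := by
  unfold KEm_sph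
  rw [dif_neg hv]

theorem KEm_sph_smooth {n : ℕ} [Fact (Module.finrank ℝ E = n + 1)] (e : Metric.sphere (0 : E) 1) {v : E}
    (hv : v ≠ 0) : ContMDiffAt 𝓘(ℝ, E) (𝓡 n) ∞ (KEm_sph e) v := by
  have hv' : 0 < ‖v‖ := norm_pos_iff.2 hv
  let f : ContDiffBump v := ⟨‖v‖ / 4, ‖v‖ / 2, by linarith, by linarith⟩
  set g : E → E := fun x => v + f x • (x - v) with hg
  have hgs : ContDiff ℝ ∞ g := contDiff_const.add (f.contDiff.smul (contDiff_id.sub contDiff_const))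
  have hg0 : ∀ x, g x ≠ 0 := by
    intro x hx
    have h1 : f x • (x - v) = -v := by
      have : v + f x • (x - v) = 0 := hx
      exact eq_neg_of_add_eq_zero_right this
    have h2 : |f x| * ‖x - v‖ = ‖v‖ := by
      rw [← Real.norm_eq_abs, ← norm_smul, h1, norm_neg]
    by_cases hd : dist x v < ‖v‖ / 2
    · have h3 : |f x| ≤ 1 := by
        rw [abs_of_nonneg f.nonneg]
        exact f.le_one
      rw [dist_eq_norm] at hd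
      have h4 : |f x| * ‖x - v‖ ≤ 1 * ‖x - v‖ := mul_le_mul_of_nonneg_right h3 (norm_nonneg _)
      linarith
    · have h3 : f x = 0 := f.zero_of_le_dist (not_lt.1 hd)
      rw [h3, abs_zero, zero_mul] at h2
      linarith
  have hF : ContDiff ℝ ∞ fun x => ‖g x‖⁻¹ • g x := by
    have h3 : ContDiff ℝ ∞ fun x => ‖g x‖ := hgs.norm ℝ hg0
    exact (h3.inv fun x => norm_ne_zero_iff.2 (hg0 x)).smul hgs
  have hm : ∀ x, (fun x => ‖g x‖⁻¹ • g x) x ∈ Metric.sphere (0 : E) 1 := by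
    intro x
    rw [mem_sphere_zero_iff_norm]
    change ‖‖g x‖⁻¹ • g x‖ = 1
    rw [norm_smul, norm_inv, norm_norm, inv_mul_cancel₀ (norm_ne_zero_iff.2 (hg0 x))]
  have h1 := ContMDiff.codRestrict_sphere (n := n) hF.contMDiff hm
  refine (h1 v).congr_of_eventuallyEq ?_
  have hball : Metric.ball v (‖v‖ / 4) ∈ 𝓝 v := Metric.ball_mem_nhds v (by linarith)
  filter_upwards [hball] with x hx
  have hfx : f x = 1 := f.one_of_mem_closedBall (Metric.ball_subset_closedBall hx)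
  have hgx : g x = x := by
    rw [hg]
    change v + f x • (x - v) = x
    rw [hfx, one_smul, add_sub_cancel]
  have hx0 : x ≠ 0 := by
    rw [← hgx]
    exact hg0 x
  apply Subtype.ext
  rw [KEm_sph_coe e hx0]
  change _ = ‖g x‖⁻¹ • g x
  rw [hgx]

end

theorem KEm_f5 : Fact (Module.finrank ℝ E5 = 4 + 1) := ⟨finrank_euclideanSpace_fin⟩

theorem KEm_f3 : Fact (Module.finrank ℝ E3 = 2 + 1) := ⟨finrank_euclideanSpace_fin⟩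

section

attribute [local instance] KEm_f5 KEm_f3

noncomputable def KEm_e5 : S4 := ⟨EuclideanSpace.single 0 1, by simp⟩

noncomputable def KEm_e3 : S2 := ⟨EuclideanSpace.single 0 1, by simp⟩

noncomputable def KEm_u (x : E5) : ℂ := ((x 0 : ℝ) : ℂ) + ((x 1 : ℝ) : ℂ) * Complex.I
noncomputable def KEm_w (x : E5) : E3 := !₂[x 2, x 3, x 4]
noncomputable def KEm_m (u : ℂ) (w : E3) : E5 := !₂[u.re, u.im, w 0, w 1, w 2]

theorem KEm_u_m (u : ℂ) (w : E3) : KEm_u (KEm_m u w) = u := by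
  apply Complex.ext
  · simp [KEm_u, KEm_m]
  · simp [KEm_u, KEm_m]

theorem KEm_w_m (u : ℂ) (w : E3) : KEm_w (KEm_m u w) = w := by
  ext i
  fin_cases i <;> rfl

theorem KEm_m_uw (x : E5) : KEm_m (KEm_u x) (KEm_w x) = x := by
  ext i
  fin_cases i
  · simp [KEm_u, KEm_m]
  · simp [KEm_u, KEm_m]
  · rfl
  · rfl
  · rfl

theorem KEm_norm (x : E5) : ‖x‖ ^ 2 = ‖KEm_u x‖ ^ 2 + ‖KEm_w x‖ ^ 2 := by
  rw [EuclideanSpace.norm_sq_eq, EuclideanSpace.norm_sq_eq, ← Complex.normSq_eq_norm_sq, Complex.normSq_apply,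
    Fin.sum_univ_five, Fin.sum_univ_three]
  simp only [Real.norm_eq_abs, sq_abs]
  simp only [KEm_u, KEm_w]
  simp
  ring

theorem KEm_norm_m (u : ℂ) (w : E3) : ‖KEm_m u w‖ ^ 2 = ‖u‖ ^ 2 + ‖w‖ ^ 2 := by
  rw [KEm_norm, KEm_u_m, KEm_w_m]

theorem KEm_w_smooth : ContDiff ℝ ∞ KEm_w := by
  refine contDiff_euclidean.2 fun i => ?_
  fin_cases i
  · exact (EuclideanSpace.proj (2 : Fin 5) : E5 →L[ℝ] ℝ).contDiff
  · exact (EuclideanSpace.proj (3 : Fin 5) : E5 →L[ℝ] ℝ).contDiff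
  · exact (EuclideanSpace.proj (4 : Fin 5) : E5 →L[ℝ] ℝ).contDiff

theorem KEm_u_smooth : ContDiff ℝ ∞ KEm_u := by
  have h0 : ContDiff ℝ ∞ fun x : E5 => x 0 := (EuclideanSpace.proj (0 : Fin 5) : E5 →L[ℝ] ℝ).contDiff
  have h1 : ContDiff ℝ ∞ fun x : E5 => x 1 := (EuclideanSpace.proj (1 : Fin 5) : E5 →L[ℝ] ℝ).contDiff
  exact (Complex.ofRealCLM.contDiff.comp h0).add ((Complex.ofRealCLM.contDiff.comp h1).mul contDiff_const)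

theorem KEm_m_smooth : ContDiff ℝ ∞ fun p : ℂ × E3 => KEm_m p.1 p.2 := by
  have k1 : ∀ i : Fin 3, ContDiff ℝ ∞ (fun p : ℂ × E3 => p.2 i) := fun i =>
    (EuclideanSpace.proj i : E3 →L[ℝ] ℝ).contDiff.comp contDiff_snd
  refine contDiff_euclidean.2 fun i => ?_
  fin_cases i
  · exact Complex.reCLM.contDiff.comp contDiff_fst
  · exact Complex.imCLM.contDiff.comp contDiff_fst
  · exact k1 0
  · exact k1 1
  · exact k1 2

/-- the point of the sphere -/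
noncomputable def KEm_pt (u : ℂ) (w : E3) : S4 := KEm_sph KEm_e5 (KEm_m u w)

theorem KEm_m_ne {u : ℂ} {w : E3} (h : ‖u‖ ^ 2 + ‖w‖ ^ 2 = 1) : KEm_m u w ≠ 0 := by
  intro h0
  have h1 := KEm_norm_m u w
  rw [h0, norm_zero, h] at h1
  norm_num at h1

theorem KEm_pt_coe {u : ℂ} {w : E3} (h : ‖u‖ ^ 2 + ‖w‖ ^ 2 = 1) : (KEm_pt u w).1 = KEm_m u w := by
  have h1 : ‖KEm_m u w‖ = 1 := by
    have h2 := KEm_norm_m u w
    rw [h] at h2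
    nlinarith [norm_nonneg (KEm_m u w)]
  unfold KEm_pt
  rw [KEm_sph_coe _ (KEm_m_ne h), h1, inv_one, one_smul]

theorem KEm_x (x : S4) : ‖KEm_u x.1‖ ^ 2 + ‖KEm_w x.1‖ ^ 2 = 1 := by
  rw [← KEm_norm, norm_eq_of_mem_sphere x]
  norm_num

theorem KEm_pt_uw (x : S4) : KEm_pt (KEm_u x.1) (KEm_w x.1) = x := by
  apply Subtype.ext
  rw [KEm_pt_coe (KEm_x x), KEm_m_uw]

theorem KEm_pt_smooth {V : Type*} [NormedAddCommGroup V] [NormedSpace ℝ V] {H : Type*} [TopologicalSpace H]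
    {J : ModelWithCorners ℝ V H} {M : Type*} [TopologicalSpace M] [ChartedSpace H M] {f : M → ℂ} {g : M → E3}
    {x : M} (hf : ContMDiffAt J 𝓘(ℝ, ℂ) ∞ f x) (hg : ContMDiffAt J 𝓘(ℝ, E3) ∞ g x)
    (h : ‖f x‖ ^ 2 + ‖g x‖ ^ 2 = 1) : ContMDiffAt J (𝓡 4) ∞ (fun x => KEm_pt (f x) (g x)) x := by
  have h1 : ContMDiffAt J 𝓘(ℝ, E5) ∞ (fun x => KEm_m (f x) (g x)) x :=
    ContMDiffAt.comp x (g := fun p : ℂ × E3 => KEm_m p.1 p.2) KEm_m_smooth.contMDiff.contMDiffAt (hf.prodMk_space hg)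
  exact ContMDiffAt.comp x (g := KEm_sph KEm_e5) (KEm_sph_smooth (n := 4) KEm_e5 (KEm_m_ne h)) h1

theorem KEm_u_sm : ContMDiff (𝓡 4) 𝓘(ℝ, ℂ) ∞ (fun x : S4 => KEm_u x.1) :=
  KEm_u_smooth.contMDiff.comp (contMDiff_coe_sphere (n := 4))

theorem KEm_w_sm : ContMDiff (𝓡 4) 𝓘(ℝ, E3) ∞ (fun x : S4 => KEm_w x.1) :=
  KEm_w_smooth.contMDiff.comp (contMDiff_coe_sphere (n := 4))

/-! ### the thick sphere -/

noncomputable def KEm_Q (p : ℂ × S2) : S4 := KEm_pt p.1 (√(1 - ‖p.1‖ ^ 2) • p.2.1)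

noncomputable def KEm_R (x : S4) : ℂ × S2 := (KEm_u x.1, KEm_sph KEm_e3 (KEm_w x.1))

theorem KEm_pos {z : ℂ} (hz : ‖z‖ < 1) : 0 < 1 - ‖z‖ ^ 2 := by
  nlinarith [norm_nonneg z]

theorem KEm_sq {z : ℂ} (hz : ‖z‖ < 1) (v : S2) : ‖z‖ ^ 2 + ‖√(1 - ‖z‖ ^ 2) • v.1‖ ^ 2 = 1 := by
  have hv : ‖(v : E3)‖ = 1 := norm_eq_of_mem_sphere v
  rw [norm_smul, hv, mul_one, Real.norm_eq_abs, sq_abs, Real.sq_sqrt (KEm_pos hz).le]
  ring

theorem KEm_Q_coe {z : ℂ} (hz : ‖z‖ < 1) (v : S2) : (KEm_Q (z, v)).1 = KEm_m z (√(1 - ‖z‖ ^ 2) • v.1) :=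
  KEm_pt_coe (KEm_sq hz v)

theorem KEm_R_Q {z : ℂ} (hz : ‖z‖ < 1) (v : S2) : KEm_R (KEm_Q (z, v)) = (z, v) := by
  have hs : 0 < √(1 - ‖z‖ ^ 2) := Real.sqrt_pos.2 (KEm_pos hz)
  have hv : ‖(v : E3)‖ = 1 := norm_eq_of_mem_sphere v
  have h0 : √(1 - ‖z‖ ^ 2) • v.1 ≠ 0 := by
    rw [← norm_ne_zero_iff, norm_smul, hv, mul_one, Real.norm_eq_abs, abs_of_pos hs]
    exact hs.ne'
  refine Prod.ext ?_ ?_
  · show KEm_u (KEm_Q (z, v)).1 = z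
    rw [KEm_Q_coe hz, KEm_u_m]
  · show KEm_sph KEm_e3 (KEm_w (KEm_Q (z, v)).1) = v
    rw [KEm_Q_coe hz, KEm_w_m]
    apply Subtype.ext
    rw [KEm_sph_coe _ h0, norm_smul, hv, mul_one, Real.norm_eq_abs, abs_of_pos hs, smul_smul,
      inv_mul_cancel₀ hs.ne', one_smul]

theorem KEm_w_ne {x : S4} (hx : ‖KEm_u x.1‖ < 1) : KEm_w x.1 ≠ 0 := by
  intro h0
  have h1 := KEm_x x
  rw [h0, norm_zero] at h1
  nlinarith [norm_nonneg (KEm_u x.1)]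

theorem KEm_Q_R {x : S4} (hx : ‖KEm_u x.1‖ < 1) : KEm_Q (KEm_R x) = x := by
  have h0 := KEm_w_ne hx
  have hn : ‖KEm_w x.1‖ ≠ 0 := norm_ne_zero_iff.2 h0
  have h1 : √(1 - ‖KEm_u x.1‖ ^ 2) = ‖KEm_w x.1‖ := by
    have := KEm_x x
    rw [show 1 - ‖KEm_u x.1‖ ^ 2 = ‖KEm_w x.1‖ ^ 2 by linarith, Real.sqrt_sq (norm_nonneg _)]
  have h2 : √(1 - ‖KEm_u x.1‖ ^ 2) • (KEm_sph KEm_e3 (KEm_w x.1)).1 = KEm_w x.1 := by
    rw [h1, KEm_sph_coe _ h0, smul_smul, mul_inv_cancel₀ hn, one_smul]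
  show KEm_pt (KEm_u x.1) (√(1 - ‖KEm_u x.1‖ ^ 2) • (KEm_sph KEm_e3 (KEm_w x.1)).1) = x
  rw [h2, KEm_pt_uw]

theorem KEm_Q_smooth {z : ℂ} (hz : ‖z‖ < 1) (v : S2) :
    ContMDiffAt (𝓘(ℝ, ℂ).prod (𝓡 2)) (𝓡 4) ∞ KEm_Q (z, v) := by
  have hG : ContMDiffAt (𝓘(ℝ, ℂ).prod (𝓡 2)) 𝓘(ℝ, ℂ × E3) ∞ (fun p : ℂ × S2 => (p.1, (p.2 : E3))) (z, v) :=
    contMDiff_fst.contMDiffAt.prodMk_space
      ((contMDiff_coe_sphere (n := 2)).comp contMDiff_snd).contMDiffAt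
  have k0 : ContDiffAt ℝ ∞ (fun p : ℂ × E3 => √(1 - ‖p.1‖ ^ 2) • p.2) (z, v.1) := by
    have k00 : ContDiffAt ℝ ∞ (fun p : ℂ × E3 => √(1 - ‖p.1‖ ^ 2)) (z, v.1) := by
      refine ContDiffAt.sqrt ?_ (KEm_pos hz).ne'
      have : ContDiff ℝ ∞ fun p : ℂ × E3 => 1 - ‖p.1‖ ^ 2 := contDiff_const.sub (contDiff_fst.norm_sq ℝ)
      exact this.contDiffAt
    exact k00.smul contDiffAt_snd
  have k1 : ContMDiffAt (𝓘(ℝ, ℂ).prod (𝓡 2)) 𝓘(ℝ, E3) ∞ (fun p : ℂ × S2 => √(1 - ‖p.1‖ ^ 2) • p.2.1) (z, v) :=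
    ContMDiffAt.comp (z, v) (g := fun p : ℂ × E3 => √(1 - ‖p.1‖ ^ 2) • p.2) k0.contMDiffAt hG
  exact KEm_pt_smooth contMDiff_fst.contMDiffAt k1 (KEm_sq hz v)

theorem KEm_R_smooth {x : S4} (hx : ‖KEm_u x.1‖ < 1) :
    ContMDiffAt (𝓡 4) (𝓘(ℝ, ℂ).prod (𝓡 2)) ∞ KEm_R x :=
  (KEm_u_sm x).prodMk (ContMDiffAt.comp x (g := KEm_sph KEm_e3) (KEm_sph_smooth (n := 2) KEm_e3 (KEm_w_ne hx))
    (KEm_w_sm x))

/-- the standard thick sphere as a partial diffeomorphism -/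
noncomputable def KEm_PD : PartialDiffeomorph (𝓘(ℝ, ℂ).prod (𝓡 2)) (𝓡 4) (ℂ × S2) S4 ∞ where
  toFun := KEm_Q
  invFun := KEm_R
  source := {p | ‖p.1‖ < 1}
  target := {x | ‖KEm_u x.1‖ < 1}
  map_source' := fun p hp => by
    show ‖KEm_u (KEm_Q (p.1, p.2)).1‖ < 1
    rw [KEm_Q_coe hp, KEm_u_m]
    exact hp
  map_target' := fun x hx => hx
  left_inv' := fun p hp => KEm_R_Q hp p.2
  right_inv' := fun x hx => KEm_Q_R hx
  open_source := isOpen_lt (continuous_norm.comp continuous_fst) continuous_const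
  open_target := isOpen_lt (continuous_norm.comp (KEm_u_smooth.continuous.comp continuous_subtype_val))
    continuous_const
  contMDiffOn_toFun := fun p hp => (KEm_Q_smooth hp p.2).contMDiffWithinAt
  contMDiffOn_invFun := fun x hx => (KEm_R_smooth hx).contMDiffWithinAt

/-! ### the thick circle -/

/-- the angle -/
noncomputable def KEm_an (z : ℂ) : ℝ := Complex.arg z / (2 * Real.pi)

theorem KEm_ex_add (x y : ℝ) : ex (x + y) = ex x * ex y := by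
  unfold ex
  rw [← Complex.exp_add]
  congr 1
  push_cast
  ring

theorem KEm_ex_norm (x : ℝ) : ‖ex x‖ = 1 := by
  unfold ex
  exact Complex.norm_exp_ofReal_mul_I _

theorem KEm_ex_ne (x : ℝ) : ex x ≠ 0 := by
  intro h
  have := KEm_ex_norm x
  rw [h, norm_zero] at this
  exact zero_ne_one this

theorem KEm_ex_one : ex 1 = 1 := by
  unfold ex
  rw [mul_one]
  push_cast
  exact Complex.exp_two_pi_mul_I

theorem KEm_an_spec (z : ℂ) : z = ‖z‖ * ex (KEm_an z) := by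
  conv_lhs => rw [← Complex.norm_mul_exp_arg_mul_I z]
  congr 2
  congr 1
  unfold KEm_an
  have := Real.pi_pos.ne'
  push_cast
  field_simp

theorem KEm_an_eq {r y : ℝ} (hr : 0 < r) (hy : |y| < 1 / 2) :
    KEm_an (r * ex y) = y ∧ (r * ex y : ℂ) ∈ Complex.slitPlane := by
  have hpi := Real.pi_pos
  rw [abs_lt] at hy
  have h1 : Complex.arg (r * ex y) = 2 * Real.pi * y := by
    rw [Complex.arg_real_mul _ hr]
    unfold ex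
    rw [Complex.arg_exp_mul_I, toIocMod_eq_self]
    constructor
    · nlinarith
    · nlinarith
  constructor
  · unfold KEm_an
    rw [h1]
    field_simp
  · rw [Complex.mem_slitPlane_iff_arg, h1]
    constructor
    · intro h
      have : 2 * y = 1 := by
        have h2 : Real.pi * (2 * y) = Real.pi * 1 := by linarith
        exact mul_left_cancel₀ hpi.ne' h2
      linarith
    · have : (r : ℂ) ≠ 0 := by exact_mod_cast hr.ne'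
      exact mul_ne_zero this (KEm_ex_ne y)

theorem KEm_an_lt {z : ℂ} (hz : z ∈ Complex.slitPlane) : |KEm_an z| < 1 / 2 := by
  have hpi := Real.pi_pos
  have h1 := Complex.neg_pi_lt_arg z
  have h2 := Complex.arg_le_pi z
  have h3 := (Complex.mem_slitPlane_iff_arg.1 hz).1
  have h4 : Complex.arg z < Real.pi := lt_of_le_of_ne h2 h3
  unfold KEm_an
  rw [abs_lt]
  constructor
  · rw [lt_div_iff₀ (by positivity)]
    linarith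
  · rw [div_lt_iff₀ (by positivity)]
    linarith

theorem KEm_an_smooth {z : ℂ} (hz : z ∈ Complex.slitPlane) : ContDiffAt ℝ ∞ KEm_an z := by
  have h1 : ContDiffAt ℝ ∞ Complex.log z := (Complex.contDiffAt_log hz).restrict_scalars ℝ
  have h2 : ContDiffAt ℝ ∞ (fun z => (Complex.log z).im) z := Complex.imCLM.contDiff.contDiffAt.comp z h1
  have h3 : KEm_an = fun z => (Complex.log z).im / (2 * Real.pi) := by
    funext z
    rw [Complex.log_im]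
    rfl
  rw [h3]
  exact h2.div_const _

noncomputable def KEm_k (p : ℝ × E3) : S4 := KEm_pt ((√(1 - ‖p.2‖ ^ 2) : ℝ) * ex p.1) p.2

theorem KEm_pos' {w : E3} (hw : ‖w‖ < 1) : 0 < 1 - ‖w‖ ^ 2 := by
  nlinarith [norm_nonneg w]

theorem KEm_sq' {w : E3} (hw : ‖w‖ < 1) (l : ℝ) : ‖((√(1 - ‖w‖ ^ 2) : ℝ) : ℂ) * ex l‖ ^ 2 + ‖w‖ ^ 2 = 1 := by
  rw [norm_mul, KEm_ex_norm, mul_one, Complex.norm_real, Real.norm_eq_abs, sq_abs,
    Real.sq_sqrt (KEm_pos' hw).le]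
  ring

theorem KEm_k_coe {w : E3} (hw : ‖w‖ < 1) (l : ℝ) :
    (KEm_k (l, w)).1 = KEm_m ((√(1 - ‖w‖ ^ 2) : ℝ) * ex l) w := KEm_pt_coe (KEm_sq' hw l)

theorem KEm_ex_smooth : ContDiff ℝ ∞ ex := by
  unfold ex
  have h1 : ContDiff ℝ ∞ fun x : ℝ => ((2 * Real.pi * x : ℝ) : ℂ) * Complex.I :=
    (Complex.ofRealCLM.contDiff.comp (contDiff_const.mul contDiff_id)).mul contDiff_const
  exact h1.cexp

theorem KEm_k_smooth {w : E3} (hw : ‖w‖ < 1) (l : ℝ) :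
    ContMDiffAt 𝓘(ℝ, ℝ × E3) (𝓡 4) ∞ KEm_k (l, w) := by
  have k0 : ContDiffAt ℝ ∞ (fun p : ℝ × E3 => ((√(1 - ‖p.2‖ ^ 2) : ℝ) : ℂ) * ex p.1) (l, w) := by
    refine ContDiffAt.mul ?_ (KEm_ex_smooth.contDiffAt.comp _ contDiffAt_fst)
    have h1 : ContDiffAt ℝ ∞ (fun p : ℝ × E3 => √(1 - ‖p.2‖ ^ 2)) (l, w) := by
      refine ContDiffAt.sqrt ?_ (KEm_pos' hw).ne'
      have : ContDiff ℝ ∞ fun p : ℝ × E3 => 1 - ‖p.2‖ ^ 2 := contDiff_const.sub (contDiff_snd.norm_sq ℝ)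
      exact this.contDiffAt
    exact Complex.ofRealCLM.contDiff.contDiffAt.comp _ h1
  exact KEm_pt_smooth (f := fun p : ℝ × E3 => ((√(1 - ‖p.2‖ ^ 2) : ℝ) : ℂ) * ex p.1) (g := fun p : ℝ × E3 => p.2)
    k0.contMDiffAt contDiff_snd.contMDiff.contMDiffAt (KEm_sq' hw l)

noncomputable def KEm_k' (l₀ : ℝ) (x : S4) : ℝ × E3 := (l₀ + KEm_an (KEm_u x.1 / ex l₀), KEm_w x.1)

theorem KEm_div {r l l₀ : ℝ} : (r * ex l : ℂ) / ex l₀ = r * ex (l - l₀) := by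
  have h := KEm_ex_ne l₀
  rw [div_eq_iff h, mul_assoc, ← KEm_ex_add]
  congr 2
  ring

theorem KEm_k'_k {l₀ l : ℝ} {w : E3} (hw : ‖w‖ < 1) (hl : |l - l₀| < 1 / 2) :
    KEm_k' l₀ (KEm_k (l, w)) = (l, w) := by
  have hs : 0 < √(1 - ‖w‖ ^ 2) := Real.sqrt_pos.2 (KEm_pos' hw)
  refine Prod.ext ?_ ?_
  · show l₀ + KEm_an (KEm_u (KEm_k (l, w)).1 / ex l₀) = l
    rw [KEm_k_coe hw, KEm_u_m, KEm_div, (KEm_an_eq hs hl).1]
    ring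
  · show KEm_w (KEm_k (l, w)).1 = w
    rw [KEm_k_coe hw, KEm_w_m]

theorem KEm_k_k' {l₀ : ℝ} {x : S4} (hx : KEm_u x.1 / ex l₀ ∈ Complex.slitPlane) :
    KEm_k (KEm_k' l₀ x) = x ∧ ‖KEm_w x.1‖ < 1 := by
  have h0 : KEm_u x.1 ≠ 0 := by
    intro h
    rw [h, zero_div] at hx
    exact Complex.slitPlane_ne_zero hx rfl
  have hn : 0 < ‖KEm_u x.1‖ := norm_pos_iff.2 h0
  have hw : ‖KEm_w x.1‖ < 1 := by
    have := KEm_x x
    nlinarith [norm_nonneg (KEm_w x.1)]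
  have h1 : √(1 - ‖KEm_w x.1‖ ^ 2) = ‖KEm_u x.1‖ := by
    have := KEm_x x
    rw [show 1 - ‖KEm_w x.1‖ ^ 2 = ‖KEm_u x.1‖ ^ 2 by linarith, Real.sqrt_sq (norm_nonneg _)]
  refine ⟨?_, hw⟩
  show KEm_pt ((√(1 - ‖KEm_w x.1‖ ^ 2) : ℝ) * ex (l₀ + KEm_an (KEm_u x.1 / ex l₀))) (KEm_w x.1) = x
  have h2 : ((√(1 - ‖KEm_w x.1‖ ^ 2) : ℝ) : ℂ) * ex (l₀ + KEm_an (KEm_u x.1 / ex l₀)) = KEm_u x.1 := by
    rw [h1, KEm_ex_add]
    have h3 := KEm_an_spec (KEm_u x.1 / ex l₀)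
    have h4 : ‖KEm_u x.1 / ex l₀‖ = ‖KEm_u x.1‖ := by
      rw [norm_div, KEm_ex_norm, div_one]
    rw [h4, div_eq_iff (KEm_ex_ne l₀)] at h3
    conv_rhs => rw [h3]
    ring
  rw [h2, KEm_pt_uw]

theorem KEm_k'_smooth {l₀ : ℝ} {x : S4} (hx : KEm_u x.1 / ex l₀ ∈ Complex.slitPlane) :
    ContMDiffAt (𝓡 4) 𝓘(ℝ, ℝ × E3) ∞ (KEm_k' l₀) x := by
  have h1 : ContDiffAt ℝ ∞ (fun z : ℂ => l₀ + KEm_an (z / ex l₀)) (KEm_u x.1) := by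
    have e1 : ContDiffAt ℝ ∞ (fun z : ℂ => z / ex l₀) (KEm_u x.1) := by
      have : ContDiff ℂ ∞ (fun z : ℂ => z / ex l₀) := contDiff_id.div_const _
      exact (this.restrict_scalars ℝ).contDiffAt
    exact contDiffAt_const.add (ContDiffAt.comp (f := fun z : ℂ => z / ex l₀) (KEm_u x.1) (KEm_an_smooth hx) e1)
  have h2 : ContMDiffAt (𝓡 4) 𝓘(ℝ, ℝ) ∞ (fun x : S4 => l₀ + KEm_an (KEm_u x.1 / ex l₀)) x :=
    ContMDiffAt.comp x (g := fun z : ℂ => l₀ + KEm_an (z / ex l₀)) h1.contMDiffAt (KEm_u_sm x)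
  exact h2.prodMk_space (KEm_w_sm x)

noncomputable def KEm_PDk (l₀ : ℝ) : PartialDiffeomorph 𝓘(ℝ, ℝ × E3) (𝓡 4) (ℝ × E3) S4 ∞ where
  toFun := KEm_k
  invFun := KEm_k' l₀
  source := {p | ‖p.2‖ < 1 ∧ |p.1 - l₀| < 1 / 2}
  target := {x | KEm_u x.1 / ex l₀ ∈ Complex.slitPlane}
  map_source' := fun p hp => by
    show KEm_u (KEm_k (p.1, p.2)).1 / ex l₀ ∈ Complex.slitPlane
    rw [KEm_k_coe hp.1, KEm_u_m, KEm_div]
    exact (KEm_an_eq (Real.sqrt_pos.2 (KEm_pos' hp.1)) hp.2).2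
  map_target' := fun x hx => ⟨(KEm_k_k' hx).2, by
    show |l₀ + KEm_an (KEm_u x.1 / ex l₀) - l₀| < 1 / 2
    rw [add_sub_cancel_left]
    exact KEm_an_lt hx⟩
  left_inv' := fun p hp => KEm_k'_k hp.1 hp.2
  right_inv' := fun x hx => (KEm_k_k' hx).1
  open_source := (isOpen_lt (continuous_norm.comp continuous_snd) continuous_const).inter
    (isOpen_lt (continuous_abs.comp (continuous_fst.sub continuous_const)) continuous_const)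
  open_target := Complex.isOpen_slitPlane.preimage
    ((KEm_u_smooth.continuous.comp continuous_subtype_val).div_const _)
  contMDiffOn_toFun := fun p hp => (KEm_k_smooth hp.1 p.1).contMDiffWithinAt
  contMDiffOn_invFun := fun x hx => (KEm_k'_smooth hx).contMDiffWithinAt

theorem KEm_thick : Thick KEm_k 1 where
  pos := one_pos
  per := fun l v _ => by
    unfold KEm_k
    simp only
    rw [KEm_ex_add, KEm_ex_one, mul_one]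
  loc := fun l v hv => ⟨KEm_PDk l, ⟨hv, by simp⟩, fun _ _ => rfl⟩
  inj := fun l v l' v' hv hv' he => by
    have h1 : KEm_w (KEm_k (l, v)).1 = KEm_w (KEm_k (l', v')).1 := congrArg (fun x : S4 => KEm_w x.1) he
    rw [KEm_k_coe hv, KEm_k_coe hv', KEm_w_m, KEm_w_m] at h1
    subst h1
    refine ⟨rfl, ?_⟩
    have h2 : KEm_u (KEm_k (l, v)).1 = KEm_u (KEm_k (l', v)).1 := congrArg (fun x : S4 => KEm_u x.1) he
    rw [KEm_k_coe hv, KEm_k_coe hv, KEm_u_m, KEm_u_m] at h2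
    have hs : ((√(1 - ‖v‖ ^ 2) : ℝ) : ℂ) ≠ 0 := by
      exact_mod_cast (Real.sqrt_pos.2 (KEm_pos' hv)).ne'
    exact ex_inj (mul_left_cancel₀ hs h2)


end

universe u

/-- `(z, w) / √(1 + |z|²)`, `w ∈ S²`: parametrisation of the complement of the standard circle -/
noncomputable def plS (q : ℂ × S2) : S4 :=
  ⟨!₂[q.1.re / √(1 + ‖q.1‖ ^ 2), q.1.im / √(1 + ‖q.1‖ ^ 2), q.2.1 0 / √(1 + ‖q.1‖ ^ 2), q.2.1 1 / √(1 + ‖q.1‖ ^ 2),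
    q.2.1 2 / √(1 + ‖q.1‖ ^ 2)], by
    have hq : ‖(q.2 : E3)‖ = 1 := norm_eq_of_mem_sphere q.2
    have h3 : ‖(q.2 : E3)‖ ^ 2 = q.2.1 0 ^ 2 + q.2.1 1 ^ 2 + q.2.1 2 ^ 2 := by
      rw [EuclideanSpace.norm_sq_eq]; simp [Fin.sum_univ_three]
    have h4 : ‖q.1‖ ^ 2 = q.1.re ^ 2 + q.1.im ^ 2 := by
      rw [← Complex.normSq_eq_norm_sq, Complex.normSq_apply]; ring
    have h5 : 0 < 1 + ‖q.1‖ ^ 2 := by positivity
    rw [mem_sphere_zero_iff_norm, ← sq_eq_sq₀ (norm_nonneg _) zero_le_one, EuclideanSpace.norm_sq_eq]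
    simp only [Fin.sum_univ_five, Real.norm_eq_abs, sq_abs]
    simp
    rw [div_pow, div_pow, div_pow, div_pow, div_pow, Real.sq_sqrt h5.le]
    rw [hq] at h3
    rw [← add_div, ← add_div, ← add_div, ← add_div, div_eq_one_iff_eq h5.ne']
    linarith⟩


/-! ### congruence -/

section
variable {N : Type u} [TopologicalSpace N] [ChartedSpace E4 N]

theorem KEm_ld_congr {f g : ℝ × E3 → N} {x : ℝ × E3} (hf : IsLocalDiffeomorphAt 𝓘(ℝ, ℝ × E3) (𝓡 4) ∞ f x)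
    (h : g =ᶠ[𝓝 x] f) : IsLocalDiffeomorphAt 𝓘(ℝ, ℝ × E3) (𝓡 4) ∞ g x := by
  obtain ⟨Φ, hx, heq⟩ := hf
  obtain ⟨U, hUsub, hU, hxU⟩ := mem_nhds_iff.1 h
  refine ⟨{ toPartialEquiv := (Φ.toOpenPartialHomeomorph.restrOpen U hU).toPartialEquiv
            open_source := (Φ.toOpenPartialHomeomorph.restrOpen U hU).open_source
            open_target := (Φ.toOpenPartialHomeomorph.restrOpen U hU).open_target
            contMDiffOn_toFun := Φ.contMDiffOn_toFun.mono inter_subset_left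
            contMDiffOn_invFun := Φ.contMDiffOn_invFun.mono inter_subset_left }, ⟨hx, hxU⟩, ?_⟩
  rintro y ⟨hy1, hy2⟩
  have h1 : g y = f y := hUsub hy2
  rw [h1]
  exact heq hy1

theorem KEm_congr {κ κ' : ℝ × E3 → N} {ε : ℝ} (h : Thick κ ε)
    (he : ∀ (l : ℝ) (v : E3), ‖v‖ < ε → κ' (l, v) = κ (l, v)) : Thick κ' ε where
  pos := h.pos
  per := fun l v hv => by rw [he _ _ hv, he _ _ hv, h.per l v hv]
  loc := fun l v hv => by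
    refine KEm_ld_congr (h.loc l v hv) ?_
    have o1 : ∀ᶠ q : ℝ × E3 in 𝓝 (l, v), ‖q.2‖ < ε := by
      have : ContinuousAt (fun q : ℝ × E3 => ‖q.2‖) (l, v) := by fun_prop
      exact this.eventually_lt continuousAt_const hv
    filter_upwards [o1] with q hq
    exact he q.1 q.2 hq
  inj := fun l v l' v' hv hv' hh => by
    rw [he _ _ hv, he _ _ hv'] at hh
    exact h.inj l v l' v' hv hv' hh

end

/-! ### the thick circle `kS` -/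

section

attribute [local instance] KEm_f5 KEm_f3

theorem KEm_kS {x : ℝ × E3} (h : ‖x.2‖ < 1) : kS x = KEm_k x := by
  apply Subtype.ext
  have h1 : (KEm_k x).1 = KEm_m ((√(1 - ‖x.2‖ ^ 2) : ℝ) * ex x.1) x.2 := KEm_k_coe h x.1
  rw [h1]
  unfold kS
  rw [dif_pos h.le]
  unfold KEm_m
  rw [Complex.re_ofReal_mul, Complex.im_ofReal_mul]

theorem KEm_kS_coe {x : ℝ × E3} (h : ‖x.2‖ < 1) : (kS x).1 = KEm_m ((√(1 - ‖x.2‖ ^ 2) : ℝ) * ex x.1) x.2 := by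
  rw [KEm_kS h]
  exact KEm_k_coe h x.1

theorem KEm_thick' : Thick kS 1 := KEm_congr KEm_thick fun _ _ hv => KEm_kS hv

/-! ### the complement -/

theorem KEm_plS_coe (q : ℂ × S2) :
    (plS q).1 = KEm_m (((√(1 + ‖q.1‖ ^ 2))⁻¹ : ℝ) * q.1) ((√(1 + ‖q.1‖ ^ 2))⁻¹ • q.2.1) := by
  unfold plS KEm_m
  rw [Complex.re_ofReal_mul, Complex.im_ofReal_mul]
  simp only [div_eq_inv_mul]
  rfl

theorem KEm_spos (z : ℂ) : 0 < √(1 + ‖z‖ ^ 2) := Real.sqrt_pos.2 (by positivity)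

theorem KEm_ssq (z : ℂ) : √(1 + ‖z‖ ^ 2) ^ 2 = 1 + ‖z‖ ^ 2 := Real.sq_sqrt (by positivity)

theorem KEm_p_sq (z : ℂ) (v : S2) :
    ‖(((√(1 + ‖z‖ ^ 2))⁻¹ : ℝ) : ℂ) * z‖ ^ 2 + ‖(√(1 + ‖z‖ ^ 2))⁻¹ • v.1‖ ^ 2 = 1 := by
  have hv : ‖(v : E3)‖ = 1 := norm_eq_of_mem_sphere v
  have hs := KEm_spos z
  rw [norm_mul, norm_smul, hv, mul_one, Complex.norm_real, Real.norm_eq_abs, abs_of_pos (inv_pos.2 hs), mul_pow,
    inv_pow, KEm_ssq]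
  have h1 : (1 : ℝ) + ‖z‖ ^ 2 ≠ 0 := by positivity
  field_simp
  ring

theorem KEm_plS_pt (q : ℂ × S2) :
    plS q = KEm_pt (((√(1 + ‖q.1‖ ^ 2))⁻¹ : ℝ) * q.1) ((√(1 + ‖q.1‖ ^ 2))⁻¹ • q.2.1) := by
  apply Subtype.ext
  rw [KEm_plS_coe, KEm_pt_coe (KEm_p_sq q.1 q.2)]

theorem KEm_u_plS (q : ℂ × S2) : KEm_u (plS q).1 = ((√(1 + ‖q.1‖ ^ 2))⁻¹ : ℝ) * q.1 := by
  rw [KEm_plS_coe, KEm_u_m]

theorem KEm_w_plS (q : ℂ × S2) : KEm_w (plS q).1 = (√(1 + ‖q.1‖ ^ 2))⁻¹ • q.2.1 := by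
  rw [KEm_plS_coe, KEm_w_m]

theorem KEm_wn_plS (q : ℂ × S2) : ‖KEm_w (plS q).1‖ = (√(1 + ‖q.1‖ ^ 2))⁻¹ := by
  have hv : ‖(q.2 : E3)‖ = 1 := norm_eq_of_mem_sphere q.2
  rw [KEm_w_plS, norm_smul, hv, mul_one, Real.norm_eq_abs, abs_of_pos (inv_pos.2 (KEm_spos q.1))]

theorem KEm_w_ne' (q : ℂ × S2) : KEm_w (plS q).1 ≠ 0 := by
  rw [← norm_ne_zero_iff, KEm_wn_plS]
  exact (inv_pos.2 (KEm_spos q.1)).ne'

/-- the inverse -/
noncomputable def KEm_P (x : S4) : ℂ × S2 :=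
  ((‖KEm_w x.1‖⁻¹ : ℝ) * KEm_u x.1, KEm_sph KEm_e3 (KEm_w x.1))

theorem KEm_P_plS (q : ℂ × S2) : KEm_P (plS q) = q := by
  have hs := KEm_spos q.1
  refine Prod.ext ?_ ?_
  · show ((‖KEm_w (plS q).1‖⁻¹ : ℝ) : ℂ) * KEm_u (plS q).1 = q.1
    rw [KEm_wn_plS, KEm_u_plS, ← mul_assoc, ← Complex.ofReal_mul, inv_inv, mul_inv_cancel₀ hs.ne', Complex.ofReal_one,
      one_mul]
  · show KEm_sph KEm_e3 (KEm_w (plS q).1) = q.2
    apply Subtype.ext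
    rw [KEm_sph_coe _ (KEm_w_ne' q), KEm_wn_plS, KEm_w_plS, smul_smul, inv_inv, mul_inv_cancel₀ hs.ne', one_smul]

theorem KEm_plS_P {x : S4} (hx : KEm_w x.1 ≠ 0) : plS (KEm_P x) = x := by
  have hn : 0 < ‖KEm_w x.1‖ := norm_pos_iff.2 hx
  have h1 : √(1 + ‖(KEm_P x).1‖ ^ 2) = ‖KEm_w x.1‖⁻¹ := by
    have h2 : 1 + ‖(KEm_P x).1‖ ^ 2 = (‖KEm_w x.1‖⁻¹) ^ 2 := by
      show 1 + ‖((‖KEm_w x.1‖⁻¹ : ℝ) : ℂ) * KEm_u x.1‖ ^ 2 = _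
      rw [norm_mul, Complex.norm_real, Real.norm_eq_abs, abs_of_pos (inv_pos.2 hn), mul_pow]
      have h3 := KEm_x x
      have h4 : ‖KEm_u x.1‖ ^ 2 = 1 - ‖KEm_w x.1‖ ^ 2 := by linarith
      rw [h4]
      field_simp
      ring
    rw [h2, Real.sqrt_sq (inv_pos.2 hn).le]
  rw [KEm_plS_pt, h1, inv_inv]
  have h2 : ((‖KEm_w x.1‖ : ℝ) : ℂ) * (KEm_P x).1 = KEm_u x.1 := by
    show ((‖KEm_w x.1‖ : ℝ) : ℂ) * (((‖KEm_w x.1‖⁻¹ : ℝ) : ℂ) * KEm_u x.1) = _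
    rw [← mul_assoc, ← Complex.ofReal_mul, mul_inv_cancel₀ hn.ne', Complex.ofReal_one, one_mul]
  have h3 : ‖KEm_w x.1‖ • (KEm_P x).2.1 = KEm_w x.1 := by
    show ‖KEm_w x.1‖ • (KEm_sph KEm_e3 (KEm_w x.1)).1 = _
    rw [KEm_sph_coe _ hx, smul_smul, mul_inv_cancel₀ hn.ne', one_smul]
  rw [h2, h3, KEm_pt_uw]

theorem KEm_plS_smooth (q : ℂ × S2) : ContMDiffAt (𝓘(ℝ, ℂ).prod (𝓡 2)) (𝓡 4) ∞ plS q := by
  have hG : ContMDiffAt (𝓘(ℝ, ℂ).prod (𝓡 2)) 𝓘(ℝ, ℂ × E3) ∞ (fun p : ℂ × S2 => (p.1, (p.2 : E3))) q :=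
    contMDiff_fst.contMDiffAt.prodMk_space
      ((contMDiff_coe_sphere (n := 2)).comp contMDiff_snd).contMDiffAt
  have k00 : ContDiff ℝ ∞ (fun p : ℂ × E3 => (√(1 + ‖p.1‖ ^ 2))⁻¹) := by
    refine ContDiff.inv ?_ (fun p => (KEm_spos p.1).ne')
    refine ContDiff.sqrt ?_ (fun p => by positivity)
    exact contDiff_const.add (contDiff_fst.norm_sq ℝ)
  have k0 : ContDiff ℝ ∞ (fun p : ℂ × E3 => (√(1 + ‖p.1‖ ^ 2))⁻¹ • p.2) := k00.smul contDiff_snd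
  have k1 : ContMDiffAt (𝓘(ℝ, ℂ).prod (𝓡 2)) 𝓘(ℝ, E3) ∞ (fun p : ℂ × S2 => (√(1 + ‖p.1‖ ^ 2))⁻¹ • p.2.1) q :=
    ContMDiffAt.comp q (g := fun p : ℂ × E3 => (√(1 + ‖p.1‖ ^ 2))⁻¹ • p.2) k0.contMDiff.contMDiffAt hG
  have k2 : ContDiff ℝ ∞ (fun p : ℂ × E3 => (((√(1 + ‖p.1‖ ^ 2))⁻¹ : ℝ) : ℂ) * p.1) :=
    (Complex.ofRealCLM.contDiff.comp k00).mul contDiff_fst
  have k3 : ContMDiffAt (𝓘(ℝ, ℂ).prod (𝓡 2)) 𝓘(ℝ, ℂ) ∞ (fun p : ℂ × S2 => (((√(1 + ‖p.1‖ ^ 2))⁻¹ : ℝ) : ℂ) * p.1) q :=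
    ContMDiffAt.comp q (g := fun p : ℂ × E3 => (((√(1 + ‖p.1‖ ^ 2))⁻¹ : ℝ) : ℂ) * p.1) k2.contMDiff.contMDiffAt hG
  have h1 := KEm_pt_smooth k3 k1 (KEm_p_sq q.1 q.2)
  have h2 : plS = fun q : ℂ × S2 =>
      KEm_pt (((√(1 + ‖q.1‖ ^ 2))⁻¹ : ℝ) * q.1) ((√(1 + ‖q.1‖ ^ 2))⁻¹ • q.2.1) := funext KEm_plS_pt
  rw [h2]
  exact h1

theorem KEm_P_smooth {x : S4} (hx : KEm_w x.1 ≠ 0) :
    ContMDiffAt (𝓡 4) (𝓘(ℝ, ℂ).prod (𝓡 2)) ∞ KEm_P x := by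
  have h1 : ContMDiffAt (𝓡 4) 𝓘(ℝ, E5) ∞ (fun x : S4 => (x : E5)) x :=
    (contMDiff_coe_sphere (n := 4)) x
  have h2 : ContDiffAt ℝ ∞ (fun y : E5 => ((‖KEm_w y‖⁻¹ : ℝ) : ℂ) * KEm_u y) x.1 := by
    refine ContDiffAt.mul ?_ KEm_u_smooth.contDiffAt
    refine Complex.ofRealCLM.contDiff.contDiffAt.comp _ ?_
    refine ContDiffAt.inv ?_ (norm_ne_zero_iff.2 hx)
    exact ContDiffAt.norm ℝ KEm_w_smooth.contDiffAt hx
  have h3 : ContMDiffAt (𝓡 4) 𝓘(ℝ, ℂ) ∞ (fun x : S4 => ((‖KEm_w x.1‖⁻¹ : ℝ) : ℂ) * KEm_u x.1) x :=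
    ContMDiffAt.comp x (g := fun y : E5 => ((‖KEm_w y‖⁻¹ : ℝ) : ℂ) * KEm_u y) h2.contMDiffAt h1
  exact h3.prodMk (ContMDiffAt.comp x (g := KEm_sph KEm_e3) (KEm_sph_smooth (n := 2) KEm_e3 hx) (KEm_w_sm x))

/-- the parametrisation as a partial diffeomorphism -/
noncomputable def KEm_PP : PartialDiffeomorph (𝓘(ℝ, ℂ).prod (𝓡 2)) (𝓡 4) (ℂ × S2) S4 ∞ where
  toFun := plS
  invFun := KEm_P
  source := univ
  target := {x | KEm_w x.1 ≠ 0}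
  map_source' := fun p _ => KEm_w_ne' p
  map_target' := fun x _ => mem_univ _
  left_inv' := fun p _ => KEm_P_plS p
  right_inv' := fun x hx => KEm_plS_P hx
  open_source := isOpen_univ
  open_target := isOpen_ne_fun (KEm_w_smooth.continuous.comp continuous_subtype_val) continuous_const
  contMDiffOn_toFun := fun p _ => (KEm_plS_smooth p).contMDiffWithinAt
  contMDiffOn_invFun := fun x hx => (KEm_P_smooth hx).contMDiffWithinAt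

/-! ### the stereographic projection -/

noncomputable def KEm_sv (s : ℝ) (x : E4) : E5 :=
  !₂[2 * x 0 / (1 + ‖x‖ ^ 2), 2 * x 1 / (1 + ‖x‖ ^ 2), 2 * x 2 / (1 + ‖x‖ ^ 2), 2 * x 3 / (1 + ‖x‖ ^ 2),
    s * ((‖x‖ ^ 2 - 1) / (1 + ‖x‖ ^ 2))]

theorem KEm_n4 (x : E4) : ‖x‖ ^ 2 = x 0 ^ 2 + x 1 ^ 2 + x 2 ^ 2 + x 3 ^ 2 := by
  rw [EuclideanSpace.norm_sq_eq]; simp [Fin.sum_univ_four]

theorem KEm_n5 (x : E5) : ‖x‖ ^ 2 = x 0 ^ 2 + x 1 ^ 2 + x 2 ^ 2 + x 3 ^ 2 + x 4 ^ 2 := by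
  rw [EuclideanSpace.norm_sq_eq]; simp [Fin.sum_univ_five]

theorem KEm_sv_norm {s : ℝ} (hs : s ^ 2 = 1) (x : E4) : ‖KEm_sv s x‖ = 1 := by
  have h : ‖KEm_sv s x‖ ^ 2 = 1 := by
    rw [KEm_n5]
    have h1 := KEm_n4 x
    have hp : (1 : ℝ) + ‖x‖ ^ 2 ≠ 0 := by positivity
    show (2 * x 0 / (1 + ‖x‖ ^ 2)) ^ 2 + (2 * x 1 / (1 + ‖x‖ ^ 2)) ^ 2 + (2 * x 2 / (1 + ‖x‖ ^ 2)) ^ 2 +
      (2 * x 3 / (1 + ‖x‖ ^ 2)) ^ 2 + (s * ((‖x‖ ^ 2 - 1) / (1 + ‖x‖ ^ 2))) ^ 2 = 1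
    rw [mul_pow s, hs, one_mul, div_pow, div_pow, div_pow, div_pow, div_pow, ← add_div, ← add_div, ← add_div,
      ← add_div, div_eq_one_iff_eq (pow_ne_zero 2 hp)]
    linear_combination (-4 : ℝ) * h1
  nlinarith [norm_nonneg (KEm_sv s x)]

theorem KEm_sv_smooth (s : ℝ) : ContDiff ℝ ∞ (KEm_sv s) := by
  have k1 : ∀ i : Fin 4, ContDiff ℝ ∞ (fun x : E4 => x i) := fun i =>
    (EuclideanSpace.proj i : E4 →L[ℝ] ℝ).contDiff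
  have k2 : ContDiff ℝ ∞ (fun x : E4 => 1 + ‖x‖ ^ 2) := contDiff_const.add (contDiff_norm_sq ℝ)
  have k3 : ∀ x : E4, (1 : ℝ) + ‖x‖ ^ 2 ≠ 0 := fun x => by positivity
  have k4 : ∀ i : Fin 4, ContDiff ℝ ∞ (fun x : E4 => 2 * x i / (1 + ‖x‖ ^ 2)) := fun i =>
    (contDiff_const.mul (k1 i)).div k2 k3
  refine contDiff_euclidean.2 fun i => ?_
  fin_cases i
  · exact k4 0
  · exact k4 1
  · exact k4 2
  · exact k4 3
  · exact contDiff_const.mul (((contDiff_norm_sq ℝ).sub contDiff_const).div k2 k3)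

noncomputable def KEm_st (s : ℝ) (x : E4) : S4 := KEm_sph KEm_e5 (KEm_sv s x)

theorem KEm_st_coe {s : ℝ} (hs : s ^ 2 = 1) (x : E4) : (KEm_st s x).1 = KEm_sv s x := by
  have h1 := KEm_sv_norm hs x
  have h2 : KEm_sv s x ≠ 0 := by
    rw [← norm_ne_zero_iff, h1]
    exact one_ne_zero
  unfold KEm_st
  rw [KEm_sph_coe _ h2, h1, inv_one, one_smul]

theorem KEm_st_smooth {s : ℝ} (hs : s ^ 2 = 1) (x : E4) : ContMDiffAt (𝓡 4) (𝓡 4) ∞ (KEm_st s) x := by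
  have h2 : KEm_sv s x ≠ 0 := by
    rw [← norm_ne_zero_iff, KEm_sv_norm hs x]
    exact one_ne_zero
  exact ContMDiffAt.comp x (g := KEm_sph KEm_e5) (KEm_sph_smooth (n := 4) KEm_e5 h2)
    (KEm_sv_smooth s).contMDiff.contMDiffAt

noncomputable def KEm_si (s : ℝ) (y : E5) : E4 := (1 - s * y 4)⁻¹ • !₂[y 0, y 1, y 2, y 3]

theorem KEm_si_smooth {s : ℝ} {y : E5} (h : s * y 4 ≠ 1) : ContDiffAt ℝ ∞ (KEm_si s) y := by
  have k1 : ∀ i : Fin 5, ContDiff ℝ ∞ (fun x : E5 => x i) := fun i =>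
    (EuclideanSpace.proj i : E5 →L[ℝ] ℝ).contDiff
  have a1 : ContDiffAt ℝ ∞ (fun y : E5 => (1 - s * y 4)⁻¹) y := by
    refine ContDiffAt.inv ?_ (sub_ne_zero.2 (Ne.symm h))
    exact (contDiff_const.sub (contDiff_const.mul (k1 4))).contDiffAt
  have a2 : ContDiff ℝ ∞ (fun y : E5 => (!₂[y 0, y 1, y 2, y 3] : E4)) := by
    refine contDiff_euclidean.2 fun i => ?_
    fin_cases i
    · exact k1 0
    · exact k1 1
    · exact k1 2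
    · exact k1 3
  exact a1.smul a2.contDiffAt

theorem KEm_si_st {s : ℝ} (hs : s ^ 2 = 1) (x : E4) : KEm_si s (KEm_st s x).1 = x := by
  rw [KEm_st_coe hs]
  have hp : (1 : ℝ) + ‖x‖ ^ 2 ≠ 0 := by positivity
  have h1 : 1 - s * (KEm_sv s x) 4 = 2 / (1 + ‖x‖ ^ 2) := by
    show 1 - s * (s * ((‖x‖ ^ 2 - 1) / (1 + ‖x‖ ^ 2))) = _
    rw [← mul_assoc, ← sq, hs, one_mul]
    field_simp
    ring
  unfold KEm_si
  rw [h1]
  ext i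
  fin_cases i
  · show (2 / (1 + ‖x‖ ^ 2))⁻¹ * (2 * x 0 / (1 + ‖x‖ ^ 2)) = x 0
    field_simp
  · show (2 / (1 + ‖x‖ ^ 2))⁻¹ * (2 * x 1 / (1 + ‖x‖ ^ 2)) = x 1
    field_simp
  · show (2 / (1 + ‖x‖ ^ 2))⁻¹ * (2 * x 2 / (1 + ‖x‖ ^ 2)) = x 2
    field_simp
  · show (2 / (1 + ‖x‖ ^ 2))⁻¹ * (2 * x 3 / (1 + ‖x‖ ^ 2)) = x 3
    field_simp

theorem KEm_si_norm {s : ℝ} (hs : s ^ 2 = 1) {y : S4} (h : s * y.1 4 ≠ 1) :
    ‖KEm_si s y.1‖ ^ 2 = (1 + s * y.1 4) / (1 - s * y.1 4) := by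
  have hn : ‖(y : E5)‖ = 1 := norm_eq_of_mem_sphere y
  have h1 := KEm_n5 y.1
  rw [hn] at h1
  have h2 : (1 : ℝ) - s * y.1 4 ≠ 0 := sub_ne_zero.2 (Ne.symm h)
  rw [KEm_n4]
  show ((1 - s * y.1 4)⁻¹ * y.1 0) ^ 2 + ((1 - s * y.1 4)⁻¹ * y.1 1) ^ 2 + ((1 - s * y.1 4)⁻¹ * y.1 2) ^ 2 +
    ((1 - s * y.1 4)⁻¹ * y.1 3) ^ 2 = _
  rw [mul_pow, mul_pow, mul_pow, mul_pow, inv_pow, ← mul_add, ← mul_add, ← mul_add, inv_mul_eq_iff_eq_mul₀ (pow_ne_zero 2 h2),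
    sq (1 - s * y.1 4), mul_assoc, mul_div_cancel₀ _ h2]
  linear_combination (-1 : ℝ) * h1 + y.1 4 ^ 2 * hs

theorem KEm_st_si {s : ℝ} (hs : s ^ 2 = 1) {y : S4} (h : s * y.1 4 ≠ 1) : KEm_st s (KEm_si s y.1) = y := by
  apply Subtype.ext
  rw [KEm_st_coe hs]
  have h2 : (1 : ℝ) - s * y.1 4 ≠ 0 := sub_ne_zero.2 (Ne.symm h)
  have h3 := KEm_si_norm hs h
  have h4 : 1 + ‖KEm_si s y.1‖ ^ 2 = 2 / (1 - s * y.1 4) := by
    rw [h3]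
    field_simp
    ring
  have h5 : s * ((‖KEm_si s y.1‖ ^ 2 - 1) / (1 + ‖KEm_si s y.1‖ ^ 2)) = y.1 4 := by
    rw [h4, h3]
    have h6 : ((1 + s * y.1 4) / (1 - s * y.1 4) - 1) / (2 / (1 - s * y.1 4)) = s * y.1 4 := by
      field_simp
      ring
    rw [h6, ← mul_assoc, ← sq, hs, one_mul]
  have h7 : ∀ t : ℝ, 2 * ((1 - s * y.1 4)⁻¹ * t) / (1 + ‖KEm_si s y.1‖ ^ 2) = t := by
    intro t
    rw [h4]
    field_simp
  ext i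
  fin_cases i
  · exact h7 (y.1 0)
  · exact h7 (y.1 1)
  · exact h7 (y.1 2)
  · exact h7 (y.1 3)
  · exact h5

theorem KEm_st_ne {s : ℝ} (hs : s ^ 2 = 1) (x : E4) : s * (KEm_st s x).1 4 ≠ 1 := by
  rw [KEm_st_coe hs]
  show s * (s * ((‖x‖ ^ 2 - 1) / (1 + ‖x‖ ^ 2))) ≠ 1
  rw [← mul_assoc, ← sq, hs, one_mul]
  have hp : (1 : ℝ) + ‖x‖ ^ 2 ≠ 0 := by positivity
  intro h
  rw [div_eq_one_iff_eq hp] at h
  linarith

/-- the stereographic projection as a partial diffeomorphism -/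
noncomputable def KEm_PS {s : ℝ} (hs : s ^ 2 = 1) : PartialDiffeomorph (𝓡 4) (𝓡 4) E4 S4 ∞ where
  toFun := KEm_st s
  invFun := fun y => KEm_si s y.1
  source := univ
  target := {y | s * y.1 4 ≠ 1}
  map_source' := fun x _ => KEm_st_ne hs x
  map_target' := fun x _ => mem_univ _
  left_inv' := fun x _ => KEm_si_st hs x
  right_inv' := fun y hy => KEm_st_si hs hy
  open_source := isOpen_univ
  open_target := by
    refine isOpen_ne_fun ?_ continuous_const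
    exact continuous_const.mul ((EuclideanSpace.proj (4 : Fin 5) : E5 →L[ℝ] ℝ).continuous.comp continuous_subtype_val)
  contMDiffOn_toFun := fun x _ => (KEm_st_smooth hs x).contMDiffWithinAt
  contMDiffOn_invFun := fun y hy => (ContMDiffAt.comp y (g := KEm_si s) (KEm_si_smooth hy).contMDiffAt
    ((contMDiff_coe_sphere (n := 4)) y)).contMDiffWithinAt

theorem KEm_σ4 (x : E4) : σ4 x = KEm_st 1 x := by
  apply Subtype.ext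
  rw [KEm_st_coe (by norm_num)]
  unfold σ4 KEm_sv
  rw [one_mul]

theorem KEm_one : (1 : ℝ) ^ 2 = 1 := by norm_num

theorem KEm_mone : (-1 : ℝ) ^ 2 = 1 := by norm_num

theorem KEm_st_loc {s : ℝ} (hs : s ^ 2 = 1) (x : E4) : IsLocalDiffeomorphAt (𝓡 4) (𝓡 4) ∞ (KEm_st s) x :=
  ⟨KEm_PS hs, mem_univ _, fun _ _ => rfl⟩

theorem KEm_st_inj {s : ℝ} (hs : s ^ 2 = 1) : Function.Injective (KEm_st s) := by
  intro x y h
  rw [← KEm_si_st hs x, h, KEm_si_st hs]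

theorem KEm_kE_norm {x : ℝ × E3} (h : ‖x.2‖ < 1) : x.2 2 < 1 ∧ ‖kE x‖ ^ 2 = (1 + x.2 2) / (1 - x.2 2) := by
  have h3 : ‖x.2‖ ^ 2 = x.2 0 ^ 2 + x.2 1 ^ 2 + x.2 2 ^ 2 := by
    rw [EuclideanSpace.norm_sq_eq]; simp [Fin.sum_univ_three]
  have h1 : x.2 2 < 1 := by
    nlinarith [norm_nonneg x.2, sq_nonneg (x.2 0), sq_nonneg (x.2 1)]
  refine ⟨h1, ?_⟩
  have h2 : (1 : ℝ) - x.2 2 ≠ 0 := by linarith
  have h4 : (ex x.1).re ^ 2 + (ex x.1).im ^ 2 = 1 := by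
    have : ‖ex x.1‖ = 1 := by unfold ex; exact Complex.norm_exp_ofReal_mul_I _
    rw [← Complex.normSq_add_mul_I, Complex.re_add_im, Complex.normSq_eq_norm_sq, this, one_pow]
  have h5 : √(1 - ‖x.2‖ ^ 2) ^ 2 = 1 - ‖x.2‖ ^ 2 := Real.sq_sqrt (by nlinarith [norm_nonneg x.2])
  rw [KEm_n4]
  show ((1 - x.2 2)⁻¹ * (√(1 - ‖x.2‖ ^ 2) * (ex x.1).re)) ^ 2 + ((1 - x.2 2)⁻¹ * (√(1 - ‖x.2‖ ^ 2) * (ex x.1).im)) ^ 2 +
    ((1 - x.2 2)⁻¹ * x.2 0) ^ 2 + ((1 - x.2 2)⁻¹ * x.2 1) ^ 2 = _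
  rw [mul_pow, mul_pow, mul_pow, mul_pow, mul_pow, mul_pow, inv_pow, ← mul_add, ← mul_add, ← mul_add,
    inv_mul_eq_iff_eq_mul₀ (pow_ne_zero 2 h2), sq (1 - x.2 2), mul_assoc, mul_div_cancel₀ _ h2, h5]
  linear_combination (1 - ‖x.2‖ ^ 2) * h4 - h3

theorem KEm_σ4_kE {x : ℝ × E3} (h : ‖x.2‖ < 1) : σ4 (kE x) = kS x := by
  obtain ⟨h1, h2⟩ := KEm_kE_norm h
  have h3 : (1 : ℝ) - x.2 2 ≠ 0 := by linarith
  have h4 : 1 + ‖kE x‖ ^ 2 = 2 / (1 - x.2 2) := by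
    rw [h2]
    field_simp
    ring
  have h5 : (‖kE x‖ ^ 2 - 1) / (1 + ‖kE x‖ ^ 2) = x.2 2 := by
    rw [h4, h2]
    field_simp
    ring
  have h7 : ∀ t : ℝ, 2 * ((1 - x.2 2)⁻¹ * t) / (1 + ‖kE x‖ ^ 2) = t := by
    intro t
    rw [h4]
    field_simp
  apply Subtype.ext
  unfold kS
  rw [dif_pos h.le]
  ext i
  fin_cases i
  · exact h7 _
  · exact h7 _
  · exact h7 _
  · exact h7 _
  · exact h5

theorem KEm_kE_thick : Thick kE 1 := by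
  have h1 : Thick (fun x => KEm_si 1 (kS x).1) 1 := by
    refine thick_comp KEm_thick' (U := {y : S4 | (1 : ℝ) * y.1 4 ≠ 1}) ?_ (F := fun y => KEm_si 1 y.1) ?_ ?_
    · intro l v hv
      show (1 : ℝ) * (kS (l, v)).1 4 ≠ 1
      rw [KEm_kS_coe (x := (l, v)) hv, one_mul]
      have h2 := (KEm_kE_norm (x := (l, v)) hv).1
      exact ne_of_lt h2
    · intro y hy
      exact ⟨(KEm_PS KEm_one).symm, hy, fun _ _ => rfl⟩
    · intro y hy y' hy' he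
      have he' : KEm_si 1 y.1 = KEm_si 1 y'.1 := he
      rw [← KEm_st_si KEm_one hy, he', KEm_st_si KEm_one hy']
  refine KEm_congr h1 ?_
  intro l v hv
  show kE (l, v) = KEm_si 1 (kS (l, v)).1
  rw [← KEm_σ4_kE (x := (l, v)) hv, KEm_σ4, KEm_si_st KEm_one]

theorem KEm_pole : ∃ (np : S4) (τ : E4 → S4), (∀ x, σ4 x ≠ np) ∧ (∀ y, y ≠ np → ∃ x, y = σ4 x) ∧ τ 0 = np ∧
    (∀ x, x ≠ 0 → τ x = σ4 ((‖x‖ ^ 2)⁻¹ • x)) ∧ (∀ x, IsLocalDiffeomorphAt (𝓡 4) (𝓡 4) ∞ τ x) ∧ Function.Injective τ := by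
  have h0 : ((KEm_st (-1) 0 : S4) : E5) = !₂[0, 0, 0, 0, 1] := by
    rw [KEm_st_coe KEm_mone]
    ext i
    fin_cases i <;> simp [KEm_sv]
  refine ⟨KEm_st (-1) 0, KEm_st (-1), ?_, ?_, rfl, ?_, KEm_st_loc KEm_mone, KEm_st_inj KEm_mone⟩
  · intro x h
    have h1 := KEm_st_ne KEm_one x
    rw [← KEm_σ4, h, h0] at h1
    exact h1 (one_mul 1)
  · intro y hy
    refine ⟨KEm_si 1 y.1, ?_⟩
    rw [KEm_σ4, KEm_st_si KEm_one]
    intro h1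
    apply hy
    apply Subtype.ext
    rw [h0]
    rw [one_mul] at h1
    have hn : ‖(y : E5)‖ = 1 := norm_eq_of_mem_sphere y
    have h2 := KEm_n5 y.1
    rw [hn, h1] at h2
    have e0 : y.1 0 = 0 := by nlinarith [sq_nonneg (y.1 0), sq_nonneg (y.1 1), sq_nonneg (y.1 2), sq_nonneg (y.1 3)]
    have e1 : y.1 1 = 0 := by nlinarith [sq_nonneg (y.1 0), sq_nonneg (y.1 1), sq_nonneg (y.1 2), sq_nonneg (y.1 3)]
    have e2 : y.1 2 = 0 := by nlinarith [sq_nonneg (y.1 0), sq_nonneg (y.1 1), sq_nonneg (y.1 2), sq_nonneg (y.1 3)]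
    have e3 : y.1 3 = 0 := by nlinarith [sq_nonneg (y.1 0), sq_nonneg (y.1 1), sq_nonneg (y.1 2), sq_nonneg (y.1 3)]
    ext i
    fin_cases i
    · exact e0
    · exact e1
    · exact e2
    · exact e3
    · exact h1
  · intro x hx
    have hN : 0 < ‖x‖ := norm_pos_iff.2 hx
    rw [KEm_σ4]
    apply Subtype.ext
    rw [KEm_st_coe KEm_mone, KEm_st_coe KEm_one]
    have h1 : ‖(‖x‖ ^ 2)⁻¹ • x‖ ^ 2 = (‖x‖ ^ 2)⁻¹ := by
      rw [norm_smul, Real.norm_eq_abs, abs_of_pos (by positivity), mul_pow]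
      field_simp
    have h2 : ∀ t : ℝ, 2 * t / (1 + ‖x‖ ^ 2) = 2 * ((‖x‖ ^ 2)⁻¹ * t) / (1 + ‖(‖x‖ ^ 2)⁻¹ • x‖ ^ 2) := by
      intro t
      rw [h1]
      field_simp
      ring
    have h3 : -1 * ((‖x‖ ^ 2 - 1) / (1 + ‖x‖ ^ 2)) =
        1 * ((‖(‖x‖ ^ 2)⁻¹ • x‖ ^ 2 - 1) / (1 + ‖(‖x‖ ^ 2)⁻¹ • x‖ ^ 2)) := by
      rw [h1]
      field_simp
      ring
    ext i
    fin_cases i
    · exact h2 _
    · exact h2 _
    · exact h2 _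
    · exact h2 _
    · exact h3

theorem KEm_range (x : S4) : x ∉ range (core kS) ↔ ∃ q, x = plS q := by
  have hc : ∀ l, (core kS l).1 = KEm_m (ex l) 0 := by
    intro l
    show (kS (l, 0)).1 = _
    rw [KEm_kS_coe (x := (l, 0)) (by simp)]
    simp
  constructor
  · intro hx
    by_cases h0 : KEm_w x.1 = 0
    · exfalso
      apply hx
      obtain ⟨l, hl⟩ := ex_polar (KEm_u x.1)
      have h1 : ‖KEm_u x.1‖ = 1 := by
        have := KEm_x x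
        rw [h0, norm_zero] at this
        nlinarith [norm_nonneg (KEm_u x.1)]
      rw [h1, Complex.ofReal_one, one_mul] at hl
      refine ⟨l, ?_⟩
      apply Subtype.ext
      rw [hc, ← hl]
      conv_rhs => rw [← KEm_m_uw x.1, h0]
    · exact ⟨KEm_P x, (KEm_plS_P h0).symm⟩
  · rintro ⟨q, rfl⟩ ⟨l, hl⟩
    apply KEm_w_ne' q
    rw [← hl, hc, KEm_w_m]

theorem KEm_plS_kS (l r : ℝ) (w : S2) (hr : 0 < r) : plS (r * ex l, w) = kS (l, (√(1 + r ^ 2))⁻¹ • w.1) := by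
  have hw : ‖(w : E3)‖ = 1 := norm_eq_of_mem_sphere w
  have hn : ‖(r : ℂ) * ex l‖ = r := by
    rw [norm_mul, KEm_ex_norm, mul_one, Complex.norm_real, Real.norm_of_nonneg hr.le]
  have hs : 0 < √(1 + r ^ 2) := Real.sqrt_pos.2 (by positivity)
  have hs2 : √(1 + r ^ 2) ^ 2 = 1 + r ^ 2 := Real.sq_sqrt (by positivity)
  have hs1 : 1 < √(1 + r ^ 2) := by
    rw [Real.lt_sqrt zero_le_one]
    nlinarith
  have h1 : ‖(√(1 + r ^ 2))⁻¹ • w.1‖ = (√(1 + r ^ 2))⁻¹ := by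
    rw [norm_smul, hw, mul_one, Real.norm_eq_abs, abs_of_pos (inv_pos.2 hs)]
  have h2 : ‖(√(1 + r ^ 2))⁻¹ • w.1‖ < 1 := by
    rw [h1]
    exact inv_lt_one_of_one_lt₀ hs1
  have h3 : √(1 - ((√(1 + r ^ 2))⁻¹) ^ 2) = (√(1 + r ^ 2))⁻¹ * r := by
    have h4 : 1 - ((√(1 + r ^ 2))⁻¹) ^ 2 = ((√(1 + r ^ 2))⁻¹ * r) ^ 2 := by
      rw [mul_pow, inv_pow, hs2]
      have : (1 : ℝ) + r ^ 2 ≠ 0 := by positivity
      field_simp
      ring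
    rw [h4, Real.sqrt_sq (by positivity)]
  apply Subtype.ext
  rw [KEm_plS_coe, KEm_kS_coe (x := (l, (√(1 + r ^ 2))⁻¹ • w.1)) h2]
  show KEm_m (((√(1 + ‖(r : ℂ) * ex l‖ ^ 2))⁻¹ : ℝ) * (r * ex l)) ((√(1 + ‖(r : ℂ) * ex l‖ ^ 2))⁻¹ • w.1) =
    KEm_m ((√(1 - ‖(√(1 + r ^ 2))⁻¹ • w.1‖ ^ 2) : ℝ) * ex l) ((√(1 + r ^ 2))⁻¹ • w.1)
  rw [hn, h1, h3]
  congr 1
  rw [Complex.ofReal_mul]
  ring

end

theorem σ4_kE {x : ℝ × E3} (h : ‖x.2‖ < 1) : σ4 (kE x) = kS x := KEm_σ4_kE h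

theorem σ4_loc (x : E4) : IsLocalDiffeomorphAt (𝓡 4) (𝓡 4) ∞ σ4 x := by
  rw [show σ4 = KEm_st 1 from funext KEm_σ4]
  exact KEm_st_loc KEm_one x

theorem σ4_inj : Function.Injective σ4 := by
  rw [show σ4 = KEm_st 1 from funext KEm_σ4]
  exact KEm_st_inj KEm_one

/-- the inversion extends smoothly by the north pole -/
theorem σ4_pole : ∃ (np : S4) (τ : E4 → S4), (∀ x, σ4 x ≠ np) ∧ (∀ y, y ≠ np → ∃ x, y = σ4 x) ∧ τ 0 = np ∧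
    (∀ x, x ≠ 0 → τ x = σ4 ((‖x‖ ^ 2)⁻¹ • x)) ∧ (∀ x, IsLocalDiffeomorphAt (𝓡 4) (𝓡 4) ∞ τ x) ∧ Function.Injective τ :=
  KEm_pole

theorem kS_thick : Thick kS 1 := KEm_thick'

theorem kE_thick : Thick kE 1 := KEm_kE_thick

theorem kE_bdd {x : ℝ × E3} (h : ‖x.2‖ ≤ 1 / 2) : ‖kE x‖ ≤ 2 := by
  obtain ⟨h1, h2⟩ := KEm_kE_norm (x := x) (by linarith)
  have h3 : ‖x.2‖ ^ 2 = x.2 0 ^ 2 + x.2 1 ^ 2 + x.2 2 ^ 2 := by
    rw [EuclideanSpace.norm_sq_eq]; simp [Fin.sum_univ_three]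
  have h4 : x.2 2 ≤ 1 / 2 := by
    nlinarith [norm_nonneg x.2, sq_nonneg (x.2 0), sq_nonneg (x.2 1)]
  have h5 : (1 + x.2 2) / (1 - x.2 2) ≤ 3 := by
    rw [div_le_iff₀ (by linarith)]
    linarith
  rw [← h2] at h5
  nlinarith [norm_nonneg (kE x)]

theorem plS_loc (q : ℂ × S2) : IsLocalDiffeomorphAt (𝓘(ℝ, ℂ).prod (𝓡 2)) (𝓡 4) ∞ plS q :=
  ⟨KEm_PP, mem_univ _, fun _ _ => rfl⟩

theorem plS_inj : Function.Injective plS := by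
  intro x y h
  rw [← KEm_P_plS x, h, KEm_P_plS]

theorem plS_range (x : S4) : x ∉ range (core kS) ↔ ∃ q, x = plS q := KEm_range x

theorem plS_kS (l r : ℝ) (w : S2) (hr : 0 < r) : plS (r * ex l, w) = kS (l, (√(1 + r ^ 2))⁻¹ • w.1) :=
  KEm_plS_kS l r w hr

end Pool.Agent.LKB
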