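import Pool.Agent.LKB.Uni
import Pool.Agent.LKB.KEm
import Pool.Agent.LKB.BunX
import Pool.Agent.ACB.Gpo
import Pool.Agent.ACB.NFd
import Pool.Agent.ACB.FHm

/-!
# LKB/Nf: normal form of a surgery of a simply connected manifold

PROOF.  `⟨ε, hT, _⟩`: `γ` thick; its core `c` is an embedded circle (`Thick.circ` of ACB, or directly).  `d l = b (kE (l, 0))` is an embedded circle.  `FHom univ c d`: `Nul N`: `c ~ p`, `d ~ q`, path from `p` to `q`.  `gp_iso` (`Z = ∅`): `F : N ≃ₘ N`,
`F (c l) = d l`.  `F ∘ γ` and `b ∘ kE` are thick (of a common radius) with the same core: `ACB.tube_nf` (`U = univ`): `L` and `F'` with `F' (F (γ (l, v))) = (b ∘ kE) (l, L l v)` for small `v`.  `uni_diffeo` (for `F`, then `F'`), `uni_germ`.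

-/

open scoped ContDiff Manifold Topology unitInterval
open Set Filter

namespace Pool.Agent.LKB

open Pool.Agent.ACB

universe u

variable {N : Type u} [TopologicalSpace N] [ChartedSpace E4 N]

theorem Nf_path [PathConnectedSpace N] (p q : N) : FHom (univ : Set (ℝ × N)) (fun _ => p) fun _ => q := by
  obtain ⟨γ⟩ := PathConnectedSpace.joined p q
  refine ⟨fun s _ => γ.extend s, ?_, fun _ _ => rfl, ?_, ?_, fun _ _ => mem_univ _⟩
  · exact γ.continuous_extend.comp continuous_fst
  · funext t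
    exact γ.extend_zero
  · funext t
    exact γ.extend_one

theorem Nf_obst : Obst (∅ : Set N) :=
  ⟨isClosed_empty, 0, fun i => Fin.elim0 i, fun i => Fin.elim0 i, Set.empty_subset _⟩

theorem nf [T2Space N] [IsManifold (𝓡 4) ∞ N] [PathConnectedSpace N] (hN : Nul N) {γ : ℝ × E3 → N} {X : Type*}
    [TopologicalSpace X] [ChartedSpace E4 X] (h : IsSurg (fun _ : Unit => γ) X) {b : E4 → N} {b' : N → E4}
    (hb : IsBall b b') :
    ∃ L, OLoop L ∧ IsSurg (fun _ : Unit => frm (fun x => b (kE x)) L) X := by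
  have h0 := h
  obtain ⟨ε, hT, -⟩ := h0
  have hγ : Thick γ ε := hT.thick ()
  have hk : Thick (fun x => b (kE x)) 1 :=
    thick_comp kE_thick (U := univ) (fun _ _ _ => mem_univ _) (fun x _ => hb.loc x) hb.inj.injOn
  have hc : Circ (core γ) := hγ.circ
  have hd : Circ (core (fun x => b (kE x))) := hk.circ
  have hnul : ∀ {c : ℝ → N}, Circ c → ∃ p : N, FHom univ c fun _ => p := by
    intro c hc
    exact hN c hc.smooth.continuous hc.per
  obtain ⟨p, hp⟩ := hnul hc
  obtain ⟨q, hq⟩ := hnul hd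
  have hcd : FHom univ (core γ) (core (fun x => b (kE x))) := (hp.trans (Nf_path p q)).trans hq.symm
  obtain ⟨F, hF, -⟩ := gp_iso Nf_obst hc hd (fun _ => Set.notMem_empty _) (fun _ => Set.notMem_empty _) hcd
  have hFγ : Thick (fun x => F (γ x)) ε :=
    thick_comp hγ (U := univ) (fun _ _ _ => mem_univ _) (fun x _ => F.isLocalDiffeomorph x)
      F.injective.injOn
  have hm : 0 < min ε 1 := lt_min hγ.pos one_pos
  obtain ⟨L, hL1, hL2, hL3, F', -, δ, hδ, hF'⟩ := tube_nf (hFγ.mono hm (min_le_left _ _))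
    (hk.mono hm (min_le_right _ _)) (funext fun l => hF l) isOpen_univ (fun _ => mem_univ _)
  refine ⟨L, ⟨hL1, hL2, hL3⟩, ?_⟩
  have h1 := uni_diffeo h F
  have h2 := uni_diffeo h1 F'
  refine uni_germ h2 ⟨δ, hδ, ?_⟩
  intro l v hv
  exact (hF' l v hv).symm

end Pool.Agent.LKB
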