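import Pool.Agent.LKB.StN
import Pool.Agent.LKB.Nf
import Pool.Agent.LKB.CsX

/-!
# LKB/Fin: surgeries of `S⁴` are connected sums of sphere bundles
-/

open scoped ContDiff Manifold Topology unitInterval
open Set Filter

namespace Pool.Agent.LKB

open Pool.Agent.ACB

universe u

theorem std_bsum : ∀ (r : ℕ) (M : Mf), Std r M → BSum r M := by
  intro r
  induction r with
  | zero => exact fun M h => h
  | succ r ih =>
    rintro M ⟨N, hN, γ, hγ⟩
    obtain ⟨hn, hp⟩ := std_nul r N hN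
    haveI := hp
    obtain ⟨x⟩ := hp.nonempty
    obtain ⟨b, b', hb, -, -⟩ := exists_ball (N := N.X) x (U := univ) Filter.univ_mem
    obtain ⟨L, hL, hS⟩ := nf hn hγ hb
    obtain ⟨F, hF, ⟨SF⟩⟩ := bun_exists hL
    exact ⟨N, F, ih N hN, ⟨L, hL, hF⟩, csm_small hb hL hS SF⟩

end Pool.Agent.LKB
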