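import Pool.Agent.LKB.Off

/-!
# LKB/NulG: a surgery of a simply connected manifold is simply connected (null-homotopy of closed curves)

PROOF of `nul_surg`.  `⟨ε, hT, ⟨S⟩⟩`.  Let `c` be a closed curve of `X`.  `off_sphere`: `c ~ S.A ∘ c₁`, `c₁` off `Z = range (core γ)` (`Z` is an obstacle: `Obst.range`, `Thick.circ` or directly).  `ACB.closed_curve` (with `W = Z` and
`O = {(t, x) | x ∉ Z}`): an embedded circle `c₂`, `FHom O c₁ c₂`, hence `c ~ S.A ∘ c₂` (`FHom.map`, `S.A` is continuous off `Z`).  Choose a ball `b` (`exists_ball`) in `N - Z` (not empty) and an embedded circle `d` in it (e.g. `b ∘ (small round circle)`;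
the library has such a circle: ACB/InsN or `closed_curve` applied to a constant curve with `O = {(t, x) | x ∈ range b}`).  `Nul N` for `c₂`: `c₂ ~ p`; `d ~ b 0` inside the ball; to join `p` and `b 0` we need a path:
`PathConnectedSpace N`.  So `FHom univ c₂ d`, and `gp_iso` (obstacle `Z`): `F : N ≃ₘ N`, `F (c₂ t) = d t`, `F = id` near `Z`.  `d` is null-homotopic in `range b`, which does not meet `Z`: `K s t ∈ range b`, `K 0 = d`, `K 1 = const`.
`S.A (F.symm (K s t))` is a homotopy from `S.A ∘ c₂` to a constant (`F.symm` maps `N - Z` into itself).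
PROOF of `pc_surg`.  `N - Z` is path connected: let `x, y ∉ Z`, disjoint from `Z` balls `b, b'` around `x, y`.  `N` path connected: a closed curve `h` with `h = x` near `t = 0`, `h = y` near `t = 1/2`.  `closed_curve` with `W = Z`,
`O = {(t, p) | (|t - ⌊t + 1/2⌋| ≤ 1/8 → p ∈ range b) ∧ (.. near 1/2 .. → p ∈ range b')}` (take `O` open: use `|t - n| < 1/8` closed conditions complemented; simplest: `O` = complement of the closed set
`{(t, p) | dist (t, ℤ) ≤ 1/16 ∧ p ∉ range b} ∪ {(t, p) | dist (t, 1/2 + ℤ) ≤ 1/16 ∧ p ∉ range b'}`): a curve off `Z` from a point of `b` to a point of `b'`.  Then `X`: a point is `S.A p` (`p` off `Z`) or `S.Q (0, v)`, which is joined to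
`S.Q (ε/2, v) = S.A (..)` inside `S.Q`.

-/

open scoped ContDiff Manifold Topology unitInterval
open Set Filter

namespace Pool.Agent.LKB

open Pool.Agent.ACB

universe u

variable {N : Type u} [TopologicalSpace N] [ChartedSpace E4 N]

theorem NulG_off {γ : ℝ × E3 → N} {p : N} : Off (fun _ : Unit => γ) p ↔ p ∉ range (core γ) := by
  constructor
  · rintro h ⟨l, rfl⟩
    exact h () l rfl
  · intro h _ l he
    exact h ⟨l, he.symm⟩

theorem NulG_obst [T2Space N] [IsManifold (𝓡 4) ∞ N] {γ : ℝ × E3 → N} {ε : ℝ} (h : Thick γ ε) :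
    Obst (range (core γ)) := Obst.range h.circ.toSCirc

theorem NulG_cont {γ : ℝ × E3 → N} {ε : ℝ} {X : Type*} [TopologicalSpace X] [ChartedSpace E4 X]
    (S : Surg (fun _ : Unit => γ) ε X) : ContinuousOn S.A (range (core γ))ᶜ := fun p hp =>
  (S.A_loc p (NulG_off.2 hp)).contMDiffAt.continuousAt.continuousWithinAt

theorem NulG_opn {U : Set N} (hU : IsOpen U) : OpnS {q : ℝ × N | q.2 ∈ U} :=
  ⟨hU.preimage continuous_snd, fun _ _ => Iff.rfl⟩

theorem nul_surg [T2Space N] [IsManifold (𝓡 4) ∞ N] [PathConnectedSpace N] (hN : Nul N) {γ : ℝ × E3 → N} {X : Type*}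
    [TopologicalSpace X] [ChartedSpace E4 X] [T2Space X] [IsManifold (𝓡 4) ∞ X] (h : IsSurg (fun _ : Unit => γ) X) :
    Nul X := by
  obtain ⟨ε, hT, ⟨S⟩⟩ := h
  have hTh := hT.thick ()
  intro c hc hper
  obtain ⟨c₁, hc₁, hper₁, hoff₁, hom₁⟩ := off_sphere hTh S hc hper
  have hZ := NulG_obst hTh
  have hZo : IsOpen (range (core γ))ᶜ := hZ.1.isOpen_compl
  obtain ⟨c₂, hc₂, hoff₂, hom₂⟩ := closed_curve hc₁ hper₁ hZ (NulG_opn hZo) hoff₁
  have hset : {x : N | ∃ t : ℝ, (t, x) ∈ {q : ℝ × N | q.2 ∈ (range (core γ))ᶜ}} ⊆ (range (core γ))ᶜ := by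
    rintro x ⟨t, ht⟩
    exact ht
  have hom₃ : FHom univ (fun t => S.A (c₁ t)) fun t => S.A (c₂ t) :=
    hom₂.map ((NulG_cont S).mono hset) fun _ _ _ => mem_univ _
  obtain ⟨b, b', hb, hb0, hbr⟩ := exists_ball (c₂ 0) (hZo.mem_nhds (hoff₂ 0))
  obtain ⟨d, hd, hoffd, homd⟩ := closed_curve (h := fun _ : ℝ => c₂ 0) continuous_const (fun _ => rfl) hZ
    (NulG_opn hb.isOpen) (fun _ => ⟨0, hb0⟩)
  obtain ⟨p, homp⟩ := hN c₂ hc₂.smooth.continuous hc₂.per
  have homq : FHom univ (fun _ : ℝ => c₂ 0) fun _ => p := by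
    obtain ⟨K, k1, k2, k3, k4, -⟩ := homp
    refine ⟨fun s _ => K s 0, k1.comp (continuous_fst.prodMk continuous_const), fun _ _ => rfl, ?_, ?_,
      fun _ _ => mem_univ _⟩
    · funext t
      show K 0 0 = c₂ 0
      rw [k3]
    · funext t
      show K 1 0 = p
      rw [k4]
  have homcd : FHom univ c₂ d := (homp.trans homq.symm).trans (homd.mono (subset_univ _))
  obtain ⟨F, hF1, V, hV, hZV, hFV⟩ := gp_iso hZ hc₂ hd hoff₂ hoffd homcd
  have hFs : ∀ y, y ∉ range (core γ) → F.symm y ∉ range (core γ) := by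
    intro y hy hc
    have h1 := hFV _ (hZV hc)
    rw [F.apply_symm_apply] at h1
    rw [← h1] at hc
    exact hy hc
  have hset2 : {x : N | ∃ t : ℝ, (t, x) ∈ {q : ℝ × N | q.2 ∈ range b}} ⊆ (range (core γ))ᶜ := by
    rintro x ⟨t, ht⟩
    exact hbr ht
  have hcont : ContinuousOn (fun y => S.A (F.symm y)) (range (core γ))ᶜ := by
    refine (NulG_cont S).comp F.symm.continuous.continuousOn ?_
    intro y hy
    exact hFs y hy
  have hom₄ : FHom univ (fun _ : ℝ => S.A (F.symm (c₂ 0))) fun t => S.A (F.symm (d t)) :=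
    homd.map (f := fun y => S.A (F.symm y)) (hcont.mono hset2) fun _ _ _ => mem_univ _
  have he : (fun t => S.A (F.symm (d t))) = fun t => S.A (c₂ t) := by
    funext t
    rw [← hF1, F.symm_apply_apply]
  rw [he] at hom₄
  exact ⟨_, (hom₁.trans hom₃).trans hom₄.symm⟩

/-- two points of a ball are joined in the ball -/
theorem NulG_ball {b : E4 → N} {b' : N → E4} (hb : IsBall b b') {x y : N} (hx : x ∈ range b) (hy : y ∈ range b) :
    JoinedIn (range b) x y := by
  have h1 : IsPathConnected (b '' univ) := isPathConnected_univ.image hb.cont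
  rw [image_univ] at h1
  exact h1.joinedIn x hx y hy

/-- the complement of the circle is path connected -/
theorem NulG_compl [T2Space N] [IsManifold (𝓡 4) ∞ N] [PathConnectedSpace N] {Z : Set N} (hZ : Obst Z) {x y : N}
    (hx : x ∉ Z) (hy : y ∉ Z) : JoinedIn Zᶜ x y := by
  have hZo : IsOpen Zᶜ := hZ.1.isOpen_compl
  obtain ⟨b, b₁, hb, hb0, hbr⟩ := exists_ball x (hZo.mem_nhds hx)
  obtain ⟨a, a₁, ha, ha0, har⟩ := exists_ball y (hZo.mem_nhds hy)
  have p : Path x y := (PathConnectedSpace.joined x y).somePath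
  set h : ℝ → N := fun t => p.extend (1 / 2 - Real.cos (2 * Real.pi * t)) with hh
  have hcont : Continuous h := by
    refine p.continuous_extend.comp ?_
    fun_prop
  have hcos : ∀ t : ℝ, Real.cos (2 * Real.pi * (t + 1)) = Real.cos (2 * Real.pi * t) := by
    intro t
    rw [mul_add, mul_one, Real.cos_add_two_pi]
  have hper : ∀ t, h (t + 1) = h t := by
    intro t
    simp only [hh, hcos]
  set O : Set (ℝ × N) := {q | (3 / 4 ≤ Real.cos (2 * Real.pi * q.1) → q.2 ∈ range b) ∧
    (Real.cos (2 * Real.pi * q.1) ≤ -(3 / 4) → q.2 ∈ range a)} with hO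
  have hOO : OpnS O := by
    constructor
    · have e : O = ({q : ℝ × N | Real.cos (2 * Real.pi * q.1) < 3 / 4} ∪ {q | q.2 ∈ range b}) ∩
          ({q : ℝ × N | -(3 / 4) < Real.cos (2 * Real.pi * q.1)} ∪ {q | q.2 ∈ range a}) := by
        ext q
        constructor
        · rintro ⟨h1, h2⟩
          refine ⟨?_, ?_⟩
          · rcases lt_or_ge (Real.cos (2 * Real.pi * q.1)) (3 / 4) with h3 | h3
            · exact Or.inl h3
            · exact Or.inr (h1 h3)
          · rcases lt_or_ge (-(3 / 4)) (Real.cos (2 * Real.pi * q.1)) with h3 | h3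
            · exact Or.inl h3
            · exact Or.inr (h2 h3)
        · rintro ⟨h1, h2⟩
          refine ⟨fun h3 => ?_, fun h3 => ?_⟩
          · rcases h1 with h1 | h1
            · exact absurd h1 (not_lt.2 h3)
            · exact h1
          · rcases h2 with h2 | h2
            · exact absurd h2 (not_lt.2 h3)
            · exact h2
      rw [e]
      have hco : Continuous fun q : ℝ × N => Real.cos (2 * Real.pi * q.1) := by fun_prop
      exact ((isOpen_lt hco continuous_const).union (hb.isOpen.preimage continuous_snd)).inter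
        ((isOpen_lt continuous_const hco).union (ha.isOpen.preimage continuous_snd))
    · intro t z
      show ((3 / 4 ≤ Real.cos (2 * Real.pi * (t + 1)) → z ∈ range b) ∧
        (Real.cos (2 * Real.pi * (t + 1)) ≤ -(3 / 4) → z ∈ range a)) ↔
        ((3 / 4 ≤ Real.cos (2 * Real.pi * t) → z ∈ range b) ∧
        (Real.cos (2 * Real.pi * t) ≤ -(3 / 4) → z ∈ range a))
      rw [hcos]
  have hhO : ∀ t, (t, h t) ∈ O := by
    intro t
    refine ⟨fun h1 => ?_, fun h1 => ?_⟩
    · have h2 : h t = x := p.extend_of_le_zero (by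
        change 3 / 4 ≤ Real.cos (2 * Real.pi * t) at h1
        linarith)
      show h t ∈ range b
      rw [h2]
      exact ⟨0, hb0⟩
    · have h2 : h t = y := p.extend_of_one_le (by
        change Real.cos (2 * Real.pi * t) ≤ -(3 / 4) at h1
        linarith)
      show h t ∈ range a
      rw [h2]
      exact ⟨0, ha0⟩
  obtain ⟨c, hc, hcZ, hom⟩ := closed_curve hcont hper hZ hOO hhO
  have h0 : c 0 ∈ range b := (hom.right 0).1 (by norm_num)
  have h1 : c (1 / 2) ∈ range a := (hom.right (1 / 2)).2 (by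
    show Real.cos (2 * Real.pi * (1 / 2)) ≤ -(3 / 4)
    have : 2 * Real.pi * (1 / 2) = Real.pi := by ring
    rw [this, Real.cos_pi]
    norm_num)
  have j1 : JoinedIn Zᶜ x (c 0) := (NulG_ball hb ⟨0, hb0⟩ h0).mono hbr
  have j3 : JoinedIn Zᶜ (c (1 / 2)) y := (NulG_ball ha h1 ⟨0, ha0⟩).mono har
  have j2 : JoinedIn Zᶜ (c 0) (c (1 / 2)) := by
    have h2 : IsPathConnected (c '' univ) := isPathConnected_univ.image hc.smooth.continuous
    refine (h2.joinedIn (c 0) ⟨0, mem_univ _, rfl⟩ (c (1 / 2)) ⟨1 / 2, mem_univ _, rfl⟩).mono ?_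
    rintro _ ⟨t, -, rfl⟩
    exact hcZ t
  exact (j1.trans j2).trans j3

theorem pc_surg [T2Space N] [IsManifold (𝓡 4) ∞ N] [PathConnectedSpace N] {γ : ℝ × E3 → N} {X : Type*}
    [TopologicalSpace X] [ChartedSpace E4 X] (h : IsSurg (fun _ : Unit => γ) X) : PathConnectedSpace X := by
  obtain ⟨ε, hT, ⟨S⟩⟩ := h
  have hTh := hT.thick ()
  have hε := hTh.pos
  have hZ := NulG_obst hTh
  -- points of the tube
  have hpt : ∀ v : S2, γ (0, (ε / 2) • v.1) ∉ range (core γ) := by
    rintro v ⟨l, hl⟩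
    have hv : ‖v.1‖ = 1 := by simpa using v.2
    have hl : γ (l, 0) = γ (0, (ε / 2) • v.1) := hl
    have h1 := hTh.inj l 0 0 ((ε / 2) • v.1) (by simpa using hε) (by
      rw [norm_smul, hv, mul_one, Real.norm_of_nonneg (by linarith)]
      linarith) hl
    have h2 := congrArg norm h1.1
    rw [norm_zero, norm_smul, hv, mul_one, Real.norm_of_nonneg (by linarith)] at h2
    linarith
  obtain ⟨v₀⟩ : Nonempty S2 := by
    refine ⟨⟨EuclideanSpace.single 0 1, ?_⟩⟩
    simp
  have hx := hpt v₀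
  have hA : ∀ p, p ∉ range (core γ) → Joined (S.A (γ (0, (ε / 2) • v₀.1))) (S.A p) := by
    intro p hp
    have hpc : IsPathConnected (range (core γ))ᶜ :=
      ⟨γ (0, (ε / 2) • v₀.1), hx, fun {y} hy => NulG_compl hZ hx hy⟩
    have h2 := hpc.image' (NulG_cont S)
    exact (h2.joinedIn _ ⟨_, hx, rfl⟩ _ ⟨p, hp, rfl⟩).joined
  rw [pathConnectedSpace_iff_univ]
  refine ⟨S.A (γ (0, (ε / 2) • v₀.1)), mem_univ _, fun {q} _ => ?_⟩
  rw [joinedIn_univ]
  rcases S.cover q with ⟨p, h1, rfl⟩ | ⟨⟨⟩, v, rfl⟩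
  · exact hA p (NulG_off.1 h1)
  · have h2 : S.Q () (((ε / 2 : ℝ) : ℂ) * ex 0, v) = S.A (γ (0, (ε / 2) • v.1)) :=
      S.glue () 0 (ε / 2) v (by linarith) (by linarith)
    have hex : ex 0 = 1 := by simp [ex]
    rw [hex, mul_one] at h2
    have hcon : ContinuousOn (fun s : ℝ => S.Q () (((s * (ε / 2) : ℝ) : ℂ), v)) (Icc 0 1) := by
      intro s hs
      have h3 : ContinuousAt (S.Q ()) (((s * (ε / 2) : ℝ) : ℂ), v) := by
        refine (S.Q_loc () _ v ?_).contMDiffAt.continuousAt
        rw [Complex.norm_real, Real.norm_of_nonneg (by nlinarith [hs.1])]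
        nlinarith [hs.2]
      have h4 : ContinuousAt (fun s : ℝ => ((((s * (ε / 2) : ℝ) : ℂ), v) : ℂ × S2)) s := by fun_prop
      exact (ContinuousAt.comp (g := S.Q ()) (f := fun s : ℝ => ((((s * (ε / 2) : ℝ) : ℂ), v) : ℂ × S2)) h3 h4).continuousWithinAt
    have h5 : IsPathConnected ((fun s : ℝ => S.Q () (((s * (ε / 2) : ℝ) : ℂ), v)) '' Icc (0 : ℝ) 1) :=
      ((convex_Icc (0 : ℝ) 1).isPathConnected ⟨0, by simp⟩).image' hcon
    have h6 : Joined (S.Q () (((ε / 2 : ℝ) : ℂ), v)) (S.Q () (0, v)) := by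
      refine (h5.joinedIn _ ⟨1, by simp, ?_⟩ _ ⟨0, by simp, ?_⟩).joined
      · simp
      · simp
    rw [h2] at h6
    exact (hA _ (hpt v)).trans h6

end Pool.Agent.LKB
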