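import Pool.Agent.LKB.Defs
import Pool.Agent.ACB.Smo
import Pool.Agent.ACB.Tbe
import Pool.Agent.ACB.FHm
import Pool.Agent.ACB.Gpo

/-!
# LKB/Off: closed curves can be moved off the belt sphere

PROOF.  `ACB.smoothing` (`O = univ`): `c` is homotopic to a smooth closed curve `g`.  `Q = S.Q ()` is injective and a local diffeomorphism on `{‖z‖ < ε}` (injectivity: `z = r ex l ≠ 0`: `S.glue`, `S.A_inj`,
`h.inj`, `ex_inj`; `S.disj` separates `z = 0`).  `Ω = {t | g t ∈ Q '' {‖z‖ < ε}}` is open and on `Ω` `g t = Q (z t, v t)` with `z, v` smooth.  The image of `Ω` under the smooth map `z : Ω → ℂ` has measure zero (a smooth curve in a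
plane; `MeasureTheory.addHaar_image_eq_zero_of_det_fderiv_eq_zero`, or cover by countably many intervals; the library has such lemmas: ACB.Thn / GpZ, `ContDiff.dense_compl_range_of_finrank_lt_finrank`), so there is `w`, `‖w‖ < ε / 4`,
with `z t ≠ -w` for all `t ∈ Ω`.  `χ : ℝ → ℝ` smooth, `χ = 1` for `x ≤ ε / 2`, `χ = 0` for `x ≥ 3 ε / 4`, `0 ≤ χ ≤ 1`.  `g_s t = Q (z t + s χ (‖z t‖) w, v t)` for `t ∈ Ω`, `g t` otherwise, `s ∈ [0, 1]`: continuous (near a point where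
`g t ∉ Q '' {‖z‖ ≤ 3 ε / 4}`, which is a compact set, `g_s = g`), closed, `‖z + s χ w‖ < ε`.  `g_1` does not meet `Q '' {z = 0}`: if `‖z t‖ ≤ ε / 2` `z t + w ≠ 0`; otherwise `‖w‖ < ε / 4 < ‖z t‖`.
So every `g_1 t` is `S.A p`, `p` off the core (`S.cover`), and `c'' t = p` is continuous (`S.A` is a homeomorphism from the complement of the core onto an open set).

-/

open scoped ContDiff Manifold Topology unitInterval
open Set Filter

namespace Pool.Agent.LKB

open Pool.Agent.ACB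

universe u

variable {N : Type u} [TopologicalSpace N] [ChartedSpace E4 N]

/-- a left inverse of a local diffeomorphism on an open set is smooth -/
theorem Off_inv {E H : Type*} [NormedAddCommGroup E] [NormedSpace ℝ E] [TopologicalSpace H]
    {J : ModelWithCorners ℝ E H} {M M' : Type*} [TopologicalSpace M] [ChartedSpace H M] [TopologicalSpace M']
    [ChartedSpace E4 M'] {f : M → M'} {C : Set M} (hC : IsOpen C)
    (hf : ∀ x ∈ C, IsLocalDiffeomorphAt J (𝓡 4) ∞ f x) {R : M' → M} (hR : ∀ x ∈ C, R (f x) = x)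
    {x : M} (hx : x ∈ C) : ContMDiffAt (𝓡 4) J ∞ R (f x) := by
  obtain ⟨Φ, hxΦ, he⟩ := hf x hx
  have h0 : f x = Φ.toPartialEquiv x := he hxΦ
  have ht : f x ∈ Φ.target := by
    rw [h0]
    exact Φ.map_source hxΦ
  have h2 : ContMDiffAt (𝓡 4) J ∞ Φ.symm (f x) := Φ.contMDiffOn_invFun.contMDiffAt (Φ.open_target.mem_nhds ht)
  refine h2.congr_of_eventuallyEq ?_
  have h1 : IsOpen (Φ.toOpenPartialHomeomorph '' (Φ.toOpenPartialHomeomorph.source ∩ C)) :=
    Φ.toOpenPartialHomeomorph.isOpen_image_source_inter hC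
  refine mem_of_superset (h1.mem_nhds ⟨x, ⟨hxΦ, hx⟩, h0.symm⟩) ?_
  rintro _ ⟨y, ⟨hy, hyC⟩, rfl⟩
  show R (Φ.toPartialEquiv y) = Φ.toPartialEquiv.symm (Φ.toPartialEquiv y)
  have h3 : Φ.toPartialEquiv.symm (Φ.toPartialEquiv y) = y := Φ.left_inv hy
  have h4 : Φ.toPartialEquiv y = f y := (he hy).symm
  rw [h3, h4, hR y hyC]

theorem Off_open {E H : Type*} [NormedAddCommGroup E] [NormedSpace ℝ E] [TopologicalSpace H]
    {J : ModelWithCorners ℝ E H} {M M' : Type*} [TopologicalSpace M] [ChartedSpace H M] [TopologicalSpace M']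
    [ChartedSpace E4 M'] {f : M → M'} {C : Set M} (hC : IsOpen C)
    (hf : ∀ x ∈ C, IsLocalDiffeomorphAt J (𝓡 4) ∞ f x) : IsOpen (f '' C) := by
  rw [isOpen_iff_mem_nhds]
  rintro _ ⟨x, hx, rfl⟩
  obtain ⟨Φ, hxΦ, he⟩ := hf x hx
  have h1 : IsOpen (Φ.toOpenPartialHomeomorph '' (Φ.toOpenPartialHomeomorph.source ∩ C)) :=
    Φ.toOpenPartialHomeomorph.isOpen_image_source_inter hC
  refine mem_of_superset (h1.mem_nhds ⟨x, ⟨hxΦ, hx⟩, ?_⟩) ?_
  · exact (he hxΦ).symm
  · rintro _ ⟨y, ⟨hy, hyC⟩, rfl⟩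
    exact ⟨y, hyC, he hy⟩

theorem Off_ex_int (l : ℝ) (m : ℤ) : ex (l + m) = ex l := by
  unfold ex
  have h : ((2 * Real.pi * (l + m) : ℝ) : ℂ) * Complex.I =
      ((2 * Real.pi * l : ℝ) : ℂ) * Complex.I + (m : ℂ) * (2 * Real.pi * Complex.I) := by
    push_cast
    ring
  rw [h, Complex.exp_add, Complex.exp_int_mul_two_pi_mul_I, mul_one]

theorem Off_norm_smul {r : ℝ} (hr : 0 ≤ r) (v : S2) : ‖r • v.1‖ = r := by
  have h : ‖v.1‖ = 1 := by simp
  rw [norm_smul, h, mul_one, Real.norm_eq_abs, abs_of_nonneg hr]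

theorem Off_off {γ : ℝ × E3 → N} {ε : ℝ} (h : Thick γ ε) (l : ℝ) {r : ℝ} (h0 : 0 < r) (h1 : r < ε) (v : S2) :
    Off (fun _ : Unit => γ) (γ (l, r • v.1)) := by
  intro _ l' he
  have h2 := (h.inj l (r • v.1) l' 0 (by rw [Off_norm_smul h0.le]; exact h1) (by rw [norm_zero]; exact h.pos) he).1
  have h3 := Off_norm_smul h0.le v
  rw [h2, norm_zero] at h3
  linarith

theorem Off_Q_inj {γ : ℝ × E3 → N} {ε : ℝ} (h : Thick γ ε) {X : Type*} [TopologicalSpace X]
    [ChartedSpace E4 X] (S : Surg (fun _ : Unit => γ) ε X) {q q' : ℂ × S2} (hq : ‖q.1‖ < ε) (hq' : ‖q'.1‖ < ε)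
    (he : S.Q () q = S.Q () q') : q = q' := by
  obtain ⟨z, v⟩ := q
  obtain ⟨z', v'⟩ := q'
  have hz : ‖z‖ < ε := hq
  have hz' : ‖z'‖ < ε := hq'
  have key : ∀ (z : ℂ) (v : S2), z ≠ 0 → ‖z‖ < ε → ∃ l, z = ‖z‖ * ex l ∧
      S.Q () (z, v) = S.A (γ (l, ‖z‖ • v.1)) := by
    intro z v h0 h1
    obtain ⟨l, hl⟩ := ex_polar z
    refine ⟨l, hl, ?_⟩
    rw [← S.glue () l ‖z‖ v (norm_pos_iff.mpr h0) h1, ← hl]
  by_cases h0 : z = 0
  · by_cases h0' : z' = 0
    · subst h0 h0'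
      rw [(S.Q_inj () () v v' he).2]
    · obtain ⟨l', hl', hA⟩ := key z' v' h0' hz'
      subst h0
      rw [hA] at he
      exact absurd he (S.disj () v _ (Off_off h l' (norm_pos_iff.mpr h0') hz' v'))
  · by_cases h0' : z' = 0
    · obtain ⟨l, hl, hA⟩ := key z v h0 hz
      subst h0'
      rw [hA] at he
      exact absurd he.symm (S.disj () v' _ (Off_off h l (norm_pos_iff.mpr h0) hz v))
    · obtain ⟨l, hl, hA⟩ := key z v h0 hz
      obtain ⟨l', hl', hA'⟩ := key z' v' h0' hz'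
      rw [hA, hA'] at he
      have h1 := S.A_inj _ _ (Off_off h l (norm_pos_iff.mpr h0) hz v)
        (Off_off h l' (norm_pos_iff.mpr h0') hz' v') he
      obtain ⟨h2, m, hm⟩ := h.inj l _ l' _ (by rw [Off_norm_smul (norm_nonneg _)]; exact hz)
        (by rw [Off_norm_smul (norm_nonneg _)]; exact hz') h1
      have h3 : ‖z‖ = ‖z'‖ := by
        rw [← Off_norm_smul (norm_nonneg z) v, h2, Off_norm_smul (norm_nonneg _)]
      have h4 : v = v' := by
        rw [h3] at h2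
        exact Subtype.ext (smul_right_injective _ (norm_ne_zero_iff.mpr h0') h2)
      have h5 : z = z' := by
        rw [hl, hl', hm, Off_ex_int, h3]
      rw [h4, h5]

theorem off_sphere [T2Space N] {γ : ℝ × E3 → N} {ε : ℝ} (h : Thick γ ε) {X : Type*} [TopologicalSpace X]
    [ChartedSpace E4 X] [T2Space X] [IsManifold (𝓡 4) ∞ X] (S : Surg (fun _ : Unit => γ) ε X) {c : ℝ → X}
    (hc : Continuous c) (hper : ∀ t, c (t + 1) = c t) :
    ∃ c'' : ℝ → N, Continuous c'' ∧ (∀ t, c'' (t + 1) = c'' t) ∧ (∀ t, c'' t ∉ range (core γ)) ∧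
      FHom univ c fun t => S.A (c'' t) := by
  classical
  have hpos := h.pos
  obtain ⟨g, hg, hcg⟩ := smoothing hc hper (O := univ) ⟨isOpen_univ, fun _ _ => by simp⟩ fun _ => mem_univ _
  let Q := S.Q ()
  let U : Set (ℂ × S2) := {q | ‖q.1‖ < ε}
  have hU : IsOpen U := isOpen_lt (continuous_norm.comp continuous_fst) continuous_const
  have hQl : ∀ q ∈ U, IsLocalDiffeomorphAt (𝓘(ℝ, ℂ).prod (𝓡 2)) (𝓡 4) ∞ Q q := by
    rintro ⟨z, v⟩ hq
    exact S.Q_loc () z v hq
  have hQi : InjOn Q U := fun q hq q' hq' he => Off_Q_inj h S hq hq' he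
  let v₀ : S2 := ⟨EuclideanSpace.single 0 1, by simp⟩
  have : Nonempty (ℂ × S2) := ⟨(0, v₀)⟩
  let R : X → ℂ × S2 := Function.invFunOn Q U
  have hR : ∀ q ∈ U, R (Q q) = q := fun q hq => hQi.leftInvOn_invFunOn hq
  have hQU : IsOpen (Q '' U) := Off_open hU hQl
  have hRs : ∀ x ∈ Q '' U, ContMDiffAt (𝓡 4) (𝓘(ℝ, ℂ).prod (𝓡 2)) ∞ R x := by
    rintro _ ⟨q, hq, rfl⟩
    exact Off_inv hU hQl hR hq
  have hRm : ∀ x ∈ Q '' U, R x ∈ U ∧ Q (R x) = x := by
    rintro _ ⟨q, hq, rfl⟩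
    rw [hR q hq]
    exact ⟨hq, rfl⟩
  -- the projection to the plane misses a small vector
  let Ω : Set ℝ := g ⁻¹' (Q '' U)
  have hdim : dimH ((fun t => (R (g t)).1) '' Ω) < Module.finrank ℝ ℂ := by
    have h1 : dimH ((fun t => (R (g t)).1) '' Ω) ≤ dimH Ω := by
      apply dimH_image_le_of_locally_lipschitzOn
      intro t ht
      have h2 : ContMDiffAt 𝓘(ℝ, ℝ) (𝓘(ℝ, ℂ).prod (𝓡 2)) ∞ (fun t => R (g t)) t :=
        (hRs _ ht).comp t hg.smooth.contMDiffAt
      have h3 : ContMDiffAt 𝓘(ℝ, ℝ) 𝓘(ℝ, ℂ) ∞ (fun t => (R (g t)).1) t := h2.fst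
      have h4 : ContDiffAt ℝ 1 (fun t => (R (g t)).1) t :=
        (contMDiffAt_iff_contDiffAt.mp h3).of_le (by simp)
      obtain ⟨K, s, hs, hK⟩ := h4.exists_lipschitzOnWith
      exact ⟨K, s, mem_nhdsWithin_of_mem_nhds hs, hK⟩
    have h2 : dimH Ω ≤ 1 := by
      calc dimH Ω ≤ dimH (univ : Set ℝ) := dimH_mono (subset_univ _)
        _ = 1 := Real.dimH_univ
    refine lt_of_le_of_lt (h1.trans h2) ?_
    rw [Complex.finrank_real_complex]
    norm_num
  have hdense := dense_compl_of_dimH_lt_finrank hdim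
  obtain ⟨w', hw'1, hw'2⟩ := hdense.exists_dist_lt 0 (show (0 : ℝ) < ε / 4 by linarith)
  obtain ⟨w, hw⟩ : ∃ w : ℂ, w = -w' := ⟨_, rfl⟩
  have hwn : ‖w‖ < ε / 4 := by
    rw [hw, norm_neg]
    simpa using hw'2
  have hwm : ∀ t ∈ Ω, (R (g t)).1 + w ≠ 0 := by
    intro t ht h0
    refine hw'1 ⟨t, ht, ?_⟩
    show (R (g t)).1 = w'
    rw [hw] at h0
    exact sub_eq_zero.mp (by rw [sub_eq_add_neg]; exact h0)
  -- the cutoff
  let χ : ℝ → ℝ := fun r => max 0 (min 1 (3 - 4 * r / ε))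
  have hχc : Continuous χ := by fun_prop
  have hχ0 : ∀ r, 0 ≤ χ r := fun r => le_max_left _ _
  have hχ1 : ∀ r, χ r ≤ 1 := fun r => max_le zero_le_one (min_le_left _ _)
  have hχa : ∀ r, r ≤ ε / 2 → χ r = 1 := by
    intro r hr
    have h1 : 4 * r / ε ≤ 2 := by
      rw [div_le_iff₀ hpos]
      linarith
    show max 0 (min 1 (3 - 4 * r / ε)) = 1
    rw [min_eq_left (by linarith), max_eq_right zero_le_one]
  have hχb : ∀ r, 3 * ε / 4 ≤ r → χ r = 0 := by
    intro r hr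
    have h1 : 3 ≤ 4 * r / ε := by
      rw [le_div_iff₀ hpos]
      linarith
    show max 0 (min 1 (3 - 4 * r / ε)) = 0
    exact max_eq_left ((min_le_right _ _).trans (by linarith))
  let cl : ℝ → ℝ := fun s => max 0 (min 1 s)
  have hclc : Continuous cl := by fun_prop
  have hcl0 : ∀ s, 0 ≤ cl s := fun s => le_max_left _ _
  have hcl1 : ∀ s, cl s ≤ 1 := fun s => max_le zero_le_one (min_le_left _ _)
  -- the deformation
  let D : ℝ × (ℂ × S2) → ℂ × S2 := fun x => (x.2.1 + ((cl x.1 * χ ‖x.2.1‖ : ℝ) : ℂ) * w, x.2.2)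
  have hDc : Continuous D := by fun_prop
  have hDU : ∀ s, ∀ q ∈ U, D (s, q) ∈ U := by
    rintro s ⟨z, v⟩ hq
    have hz : ‖z‖ < ε := hq
    show ‖z + ((cl s * χ ‖z‖ : ℝ) : ℂ) * w‖ < ε
    by_cases hc : 3 * ε / 4 ≤ ‖z‖
    · rw [hχb _ hc, mul_zero, Complex.ofReal_zero, zero_mul, add_zero]
      exact hz
    · push Not at hc
      have h1 : ‖((cl s * χ ‖z‖ : ℝ) : ℂ) * w‖ ≤ ‖w‖ := by
        rw [norm_mul, Complex.norm_real, Real.norm_eq_abs, abs_of_nonneg (mul_nonneg (hcl0 _) (hχ0 _))]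
        exact mul_le_of_le_one_left (norm_nonneg _) (mul_le_one₀ (hcl1 _) (hχ0 _) (hχ1 _))
      calc ‖z + ((cl s * χ ‖z‖ : ℝ) : ℂ) * w‖ ≤ ‖z‖ + ‖((cl s * χ ‖z‖ : ℝ) : ℂ) * w‖ := norm_add_le _ _
        _ < ε := by linarith
  let F : ℝ × X → X := fun x => if x.2 ∈ Q '' U then Q (D (x.1, R x.2)) else x.2
  have hF1 : ∀ s, ∀ x ∈ Q '' U, F (s, x) = Q (D (s, R x)) := fun s x hx => if_pos hx
  have hF2 : ∀ s, ∀ x, x ∉ Q '' U → F (s, x) = x := fun s x hx => if_neg hx
  let K : Set X := Q '' (Metric.closedBall 0 (3 * ε / 4) ×ˢ univ)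
  have hKU : (Metric.closedBall (0 : ℂ) (3 * ε / 4) ×ˢ (univ : Set S2)) ⊆ U := by
    rintro ⟨z, v⟩ ⟨hz, -⟩
    have h1 : ‖z‖ ≤ 3 * ε / 4 := by simpa using hz
    show ‖z‖ < ε
    linarith
  have hK : IsCompact K := by
    refine ((isCompact_closedBall _ _).prod isCompact_univ).image_of_continuousOn ?_
    intro q hq
    exact (hQl q (hKU hq)).contMDiffAt.continuousAt.continuousWithinAt
  have hF3 : ∀ s, ∀ x, x ∉ K → F (s, x) = x := by
    intro s x hx
    by_cases hxU : x ∈ Q '' U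
    · rw [hF1 s x hxU]
      obtain ⟨h1, h2⟩ := hRm x hxU
      have h3 : 3 * ε / 4 ≤ ‖(R x).1‖ := by
        by_contra hcon
        push Not at hcon
        refine hx ⟨R x, ⟨?_, mem_univ _⟩, h2⟩
        simpa using hcon.le
      have h4 : D (s, R x) = R x := by
        show ((R x).1 + ((cl s * χ ‖(R x).1‖ : ℝ) : ℂ) * w, (R x).2) = R x
        rw [hχb _ h3, mul_zero, Complex.ofReal_zero, zero_mul, add_zero]
      rw [h4, h2]
    · exact hF2 s x hxU
  have hFc : Continuous F := by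
    rw [continuous_iff_continuousAt]
    rintro ⟨s, x⟩
    by_cases hx : x ∈ Q '' U
    · have h1 : F =ᶠ[𝓝 (s, x)] fun y => Q (D (y.1, R y.2)) := by
        filter_upwards [(hQU.preimage continuous_snd).mem_nhds (show (s, x) ∈ Prod.snd ⁻¹' (Q '' U) from hx)]
          with y hy
        exact hF1 y.1 y.2 hy
      refine ContinuousAt.congr ?_ h1.symm
      have h2 : ContinuousAt Q (D (s, R x)) :=
        (hQl _ (hDU s _ (hRm x hx).1)).contMDiffAt.continuousAt
      have h3 : ContinuousAt (fun y : ℝ × X => D (y.1, R y.2)) (s, x) := by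
        refine hDc.continuousAt.comp (f := fun y : ℝ × X => (y.1, R y.2)) ?_
        refine continuousAt_fst.prodMk ?_
        exact ContinuousAt.comp (g := R) (f := Prod.snd) (hRs x hx).continuousAt continuousAt_snd
      exact ContinuousAt.comp (g := Q) (f := fun y : ℝ × X => D (y.1, R y.2)) h2 h3
    · have hxK : x ∉ K := fun hK' => hx (image_mono hKU hK')
      have h1 : F =ᶠ[𝓝 (s, x)] Prod.snd := by
        filter_upwards [(hK.isClosed.isOpen_compl.preimage continuous_snd).mem_nhds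
          (show (s, x) ∈ Prod.snd ⁻¹' Kᶜ from hxK)] with y hy
        exact hF3 y.1 y.2 hy
      exact continuousAt_snd.congr h1.symm
  -- the end of the deformation is off the sphere
  have hcl_1 : cl 1 = 1 := by simp [cl]
  have hcl_0 : cl 0 = 0 := by simp [cl]
  have hoff : ∀ t (v : S2), F (1, g t) ≠ Q (0, v) := by
    intro t v he
    have h00 : ((0 : ℂ), v) ∈ U := by
      show ‖(0 : ℂ)‖ < ε
      rw [norm_zero]
      exact hpos
    by_cases ht : g t ∈ Q '' U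
    · rw [hF1 1 _ ht] at he
      have h1 := hQi (hDU 1 _ (hRm _ ht).1) h00 he
      have h2 : (R (g t)).1 + ((cl 1 * χ ‖(R (g t)).1‖ : ℝ) : ℂ) * w = 0 := congrArg Prod.fst h1
      rw [hcl_1, one_mul] at h2
      by_cases hc : ‖(R (g t)).1‖ ≤ ε / 2
      · rw [hχa _ hc, Complex.ofReal_one, one_mul] at h2
        exact hwm t ht h2
      · push Not at hc
        have h3 : (R (g t)).1 = -(((χ ‖(R (g t)).1‖ : ℝ) : ℂ) * w) := eq_neg_of_add_eq_zero_left h2
        have h4 : ‖(R (g t)).1‖ ≤ ‖w‖ := by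
          conv_lhs => rw [h3]
          rw [norm_neg, norm_mul, Complex.norm_real, Real.norm_eq_abs, abs_of_nonneg (hχ0 _)]
          exact mul_le_of_le_one_left (norm_nonneg _) (hχ1 _)
        linarith
    · rw [hF2 1 _ ht] at he
      exact ht ⟨_, h00, he.symm⟩
  have hA : ∀ t, ∃ p, Off (fun _ : Unit => γ) p ∧ F (1, g t) = S.A p := by
    intro t
    rcases S.cover (F (1, g t)) with h1 | ⟨_, v, h1⟩
    · exact h1
    · exact absurd h1 (hoff t v)
  choose c'' hc1 hc2 using hA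
  have hOffo : IsOpen {p | Off (fun _ : Unit => γ) p} := by
    have h1 : {p | Off (fun _ : Unit => γ) p} = (range (core γ))ᶜ := by
      ext p
      constructor
      · rintro hp ⟨l, rfl⟩
        exact hp () l rfl
      · intro hp _ l he
        exact hp ⟨l, he.symm⟩
    rw [h1]
    exact (core_compact h).isClosed.isOpen_compl
  have hAi : InjOn S.A {p | Off (fun _ : Unit => γ) p} := fun p hp p' hp' he => S.A_inj p p' hp hp' he
  have : Nonempty N := ⟨c'' 0⟩
  let B : X → N := Function.invFunOn S.A {p | Off (fun _ : Unit => γ) p}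
  have hB : ∀ p ∈ {p | Off (fun _ : Unit => γ) p}, B (S.A p) = p := fun p hp => hAi.leftInvOn_invFunOn hp
  have hcB : ∀ t, c'' t = B (F (1, g t)) := by
    intro t
    rw [hc2 t, hB _ (hc1 t)]
  have hFg : Continuous fun t => F (1, g t) :=
    hFc.comp (continuous_const.prodMk hg.smooth.continuous)
  refine ⟨c'', ?_, ?_, ?_, ?_⟩
  · have h1 : c'' = fun t => B (F (1, g t)) := funext hcB
    rw [h1, continuous_iff_continuousAt]
    intro t
    refine ContinuousAt.comp (g := B) (f := fun t => F (1, g t)) ?_ hFg.continuousAt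
    show ContinuousAt B (F (1, g t))
    rw [hc2 t]
    exact (Off_inv hOffo (fun p hp => S.A_loc p hp) hB (hc1 t)).continuousAt
  · intro t
    rw [hcB, hcB, hg.per]
  · rintro t ⟨l, hl⟩
    exact hc1 t () l hl.symm
  · refine hcg.trans ⟨fun s t => F (s, g t), ?_, ?_, ?_, ?_, fun _ _ => mem_univ _⟩
    · exact hFc.comp (continuous_fst.prodMk (hg.smooth.continuous.comp continuous_snd))
    · intro s t
      show F (s, g (t + 1)) = F (s, g t)
      rw [hg.per]
    · funext t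
      show F (0, g t) = g t
      by_cases ht : g t ∈ Q '' U
      · rw [hF1 0 _ ht]
        have h4 : D (0, R (g t)) = R (g t) := by
          show ((R (g t)).1 + ((cl 0 * χ ‖(R (g t)).1‖ : ℝ) : ℂ) * w, (R (g t)).2) = R (g t)
          rw [hcl_0, zero_mul, Complex.ofReal_zero, zero_mul, add_zero]
        rw [h4, (hRm _ ht).2]
      · exact hF2 0 _ ht
    · funext t
      exact hc2 t

end Pool.Agent.LKB
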