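import Pool.Agent.LKB.NulG
import Pool.Agent.ACB.S4h

/-!
# LKB/StN: the manifolds `Std r` are simply connected

PROOF.  `S⁴`: `ACB.fhom_S4` (any two closed curves are homotopic), path connected: `isPathConnected_sphere`.  Transport along a diffeomorphism.  Induction: `nul_surg`, `pc_surg`.

-/

open scoped ContDiff Manifold Topology unitInterval
open Set Filter

namespace Pool.Agent.LKB

open Pool.Agent.ACB

universe u

theorem StN_pc4 : PathConnectedSpace S4 := by
  have h1 : 1 < Module.rank ℝ E5 := by
    rw [← Module.finrank_eq_rank, finrank_euclideanSpace]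
    simp only [Fintype.card_fin]
    norm_num
  exact isPathConnected_iff_pathConnectedSpace.1 (isPathConnected_sphere h1 (0 : E5) zero_le_one)

theorem StN_zero (M : Mf) (F : M.X ≃ₘ⟮𝓡 4, 𝓡 4⟯ S4) : Nul M.X ∧ PathConnectedSpace M.X := by
  have := StN_pc4
  constructor
  · intro c hc hp
    refine ⟨c 0, ?_⟩
    have hF : Continuous F := F.continuous
    have hF' : Continuous F.symm := F.symm.continuous
    obtain ⟨H, h1, h2, h3, h4, h5⟩ := fhom_S4 (c := fun t => F (c t)) (c' := fun _ => F (c 0))
      (hF.comp hc) (fun t => by simp only [hp]) continuous_const (fun _ => rfl)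
    refine ⟨fun s t => F.symm (H s t), hF'.comp h1, fun s t => by simp only [h2], ?_, ?_, fun _ _ => mem_univ _⟩
    · funext t
      have e := congrFun h3 t
      simp only at e ⊢
      rw [e]
      exact F.symm_apply_apply _
    · funext t
      have e := congrFun h4 t
      simp only at e ⊢
      rw [e]
      exact F.symm_apply_apply _
  · exact F.symm.toHomeomorph.surjective.pathConnectedSpace F.symm.toHomeomorph.continuous

theorem std_nul : ∀ (r : ℕ) (M : Mf), Std r M → Nul M.X ∧ PathConnectedSpace M.X := by
  intro r
  induction r with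
  | zero =>
    rintro M ⟨F⟩
    exact StN_zero M F
  | succ r ih =>
    rintro M ⟨N, hN, γ, hγ⟩
    obtain ⟨h1, h2⟩ := ih N hN
    have := h2
    exact ⟨nul_surg h1 hγ, pc_surg hγ⟩

end Pool.Agent.LKB
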