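import Pool.Agent.LKB.Defs
import Pool.Agent.ACB.Srg
import Pool.Agent.ACB.SrU
import Pool.Agent.ACB.Tbe

/-!
# LKB/Uni: surgeries along one circle (index type `Unit`)

PROOF.  `ACB.Srg` has these lemmas for the index type `Fin n`.  Either copy its proofs, or pass to `Fin 1`: `IsSurg (fun _ : Unit => γ) X ↔ IsSurg (fun _ : Fin 1 => γ) X`
(transport of the structure `Surg` and of `Tubes` along `Unit ≃ Fin 1`: `uni_iff`).  `uni_rot`: `S.Q` is replaced by `fun (z, v) => S.Q (z, O v)`.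
`uni_uniq`: `ACB.surg_uniq` with the common radius `min ε ε'` (`Tubes.mono`, `Surg.mono`).

-/

open scoped ContDiff Manifold Topology unitInterval
open Set Filter

namespace Pool.Agent.LKB

open Pool.Agent.ACB

universe u

variable {N : Type u} [TopologicalSpace N] [ChartedSpace E4 N]

theorem Uni_tubes {ι ι' : Type} (f : ι' → ι) (hf : Function.Injective f) {γ : ℝ × E3 → N} {ε : ℝ}
    (h : Tubes (fun _ : ι => γ) ε) : Tubes (fun _ : ι' => γ) ε :=
  ⟨fun i => h.thick (f i), fun i j hij => h.disj (f i) (f j) fun he => hij (hf he)⟩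

theorem Uni_off {ι ι' : Type} (f : ι' → ι) {γ : ℝ × E3 → N} {p : N}
    (h : Off (fun _ : ι => γ) p) : Off (fun _ : ι' => γ) p := fun i l => h (f i) l

/-- change of the index set -/
def Uni_surg {ι ι' : Type} (e : ι ≃ ι') {γ : ℝ × E3 → N} {ε : ℝ} {X : Type*} [TopologicalSpace X] [ChartedSpace E4 X]
    (S : Surg (fun _ : ι => γ) ε X) : Surg (fun _ : ι' => γ) ε X where
  A := S.A
  Q := fun i => S.Q (e.symm i)
  A_loc := fun p hp => S.A_loc p (Uni_off e hp)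
  A_inj := fun p p' hp hp' he => S.A_inj p p' (Uni_off e hp) (Uni_off e hp') he
  Q_loc := fun i z v hz => S.Q_loc (e.symm i) z v hz
  glue := fun i l r v h0 h1 => S.glue (e.symm i) l r v h0 h1
  Q_inj := fun i j v v' he => by
    obtain ⟨h1, h2⟩ := S.Q_inj _ _ v v' he
    exact ⟨e.symm.injective h1, h2⟩
  disj := fun i v p hp => S.disj (e.symm i) v p (Uni_off e hp)
  cover := fun q => by
    rcases S.cover q with ⟨p, h1, h2⟩ | ⟨i, v, h1⟩
    · exact Or.inl ⟨p, Uni_off e.symm h1, h2⟩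
    · exact Or.inr ⟨e i, v, by rw [e.symm_apply_apply]; exact h1⟩

theorem uni_iff {γ : ℝ × E3 → N} {X : Type*} [TopologicalSpace X] [ChartedSpace E4 X] :
    IsSurg (fun _ : Unit => γ) X ↔ IsSurg (fun _ : Fin 1 => γ) X := by
  have e : Unit ≃ Fin 1 := Equiv.ofUnique Unit (Fin 1)
  constructor
  · rintro ⟨ε, hT, ⟨S⟩⟩
    exact ⟨ε, Uni_tubes e.symm e.symm.injective hT, ⟨Uni_surg e S⟩⟩
  · rintro ⟨ε, hT, ⟨S⟩⟩
    exact ⟨ε, Uni_tubes e e.injective hT, ⟨Uni_surg e.symm S⟩⟩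

theorem uni_germ {γ γ' : ℝ × E3 → N} {X : Type*} [TopologicalSpace X] [ChartedSpace E4 X]
    (h : IsSurg (fun _ : Unit => γ) X) (hg : ∃ δ > 0, ∀ (l : ℝ) (v : E3), ‖v‖ < δ → γ' (l, v) = γ (l, v)) :
    IsSurg (fun _ : Unit => γ') X :=
  uni_iff.2 (isSurg_germ (uni_iff.1 h) fun _ => hg)

theorem uni_diffeo {γ : ℝ × E3 → N} {X : Type*} [TopologicalSpace X] [ChartedSpace E4 X]
    (h : IsSurg (fun _ : Unit => γ) X) {N' : Type*} [TopologicalSpace N'] [ChartedSpace E4 N'] (F : N ≃ₘ⟮𝓡 4, 𝓡 4⟯ N') :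
    IsSurg (fun _ : Unit => fun x => F (γ x)) X :=
  uni_iff.2 (isSurg_diffeo (uni_iff.1 h) F)

theorem uni_diffeo_X {γ : ℝ × E3 → N} {X : Type*} [TopologicalSpace X] [ChartedSpace E4 X]
    (h : IsSurg (fun _ : Unit => γ) X) {X' : Type*} [TopologicalSpace X'] [ChartedSpace E4 X'] (G : X ≃ₘ⟮𝓡 4, 𝓡 4⟯ X') :
    IsSurg (fun _ : Unit => γ) X' :=
  uni_iff.2 (isSurg_diffeo_X (uni_iff.1 h) G)

theorem uni_uniq [T2Space N] {γ : ℝ × E3 → N} {X : Type*} [TopologicalSpace X] [ChartedSpace E4 X]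
    (h : IsSurg (fun _ : Unit => γ) X) {X' : Type*} [TopologicalSpace X'] [ChartedSpace E4 X']
    (h' : IsSurg (fun _ : Unit => γ) X') : Nonempty (X ≃ₘ⟮𝓡 4, 𝓡 4⟯ X') :=
  isSurg_uniq (uni_iff.1 h) (uni_iff.1 h')

end Pool.Agent.LKB
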